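import Mathlib

/-! Simple random walk on `ℤ^d`: averaging operator, Green potentials (all `ℝ≥0∞` valued). -/

namespace Pool.Agent.V11124.MS

open scoped ENNReal BigOperators
open Filter Topology

/-- The lattice `ℤ^d`. -/
abbrev Z (d : ℕ) := Fin d → ℤ

/-- The unit step `± e_i`. -/
def st {d : ℕ} (e : Fin d × Bool) : Z d := Pi.single e.1 (if e.2 then 1 else -1)

/-- One step averaging operator of simple random walk. -/
noncomputable def P {d : ℕ} (h : Z d → ℝ≥0∞) (x : Z d) : ℝ≥0∞ :=
  (2 * d : ℝ≥0∞)⁻¹ * ∑ e : Fin d × Bool, h (x + st e)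

/-- Point mass at the origin. -/
def dl {d : ℕ} (x : Z d) : ℝ≥0∞ := if x = 0 then 1 else 0

/-- `n`-step transition probability from the origin. -/
noncomputable def p {d : ℕ} (n : ℕ) : Z d → ℝ≥0∞ := P^[n] dl

/-- Green potential of `g`. -/
noncomputable def Psum {d : ℕ} (g : Z d → ℝ≥0∞) (x : Z d) : ℝ≥0∞ := ∑' n, (P^[n] g) x

/-- Convolution on `ℤ^d`. -/
noncomputable def conv {d : ℕ} (f g : Z d → ℝ≥0∞) (x : Z d) : ℝ≥0∞ := ∑' y, f y * g (x - y)

/-- Green function of simple random walk. -/
noncomputable def gr {d : ℕ} (x : Z d) : ℝ≥0∞ := ∑' n, p n x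

/-- `N`-fold convolution of the Green function. -/
noncomputable def GN {d : ℕ} : ℕ → Z d → ℝ≥0∞
  | 0 => dl
  | N + 1 => conv (GN N) gr

variable {d : ℕ}

lemma P_mono {f g : Z d → ℝ≥0∞} (h : f ≤ g) : P f ≤ P g := by
  intro x
  unfold P
  gcongr with e
  exact h _

lemma P_add (f g : Z d → ℝ≥0∞) : P (f + g) = P f + P g := by
  funext x
  simp only [P, Pi.add_apply, Finset.sum_add_distrib, mul_add]

lemma P_tsum {ι : Type*} (f : ι → Z d → ℝ≥0∞) :
    P (fun x => ∑' i, f i x) = fun x => ∑' i, P (f i) x := by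
  funext x
  simp only [P]
  rw [ENNReal.tsum_mul_left]
  congr 1
  rw [Summable.tsum_finsetSum]
  intro i _
  exact ENNReal.summable

lemma P_mul (c : ℝ≥0∞) (f : Z d → ℝ≥0∞) : P (fun x => c * f x) = fun x => c * P f x := by
  funext x
  simp only [P, ← Finset.mul_sum]
  ring

lemma Pn_mono {f g : Z d → ℝ≥0∞} (h : f ≤ g) (n : ℕ) : P^[n] f ≤ P^[n] g := by
  induction n with
  | zero => exact h
  | succ n ih => rw [Function.iterate_succ_apply', Function.iterate_succ_apply']; exact P_mono ih

lemma Pn_add (f g : Z d → ℝ≥0∞) (n : ℕ) : P^[n] (f + g) = P^[n] f + P^[n] g := by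
  induction n with
  | zero => rfl
  | succ n ih => simp only [Function.iterate_succ_apply', ih, P_add]

lemma Pn_mul (c : ℝ≥0∞) (f : Z d → ℝ≥0∞) (n : ℕ) :
    P^[n] (fun x => c * f x) = fun x => c * (P^[n] f) x := by
  induction n with
  | zero => rfl
  | succ n ih => rw [Function.iterate_succ_apply', ih, P_mul, Function.iterate_succ_apply']

lemma Pn_tsum {ι : Type*} (f : ι → Z d → ℝ≥0∞) (n : ℕ) :
    P^[n] (fun x => ∑' i, f i x) = fun x => ∑' i, (P^[n] (f i)) x := by
  induction n with
  | zero => rfl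
  | succ n ih =>
    rw [Function.iterate_succ_apply', ih, P_tsum]
    simp only [Function.iterate_succ_apply']

lemma Psum_mono {f g : Z d → ℝ≥0∞} (h : f ≤ g) : Psum f ≤ Psum g := by
  intro x
  unfold Psum
  exact ENNReal.tsum_le_tsum fun n => Pn_mono h n x

lemma Psum_mul (c : ℝ≥0∞) (f : Z d → ℝ≥0∞) : Psum (fun x => c * f x) = fun x => c * Psum f x := by
  funext x
  simp only [Psum, Pn_mul, ENNReal.tsum_mul_left]

lemma Psum_eq (g : Z d → ℝ≥0∞) : Psum g = g + P (Psum g) := by
  have h : P (Psum g) = fun x => ∑' n, (P^[n+1] g) x := by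
    unfold Psum
    rw [P_tsum]
    simp only [Function.iterate_succ_apply']
  rw [h]
  funext x
  simp only [Psum, Pi.add_apply]
  rw [tsum_eq_zero_add' ENNReal.summable]
  rfl

lemma psum_le_of_super {f g : Z d → ℝ≥0∞} (h : P f + g ≤ f) : Psum g ≤ f := by
  intro x
  have key : ∀ M : ℕ, (∑ n ∈ Finset.range M, (P^[n] g) x) + (P^[M] f) x ≤ f x := by
    intro M
    induction M with
    | zero => simp
    | succ M ih =>
      rw [Finset.sum_range_succ]
      have h1 : (P^[M] g) x + (P^[M+1] f) x ≤ (P^[M] f) x := by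
        have h2 := Pn_mono h M x
        rw [Pn_add] at h2
        have h3 : P^[M] (P f) = P^[M+1] f := by rw [Function.iterate_succ_apply]
        rw [h3] at h2
        rw [add_comm]
        exact h2
      calc _ = (∑ n ∈ Finset.range M, (P^[n] g) x) + ((P^[M] g) x + (P^[M+1] f) x) := by ring
        _ ≤ _ := by gcongr
        _ ≤ f x := ih
  unfold Psum
  rw [ENNReal.tsum_eq_iSup_nat]
  refine iSup_le fun M => le_trans ?_ (key M)
  exact le_self_add

lemma le_psum_of_sub {f g : Z d → ℝ≥0∞} (h : f ≤ P f + g)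
    (h0 : ∀ x, Tendsto (fun n => (P^[n] f) x) atTop (𝓝 0)) : f ≤ Psum g := by
  intro x
  have key : ∀ M : ℕ, f x ≤ (P^[M] f) x + Psum g x := by
    intro M
    have : ∀ M : ℕ, f x ≤ (∑ n ∈ Finset.range M, (P^[n] g) x) + (P^[M] f) x := by
      intro M
      induction M with
      | zero => simp
      | succ M ih =>
        rw [Finset.sum_range_succ]
        have h1 : (P^[M] f) x ≤ (P^[M] g) x + (P^[M+1] f) x := by
          have h2 := Pn_mono h M x
          rw [Pn_add] at h2
          have h3 : P^[M] (P f) = P^[M+1] f := by rw [Function.iterate_succ_apply]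
          rw [h3] at h2
          rw [add_comm]
          exact h2
        calc f x ≤ _ := ih
          _ ≤ (∑ n ∈ Finset.range M, (P^[n] g) x) + ((P^[M] g) x + (P^[M+1] f) x) := by gcongr
          _ = _ := by ring
    refine (this M).trans ?_
    rw [add_comm]
    gcongr
    unfold Psum
    exact ENNReal.sum_le_tsum _
  have := (h0 x).add_const (Psum g x)
  rw [zero_add] at this
  exact ge_of_tendsto' this key

/-! ### convolution -/

lemma conv_dl (g : Z d → ℝ≥0∞) : conv g dl = g := by
  funext x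
  unfold conv dl
  rw [tsum_eq_single x]
  · simp
  · intro y hy
    have : x - y ≠ 0 := fun h => hy (sub_eq_zero.mp h).symm
    simp [this]

lemma P_conv (g f : Z d → ℝ≥0∞) : P (conv g f) = conv g (P f) := by
  unfold conv
  rw [P_tsum]
  funext x
  refine tsum_congr fun y => ?_
  simp only [P]
  rw [← Finset.mul_sum]
  have : ∀ e : Fin d × Bool, x + st e - y = x - y + st e := fun e => by abel
  simp only [this]
  ring

lemma Pn_eq_conv (g : Z d → ℝ≥0∞) (n : ℕ) : P^[n] g = conv g (p n) := by
  induction n with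
  | zero => exact (conv_dl g).symm
  | succ n ih => rw [Function.iterate_succ_apply', ih, P_conv, p, p, Function.iterate_succ_apply']

lemma Psum_eq_conv (g : Z d → ℝ≥0∞) : Psum g = conv g gr := by
  funext x
  unfold Psum conv gr
  simp only [Pn_eq_conv, conv]
  rw [ENNReal.tsum_comm]
  simp only [ENNReal.tsum_mul_left]

lemma GN_succ (N : ℕ) : GN (d := d) (N+1) = Psum (GN N) := by
  rw [Psum_eq_conv]; rfl

lemma p_add (a b : ℕ) : p (d := d) (a + b) = conv (p a) (p b) := by
  rw [← Pn_eq_conv, p, p, ← Function.iterate_add_apply, add_comm]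

lemma conv_comm (f g : Z d → ℝ≥0∞) : conv f g = conv g f := by
  funext x
  unfold conv
  rw [← (Equiv.subLeft x).tsum_eq (fun y => f y * g (x - y))]
  refine tsum_congr fun y => ?_
  simp [mul_comm]

lemma tsum_p (N : ℕ) (x : Z d) : ∑' n : Fin N → ℕ, p (∑ i, n i) x = GN N x := by
  induction N generalizing x with
  | zero =>
    rw [tsum_eq_single (0 : Fin 0 → ℕ)]
    · simp [GN, p]
    · intro b hb; exact absurd (Subsingleton.elim _ _) hb
  | succ N ih =>
    rw [GN_succ]
    rw [← (Fin.consEquiv (fun _ : Fin (N+1) => ℕ)).tsum_eq]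
    rw [ENNReal.tsum_prod (f := fun (a : ℕ) (n : Fin N → ℕ) =>
      p (∑ i, (Fin.consEquiv (fun _ : Fin (N+1) => ℕ)) (a, n) i) x)]
    unfold Psum
    refine tsum_congr fun b => ?_
    have : GN (d := d) N = fun x => ∑' n : Fin N → ℕ, p (∑ i, n i) x := by
      funext x; exact (ih x).symm
    rw [this, Pn_tsum]
    refine tsum_congr fun n => ?_
    rw [Fin.sum_univ_succ]
    simp only [Fin.consEquiv_apply, Fin.cons_zero, Fin.cons_succ]
    rw [p, p, ← Function.iterate_add_apply]

lemma tsum_p_fintype {ι : Type*} [Fintype ι] (x : Z d) :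
    ∑' n : ι → ℕ, p (∑ i, n i) x = GN (Fintype.card ι) x := by
  classical
  rw [← tsum_p]
  rw [← (Equiv.arrowCongr (Fintype.equivFin ι) (Equiv.refl ℕ)).tsum_eq]
  refine tsum_congr fun n => ?_
  congr 1
  simp only [Equiv.arrowCongr_apply, Function.comp, Equiv.refl_apply]
  rw [← (Fintype.equivFin ι).symm.sum_comp]

/-! ### Harnack -/

/-- induction on the lattice -/
lemma Z_ind {S : Z d → Prop} (h0 : S 0) (h : ∀ v e, S v → S (v + st e)) : ∀ v, S v := by
  have h1 : ∀ (n : ℕ) (i : Fin d) (b : Bool) (v : Z d), S v →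
      S (v + Pi.single i ((n : ℤ) * (if b then 1 else -1))) := by
    intro n i b v hv
    induction n with
    | zero => simpa using hv
    | succ n ih =>
      have := h _ (i, b) ih
      have e : v + Pi.single i ((n : ℤ) * (if b then 1 else -1)) + st (i, b)
          = v + Pi.single i (((n + 1 : ℕ) : ℤ) * (if b then 1 else -1)) := by
        unfold st
        rw [add_assoc, ← Pi.single_add]
        congr 2
        push_cast; ring
      rwa [e] at this
  have h2 : ∀ (z : ℤ) (i : Fin d) (v : Z d), S v → S (v + Pi.single i z) := by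
    intro z i v hv
    rcases Int.natAbs_eq z with hz | hz
    · have := h1 z.natAbs i true v hv
      simp only [if_true, mul_one] at this
      rwa [← hz] at this
    · have := h1 z.natAbs i false v hv
      simp only [Bool.false_eq_true, if_false, mul_neg, mul_one] at this
      rwa [← hz] at this
  intro v
  have h3 : ∀ s : Finset (Fin d), S (∑ i ∈ s, Pi.single i (v i)) := by
    intro s
    induction s using Finset.induction_on with
    | empty => simpa using h0
    | insert a s ha ih =>
      rw [Finset.sum_insert ha, add_comm]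
      exact h2 _ _ _ ih
  have := h3 Finset.univ
  rwa [Finset.univ_sum_single] at this

lemma st_neg (e : Fin d × Bool) : -st e = st (e.1, !e.2) := by
  unfold st
  rw [← Pi.single_neg]
  congr 1
  rcases e.2 <;> simp

lemma harnack1 (hd : 0 < d) {H : Z d → ℝ≥0∞} (hH : P H ≤ H) (x : Z d) (e : Fin d × Bool) :
    H (x + st e) ≤ (2 * d : ℝ≥0∞) * H x := by
  have h1 := hH x
  unfold P at h1
  have h2 : H (x + st e) ≤ ∑ e : Fin d × Bool, H (x + st e) :=
    Finset.single_le_sum (f := fun e => H (x + st e)) (fun _ _ => bot_le) (Finset.mem_univ e)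
  have h0 : (2 * d : ℝ≥0∞) ≠ 0 := by
    have : (d : ℝ≥0∞) ≠ 0 := by exact_mod_cast hd.ne'
    simp [this]
  have ht : (2 * d : ℝ≥0∞) ≠ ⊤ := ENNReal.mul_ne_top (by simp) (ENNReal.natCast_ne_top d)
  calc H (x + st e) ≤ ∑ e : Fin d × Bool, H (x + st e) := h2
    _ = (2 * d : ℝ≥0∞) * ((2 * d : ℝ≥0∞)⁻¹ * ∑ e : Fin d × Bool, H (x + st e)) := by
        rw [← mul_assoc, ENNReal.mul_inv_cancel h0 ht, one_mul]
    _ ≤ _ := by gcongr

end Pool.Agent.V11124.MS
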