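import Mathlib
import Pool.Agent.V11124.MS.Base

/-! Probability estimates for the sums of independent simple random walks. -/

namespace Pool.Agent.V11124.MS

open MeasureTheory ProbabilityTheory Filter
open scoped ENNReal BigOperators

variable {d N : ℕ}

/-- `X (i, j)` is the `j`-th step of the `i`-th walk; all steps are independent, and each takes
each of the `2d` values `± e_k` with probability `1/(2d)`. -/
structure IsSRW {Ω : Type*} [MeasurableSpace Ω] (μ : Measure Ω) (X : Fin N × ℕ → Ω → Z d) :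
    Prop where
  meas : ∀ e, Measurable (X e)
  indep : iIndepFun X μ
  law : ∀ e s, μ {ω | X e ω = st s} = (2 * d : ℝ≥0∞)⁻¹

lemma st_inj : Function.Injective (st (d := d)) := by
  intro a b h
  have h1 : a.1 = b.1 := by
    by_contra hne
    have := congrFun h a.1
    unfold st at this
    rw [Pi.single_eq_same, Pi.single_eq_of_ne hne] at this
    split_ifs at this <;> omega
  have h2 : a.2 = b.2 := by
    have := congrFun h a.1
    unfold st at this
    rw [Pi.single_eq_same, h1, Pi.single_eq_same] at this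
    rcases ha : a.2 <;> rcases hb : b.2 <;> simp [ha, hb] at this ⊢
  exact Prod.ext h1 h2

section

variable {Ω : Type*} [mΩ : MeasurableSpace Ω] {μ : Measure Ω} [IsProbabilityMeasure μ]
  {X : Fin N × ℕ → Ω → Z d}

lemma meas_eq (hX : IsSRW μ X) (e : Fin N × ℕ) (v : Z d) : MeasurableSet {ω | X e ω = v} :=
  (hX.meas e) (measurableSet_singleton v)

lemma split_step (hd : 0 < d) (hX : IsSRW μ X) (e : Fin N × ℕ) (B : Set Ω) (hB : MeasurableSet B) :
    μ B = ∑ s : Fin d × Bool, μ (B ∩ {ω | X e ω = st s}) := by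
  have hdisj : Pairwise (Function.onFun Disjoint fun s : Fin d × Bool => {ω | X e ω = st s}) := by
    intro s t hst
    rw [Function.onFun, Set.disjoint_left]
    intro ω h1 h2
    exact hst (st_inj (h1.symm.trans h2))
  set U := ⋃ s : Fin d × Bool, {ω | X e ω = st s} with hU
  have hUm : MeasurableSet U := MeasurableSet.iUnion fun s => meas_eq hX e _
  have h0 : (2 * d : ℝ≥0∞) ≠ 0 := by
    have : (d : ℝ≥0∞) ≠ 0 := by exact_mod_cast hd.ne'
    simp [this]
  have ht : (2 * d : ℝ≥0∞) ≠ ⊤ := ENNReal.mul_ne_top (by simp) (ENNReal.natCast_ne_top d)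
  have hU1 : μ U = 1 := by
    rw [hU, measure_iUnion hdisj (fun s => meas_eq hX e _), tsum_fintype]
    simp only [hX.law, Finset.sum_const, Finset.card_univ, Fintype.card_prod, Fintype.card_fin,
      Fintype.card_bool, nsmul_eq_mul]
    have : ((d * 2 : ℕ) : ℝ≥0∞) = 2 * d := by push_cast; ring
    rw [this, ENNReal.mul_inv_cancel h0 ht]
  have hUc : μ Uᶜ = 0 := by
    rw [prob_compl_eq_zero_iff hUm]; exact hU1
  rw [← measure_inter_add_sdiff B hUm]
  have : μ (B \ U) = 0 := measure_mono_null (fun x hx => hx.2) hUc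
  rw [this, add_zero, hU, Set.inter_iUnion, measure_iUnion, tsum_fintype]
  · intro s t hst
    exact (hdisj hst).mono Set.inter_subset_right Set.inter_subset_right
  · intro s; exact hB.inter (meas_eq hX e _)

/-- reflecting the steps -/
def rf (s : Fin d × Bool) : Fin d × Bool := (s.1, !s.2)
lemma rf_rf (s : Fin d × Bool) : rf (rf s) = s := by simp [rf]
def rfE : (Fin d × Bool) ≃ (Fin d × Bool) := ⟨rf, rf, rf_rf, rf_rf⟩
lemma st_rf (s : Fin d × Bool) : st (rf s) = - st s := (st_neg s).symm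

lemma P_eq_sub (h : Z d → ℝ≥0∞) (x : Z d) :
    P h x = (2 * d : ℝ≥0∞)⁻¹ * ∑ s : Fin d × Bool, h (x - st s) := by
  unfold P
  congr 1
  rw [← rfE.sum_comp]
  refine Finset.sum_congr rfl fun s _ => ?_
  change h (x + st (rf s)) = _
  rw [st_rf, sub_eq_add_neg]

/-- the sigma algebra generated by the steps indexed by `S` -/
@[instance_reducible] def sgm (X : Fin N × ℕ → Ω → Z d) (S : Set (Fin N × ℕ)) : MeasurableSpace Ω :=
  ⨆ e ∈ S, MeasurableSpace.comap (X e) inferInstance

lemma sgm_meas {S : Set (Fin N × ℕ)} {e : Fin N × ℕ} (he : e ∈ S) :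
    Measurable[sgm X S] (X e) := by
  have h : MeasurableSpace.comap (X e) inferInstance ≤ sgm X S :=
    le_iSup₂_of_le (f := fun e (_ : e ∈ S) => MeasurableSpace.comap (X e) inferInstance) e he le_rfl
  exact (comap_measurable (X e)).mono h le_rfl

lemma sgm_sum {S : Set (Fin N × ℕ)} {F : Finset (Fin N × ℕ)} (h : ↑F ⊆ S) :
    Measurable[sgm X S] (fun ω => ∑ e ∈ F, X e ω) :=
  Finset.measurable_fun_sum F fun e he => sgm_meas (h he)

lemma sgm_le (hX : IsSRW μ X) (S : Set (Fin N × ℕ)) : sgm X S ≤ mΩ :=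
  iSup₂_le fun e _ => (hX.meas e).comap_le

lemma sgm_indep (hX : IsSRW μ X) {S T : Set (Fin N × ℕ)} (hST : Disjoint S T) {A B : Set Ω}
    (hA : MeasurableSet[sgm X S] A) (hB : MeasurableSet[sgm X T] B) :
    μ (A ∩ B) = μ A * μ B := by
  have h1 : iIndep (fun e => MeasurableSpace.comap (X e) inferInstance) μ := hX.indep
  have h2 := indep_iSup_of_disjoint (fun e => (hX.meas e).comap_le) h1 hST
  rw [Indep_iff] at h2
  exact h2 A B hA hB

lemma law_S (hd : 0 < d) (hX : IsSRW μ X) (F : Finset (Fin N × ℕ)) (x : Z d) :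
    μ {ω | ∑ e ∈ F, X e ω = x} = p F.card x := by
  classical
  induction F using Finset.induction_on generalizing x with
  | empty =>
    simp only [Finset.sum_empty, Finset.card_empty, p, Function.iterate_zero, id, dl]
    by_cases hx : x = 0
    · subst hx; simp
    · rw [if_neg hx]
      have : {ω : Ω | (0 : Z d) = x} = ∅ := by
        ext ω; simp; exact fun h => hx h.symm
      rw [this, measure_empty]
  | insert a F ha ih =>
    rw [Finset.card_insert_of_notMem ha, p, Function.iterate_succ_apply']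
    change _ = P (p F.card) x
    rw [P_eq_sub, Finset.mul_sum]
    have hSm : Measurable (fun ω => ∑ e ∈ insert a F, X e ω) :=
      Finset.measurable_fun_sum _ fun e _ => hX.meas e
    have hS' : MeasurableSet {ω | ∑ e ∈ insert a F, X e ω = x} := hSm (measurableSet_singleton x)
    rw [split_step hd hX a _ hS']
    refine Finset.sum_congr rfl fun s _ => ?_
    have : ({ω | ∑ e ∈ insert a F, X e ω = x} ∩ {ω | X a ω = st s})
        = {ω | X a ω = st s} ∩ {ω | ∑ e ∈ F, X e ω = x - st s} := by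
      ext ω
      simp only [Set.mem_inter_iff, Set.mem_ofPred_eq,
        Finset.sum_insert ha]
      constructor
      · rintro ⟨h1, h2⟩
        refine ⟨h2, ?_⟩
        rw [h2] at h1
        rw [← h1]; abel
      · rintro ⟨h1, h2⟩
        refine ⟨?_, h1⟩
        rw [h1, h2]; abel
    rw [this]
    have h1 : MeasurableSet[sgm X {a}] {ω | X a ω = st s} :=
      (sgm_meas (X := X) (S := {a}) rfl) (measurableSet_singleton _)
    have h2 : MeasurableSet[sgm X (↑F : Set (Fin N × ℕ))] {ω | ∑ e ∈ F, X e ω = x - st s} :=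
      (sgm_sum (X := X) (S := ↑F) subset_rfl) (measurableSet_singleton _)
    rw [sgm_indep hX (by simpa using ha) h1 h2, ih, hX.law]

/-! ### the walks -/

/-- sum of the positions of the walks with step sequence `w` at times `n`. -/
def V (n : Fin N → ℕ) (w : Fin N × ℕ → Z d) : Z d := ∑ i, ∑ j ∈ Finset.range (n i), w (i, j)

/-- index set -/
def Fn (n : Fin N → ℕ) : Finset (Fin N × ℕ) :=
  (Finset.univ.sigma fun i => Finset.range (n i)).map (Equiv.sigmaEquivProd (Fin N) ℕ).toEmbedding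

lemma mem_Fn (n : Fin N → ℕ) (e : Fin N × ℕ) : e ∈ Fn n ↔ e.2 < n e.1 := by
  unfold Fn
  simp only [Finset.mem_map, Finset.mem_sigma, Finset.mem_univ, Finset.mem_range, true_and]
  constructor
  · rintro ⟨⟨a, b⟩, h, rfl⟩; exact h
  · intro h; exact ⟨⟨e.1, e.2⟩, h, rfl⟩

lemma card_Fn (n : Fin N → ℕ) : (Fn n).card = ∑ i, n i := by
  unfold Fn
  rw [Finset.card_map, Finset.card_sigma]
  simp

lemma V_eq (n : Fin N → ℕ) (w : Fin N × ℕ → Z d) : V n w = ∑ e ∈ Fn n, w e := by
  unfold V Fn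
  rw [Finset.sum_map, Finset.sum_sigma]
  rfl

lemma law_V (hd : 0 < d) (hX : IsSRW μ X) (n : Fin N → ℕ) (x : Z d) :
    μ {ω | V n (fun e => X e ω) = x} = p (∑ i, n i) x := by
  simp only [V_eq]
  rw [law_S hd hX, card_Fn]

lemma card_diff (n m : Fin N → ℕ) : (Fn n \ Fn (n ⊓ m)).card = ∑ i, (n i - m i) := by
  have hsub : Fn (n ⊓ m) ⊆ Fn n := by
    intro e he
    rw [mem_Fn] at he ⊢
    exact lt_of_lt_of_le he (inf_le_left (a := n e.1))
  rw [Finset.card_sdiff_of_subset hsub, card_Fn, card_Fn]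
  have : ∑ i, n i = ∑ i, (n ⊓ m) i + ∑ i, (n i - m i) := by
    rw [← Finset.sum_add_distrib]
    refine Finset.sum_congr rfl fun i _ => ?_
    simp only [Pi.inf_apply]
    omega
  omega

lemma two_point (hd : 0 < d) (hX : IsSRW μ X) (n m : Fin N → ℕ) (x y : Z d) :
    μ {ω | V n (fun e => X e ω) = x ∧ V m (fun e => X e ω) = y}
      ≤ ∑' v : Z d, p (∑ i, min (n i) (m i)) v * (p (∑ i, (n i - m i)) (x - v)
        * p (∑ i, (m i - n i)) (y - v)) := by
  classical
  set K := Fn (n ⊓ m) with hK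
  set A := Fn n \ K with hA
  set B := Fn m \ K with hB
  have hKn : K ⊆ Fn n := by
    intro e he
    rw [hK, mem_Fn] at he
    rw [mem_Fn]
    exact lt_of_lt_of_le he (inf_le_left (a := n e.1))
  have hKm : K ⊆ Fn m := by
    intro e he
    rw [hK, mem_Fn] at he
    rw [mem_Fn]
    exact lt_of_lt_of_le he (inf_le_right (a := n e.1))
  have hAB : Disjoint A B := by
    rw [Finset.disjoint_left]
    intro e h1 h2
    rw [hA, Finset.mem_sdiff, hK, mem_Fn, mem_Fn] at h1
    rw [hB, Finset.mem_sdiff, hK, mem_Fn, mem_Fn] at h2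
    exact h1.2 (lt_min h1.1 h2.1)
  have hcover : {ω | V n (fun e => X e ω) = x ∧ V m (fun e => X e ω) = y}
      ⊆ ⋃ v : Z d, {ω | ∑ e ∈ K, X e ω = v} ∩ ({ω | ∑ e ∈ A, X e ω = x - v}
        ∩ {ω | ∑ e ∈ B, X e ω = y - v}) := by
    rintro ω ⟨h1, h2⟩
    rw [Set.mem_iUnion]
    refine ⟨∑ e ∈ K, X e ω, rfl, ?_, ?_⟩
    · rw [V_eq, ← Finset.sum_sdiff hKn] at h1
      rw [Set.mem_ofPred_eq, ← h1, add_sub_cancel_right]
    · rw [V_eq, ← Finset.sum_sdiff hKm] at h2
      rw [Set.mem_ofPred_eq, ← h2, add_sub_cancel_right]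
  refine (measure_mono hcover).trans ((measure_iUnion_le _).trans (ENNReal.tsum_le_tsum fun v => ?_))
  have m1 : MeasurableSet[sgm X (↑K : Set (Fin N × ℕ))] {ω | ∑ e ∈ K, X e ω = v} :=
    (sgm_sum (X := X) subset_rfl) (measurableSet_singleton _)
  have m2 : MeasurableSet[sgm X ((↑A : Set (Fin N × ℕ)) ∪ ↑B)] ({ω | ∑ e ∈ A, X e ω = x - v}
        ∩ {ω | ∑ e ∈ B, X e ω = y - v}) :=
    MeasurableSet.inter
      ((sgm_sum (X := X) Set.subset_union_left) (measurableSet_singleton _))
      ((sgm_sum (X := X) Set.subset_union_right) (measurableSet_singleton _))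
  have m3 : MeasurableSet[sgm X (↑A : Set (Fin N × ℕ))] {ω | ∑ e ∈ A, X e ω = x - v} :=
    (sgm_sum (X := X) subset_rfl) (measurableSet_singleton _)
  have m4 : MeasurableSet[sgm X (↑B : Set (Fin N × ℕ))] {ω | ∑ e ∈ B, X e ω = y - v} :=
    (sgm_sum (X := X) subset_rfl) (measurableSet_singleton _)
  have d1 : Disjoint (↑K : Set (Fin N × ℕ)) ((↑A : Set (Fin N × ℕ)) ∪ ↑B) := by
    rw [Set.disjoint_union_right]
    constructor
    · exact_mod_cast Finset.disjoint_sdiff
    · exact_mod_cast Finset.disjoint_sdiff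
  have d2 : Disjoint (↑A : Set (Fin N × ℕ)) ↑B := by exact_mod_cast hAB
  rw [sgm_indep hX d1 m1 m2, sgm_indep hX d2 m3 m4, law_S hd hX, law_S hd hX, law_S hd hX]
  have c1 : K.card = ∑ i, min (n i) (m i) := by rw [hK, card_Fn]; rfl
  have c2 : A.card = ∑ i, (n i - m i) := card_diff n m
  have c3 : B.card = ∑ i, (m i - n i) := by
    rw [hB, hK, inf_comm]; exact card_diff m n
  rw [c1, c2, c3]

/-! ### shifts -/

/-- shifted step sequence -/
def sh (k : Fin N → ℕ) (w : Fin N × ℕ → Z d) : Fin N × ℕ → Z d := fun e => w (e.1, k e.1 + e.2)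

lemma V_add (k m : Fin N → ℕ) (w : Fin N × ℕ → Z d) : V (k + m) w = V k w + V m (sh k w) := by
  unfold V sh
  rw [← Finset.sum_add_distrib]
  refine Finset.sum_congr rfl fun i _ => ?_
  rw [Pi.add_apply, Finset.sum_range_add]

lemma V_meas (n : Fin N → ℕ) : Measurable (V (d := d) n) := by
  unfold V
  exact Finset.measurable_fun_sum _ fun i _ => Finset.measurable_fun_sum _ fun j _ =>
    measurable_pi_apply _

lemma law_one (hd : 0 < d) (hX : IsSRW μ X) (e : Fin N × ℕ) (v : Z d) :
    μ {ω | X e ω = v} = p 1 v := by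
  have := law_S hd hX {e} v
  simpa using this

lemma law_sh (hd : 0 < d) (hX : IsSRW μ X) (k : Fin N → ℕ) {W : Set (Fin N × ℕ → Z d)}
    (hW : MeasurableSet W) :
    μ {ω | sh k (fun e => X e ω) ∈ W} = μ {ω | (fun e => X e ω) ∈ W} := by
  have hinj : Function.Injective (fun e : Fin N × ℕ => (e.1, k e.1 + e.2)) := by
    rintro ⟨a, b⟩ ⟨a', b'⟩ h
    simp only [Prod.mk.injEq] at h
    obtain ⟨rfl, h2⟩ := h
    simp only [Prod.mk.injEq, true_and]
    omega
  have h1 := hX.indep.precomp hinj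
  have hm1 : ∀ e : Fin N × ℕ, Measurable (X (e.1, k e.1 + e.2)) := fun e => hX.meas _
  have e1 := (iIndepFun_iff_map_fun_eq_infinitePi_map
    (fun e : Fin N × ℕ => hm1 e)).mp h1
  have e2 := (iIndepFun_iff_map_fun_eq_infinitePi_map (fun e : Fin N × ℕ => hX.meas e)).mp hX.indep
  have e3 : ∀ e : Fin N × ℕ, μ.map (X (e.1, k e.1 + e.2)) = μ.map (X e) := by
    intro e
    apply Measure.ext_of_singleton
    intro v
    rw [Measure.map_apply (hX.meas _) (measurableSet_singleton v),
      Measure.map_apply (hX.meas _) (measurableSet_singleton v)]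
    exact (law_one hd hX _ v).trans (law_one hd hX _ v).symm
  have e4 : μ.map (fun ω => sh k (fun e => X e ω)) = μ.map (fun ω e => X e ω) := by
    rw [e2]
    refine Eq.trans e1 ?_
    congr 1
    funext e
    exact e3 e
  have m1 : Measurable (fun ω => sh k (fun e => X e ω)) :=
    measurable_pi_lambda _ fun e => hX.meas _
  have m2 : Measurable (fun ω (e : Fin N × ℕ) => X e ω) := measurable_pi_lambda _ fun e => hX.meas _
  have := DFunLike.congr_fun e4 W
  rw [Measure.map_apply m1 hW, Measure.map_apply m2 hW] at this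
  exact this

lemma indep_sh (hd : 0 < d) (hX : IsSRW μ X) (k : Fin N → ℕ) (v : Z d)
    {W : Set (Fin N × ℕ → Z d)} (hW : MeasurableSet W) :
    μ ({ω | V k (fun e => X e ω) = v} ∩ {ω | sh k (fun e => X e ω) ∈ W})
      = p (∑ i, k i) v * μ {ω | (fun e => X e ω) ∈ W} := by
  have m1 : MeasurableSet[sgm X (↑(Fn k) : Set (Fin N × ℕ))] {ω | V k (fun e => X e ω) = v} := by
    simp only [V_eq]
    exact (sgm_sum (X := X) subset_rfl) (measurableSet_singleton _)
  have m2 : MeasurableSet[sgm X (↑(Fn k) : Set (Fin N × ℕ))ᶜ] {ω | sh k (fun e => X e ω) ∈ W} := by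
    have : Measurable[sgm X (↑(Fn k) : Set (Fin N × ℕ))ᶜ] (fun ω => sh k (fun e => X e ω)) := by
      apply @measurable_pi_lambda _ _ _ (sgm X (↑(Fn k) : Set (Fin N × ℕ))ᶜ)
      intro e
      apply sgm_meas
      rw [Set.mem_compl_iff, Finset.mem_coe, mem_Fn]
      simp
    exact this hW
  rw [sgm_indep hX disjoint_compl_right m1 m2, law_V hd hX, law_sh hd hX k hW]

end

end Pool.Agent.V11124.MS
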