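import Mathlib
import Pool.Agent.V11124.MS.Prob

/-! Decomposition of the hitting event according to the lexicographically last hit. -/

namespace Pool.Agent.V11124.MS

open MeasureTheory ProbabilityTheory Filter
open scoped ENNReal BigOperators

variable {d N : ℕ} {Ω : Type*} [mΩ : MeasurableSpace Ω]

/-- the walks at times `n` hit `A - z` -/
def hit (X : Fin N × ℕ → Ω → Z d) (A : Finset (Z d)) (z : Z d) (n : Fin N → ℕ) : Set Ω :=
  {ω | z + V n (fun e => X e ω) ∈ A}

/-- `n` is the lexicographically last hit -/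
def lastH (X : Fin N × ℕ → Ω → Z d) (A : Finset (Z d)) (z : Z d) (n : Fin N → ℕ) : Set Ω :=
  {ω | ω ∈ hit X A z n ∧ ∀ m : Fin N → ℕ, toLex n < toLex m → ω ∉ hit X A z m}

/-- window event -/
def Wset (A : Finset (Z d)) (L : ℕ) (u : Z d) : Set (Fin N × ℕ → Z d) :=
  {w | u + V (fun _ => L) w ∈ A ∧ ∀ m : Fin N → ℕ, (∀ i, m i ≤ 2 * L) →
    toLex (fun _ : Fin N => L) < toLex m → u + V m w ∉ A}

/-- localised event -/
def EL (X : Fin N × ℕ → Ω → Z d) (A : Finset (Z d)) (L : ℕ) (z : Z d) (k : Fin N → ℕ) : Set Ω :=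
  {ω | sh k (fun e => X e ω) ∈ Wset A L (z + V k (fun e => X e ω))}

/-- probability of the window event -/
noncomputable def cL (μ : Measure Ω) (X : Fin N × ℕ → Ω → Z d) (A : Finset (Z d)) (L : ℕ)
    (u : Z d) : ℝ≥0∞ := μ {ω | (fun e => X e ω) ∈ Wset A L u}

/-- two multi-indices are far apart -/
def far (L : ℕ) (n m : Fin N → ℕ) : Prop := ∃ i, n i + L < m i ∨ m i + L < n i

open Classical in
/-- error term for far away pairs -/
noncomputable def BL (μ : Measure Ω) (X : Fin N × ℕ → Ω → Z d) (A : Finset (Z d)) (L : ℕ)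
    (z : Z d) : ℝ≥0∞ :=
  ∑' n : Fin N → ℕ, ∑' m : Fin N → ℕ, if far L n m then μ (hit X A z n ∩ hit X A z m) else 0

open Classical in
/-- error term for boundary indices -/
noncomputable def DL (μ : Measure Ω) (X : Fin N × ℕ → Ω → Z d) (A : Finset (Z d)) (L : ℕ)
    (z : Z d) : ℝ≥0∞ :=
  ∑' n : Fin N → ℕ, if ∃ i, n i < L then μ (hit X A z n) else 0

/-- main term -/
noncomputable def ML (μ : Measure Ω) (X : Fin N × ℕ → Ω → Z d) (A : Finset (Z d)) (L : ℕ)
    (z : Z d) : ℝ≥0∞ := ∑' v : Z d, GN N v * cL μ X A L (z + v)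

variable {μ : Measure Ω} [IsProbabilityMeasure μ] {X : Fin N × ℕ → Ω → Z d}

lemma X_meas (hX : IsSRW μ X) : Measurable (fun ω (e : Fin N × ℕ) => X e ω) :=
  measurable_pi_lambda _ fun e => hX.meas e

lemma VX_meas (hX : IsSRW μ X) (n : Fin N → ℕ) : Measurable (fun ω => V n (fun e => X e ω)) :=
  (V_meas n).comp (X_meas hX)

lemma hit_meas (hX : IsSRW μ X) (A : Finset (Z d)) (z : Z d) (n : Fin N → ℕ) :
    MeasurableSet (hit X A z n) := by
  have h1 : Measurable (fun ω => z + V n (fun e => X e ω)) := (VX_meas hX n).const_add z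
  exact h1 A.measurableSet

lemma lastH_meas (hX : IsSRW μ X) (A : Finset (Z d)) (z : Z d) (n : Fin N → ℕ) :
    MeasurableSet (lastH X A z n) := by
  have : lastH X A z n = hit X A z n ∩ ⋂ m : Fin N → ℕ, ⋂ _ : toLex n < toLex m, (hit X A z m)ᶜ := by
    ext ω
    simp only [lastH, Set.mem_ofPred_eq, Set.mem_inter_iff, Set.mem_iInter, Set.mem_compl_iff]
  rw [this]
  exact (hit_meas hX A z n).inter (MeasurableSet.iInter fun m => MeasurableSet.iInter fun _ =>
    (hit_meas hX A z m).compl)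

lemma Wset_meas (A : Finset (Z d)) (L : ℕ) (u : Z d) :
    MeasurableSet (Wset (N := N) A L u) := by
  have : Wset (N := N) A L u = {w | u + V (fun _ => L) w ∈ A} ∩ ⋂ m : Fin N → ℕ,
      ⋂ _ : (∀ i, m i ≤ 2 * L), ⋂ _ : toLex (fun _ : Fin N => L) < toLex m, {w | u + V m w ∈ A}ᶜ := by
    ext w
    simp only [Wset, Set.mem_ofPred_eq, Set.mem_inter_iff, Set.mem_iInter, Set.mem_compl_iff]
  have hm : ∀ m : Fin N → ℕ, MeasurableSet {w : Fin N × ℕ → Z d | u + V m w ∈ A} := by
    intro m
    exact ((V_meas m).const_add u) A.measurableSet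
  rw [this]
  exact (hm _).inter (MeasurableSet.iInter fun m => MeasurableSet.iInter fun _ =>
    MeasurableSet.iInter fun _ => (hm m).compl)

lemma mu_EL (hd : 0 < d) (hX : IsSRW μ X) (A : Finset (Z d)) (L : ℕ) (z : Z d) (k : Fin N → ℕ) :
    μ (EL X A L z k) = ∑' v : Z d, p (∑ i, k i) v * cL μ X A L (z + v) := by
  have h1 : EL X A L z k = ⋃ v : Z d, ({ω | V k (fun e => X e ω) = v}
      ∩ {ω | sh k (fun e => X e ω) ∈ Wset A L (z + v)}) := by
    ext ω
    simp only [EL, Set.mem_ofPred_eq, Set.mem_iUnion, Set.mem_inter_iff]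
    constructor
    · intro h; exact ⟨_, rfl, h⟩
    · rintro ⟨v, rfl, h⟩; exact h
  rw [h1, measure_iUnion]
  · refine tsum_congr fun v => ?_
    exact indep_sh hd hX k v (Wset_meas A L _)
  · intro v v' hv
    rw [Function.onFun, Set.disjoint_left]
    rintro ω ⟨h2, _⟩ ⟨h3, _⟩
    exact hv (h2.symm.trans h3)
  · intro v
    refine (VX_meas hX k (measurableSet_singleton v)).inter ?_
    have : Measurable (fun ω => sh k (fun e => X e ω)) := measurable_pi_lambda _ fun e => hX.meas _
    exact this (Wset_meas A L _)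

lemma sum_EL (hd : 0 < d) (hX : IsSRW μ X) (A : Finset (Z d)) (L : ℕ) (z : Z d) :
    ∑' k, μ (EL X A L z k) = ML μ X A L z := by
  simp only [mu_EL hd hX]
  rw [ENNReal.tsum_comm]
  unfold ML
  refine tsum_congr fun v => ?_
  rw [ENNReal.tsum_mul_right, tsum_p]

lemma lex_shift (k a b : Fin N → ℕ) : toLex (k + a) < toLex (k + b) ↔ toLex a < toLex b := by
  rw [toLex_add, toLex_add, add_lt_add_iff_left]

lemma lastH_sub_EL (A : Finset (Z d)) (L : ℕ) (z : Z d) (k : Fin N → ℕ) :
    lastH X A z (k + fun _ => L) ⊆ EL X A L z k := by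
  rintro ω ⟨h1, h2⟩
  unfold hit at h1
  rw [Set.mem_ofPred_eq, V_add, ← add_assoc] at h1
  refine ⟨h1, ?_⟩
  intro m _ hlt hcon
  apply h2 (k + m) ((lex_shift k _ m).mpr hlt)
  unfold hit
  rw [Set.mem_ofPred_eq, V_add, ← add_assoc]
  exact hcon

open Classical in
lemma EL_le (A : Finset (Z d)) (L : ℕ) (z : Z d) (k : Fin N → ℕ) :
    μ (EL X A L z k) ≤ μ (lastH X A z (k + fun _ => L))
      + ∑' m : Fin N → ℕ, if far L (k + fun _ => L) m then
        μ (hit X A z (k + fun _ => L) ∩ hit X A z m) else 0 := by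
  have hsub : EL X A L z k ⊆ lastH X A z (k + fun _ => L) ∪
      ⋃ m : Fin N → ℕ, (if far L (k + fun _ => L) m then
        (hit X A z (k + fun _ => L) ∩ hit X A z m) else ∅) := by
    rintro ω ⟨h1, h2⟩
    have hh : ω ∈ hit X A z (k + fun _ => L) := by
      unfold hit
      rw [Set.mem_ofPred_eq, V_add, ← add_assoc]
      exact h1
    by_cases hl : ω ∈ lastH X A z (k + fun _ => L)
    · exact Or.inl hl
    · right
      have : ∃ m : Fin N → ℕ, toLex (k + fun _ => L) < toLex m ∧ ω ∈ hit X A z m := by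
        by_contra hcon
        push Not at hcon
        exact hl ⟨hh, hcon⟩
      obtain ⟨m', hlt, hm'⟩ := this
      rw [Set.mem_iUnion]
      refine ⟨m', ?_⟩
      have hf : far L (k + fun _ => L) m' := by
        by_contra hnf
        unfold far at hnf
        push Not at hnf
        have hk : ∀ i, k i ≤ m' i := by
          intro i
          have := (hnf i).2
          simp only [Pi.add_apply] at this
          omega
        set m : Fin N → ℕ := fun i => m' i - k i with hm
        have e : m' = k + m := by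
          funext i
          have := hk i
          simp only [hm, Pi.add_apply]; omega
        have hm2 : ∀ i, m i ≤ 2 * L := by
          intro i
          have := (hnf i).1
          simp only [Pi.add_apply] at this
          simp only [hm]; omega
        rw [e, lex_shift] at hlt
        apply h2 m hm2 hlt
        rw [e] at hm'
        unfold hit at hm'
        rw [Set.mem_ofPred_eq, V_add, ← add_assoc] at hm'
        exact hm'
      rw [if_pos hf]
      exact ⟨hh, hm'⟩
  refine (measure_mono hsub).trans ((measure_union_le _ _).trans ?_)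
  gcongr
  refine (measure_iUnion_le _).trans (ENNReal.tsum_le_tsum fun m => ?_)
  split_ifs <;> simp

lemma mu_hit_le (hd : 0 < d) (hX : IsSRW μ X) (A : Finset (Z d)) (z : Z d) (n : Fin N → ℕ) :
    μ (hit X A z n) ≤ ∑ a ∈ A, p (∑ i, n i) (a - z) := by
  have : hit X A z n ⊆ ⋃ a ∈ A, {ω | V n (fun e => X e ω) = a - z} := by
    intro ω hω
    simp only [Set.mem_iUnion]
    refine ⟨z + V n (fun e => X e ω), hω, ?_⟩
    rw [Set.mem_ofPred_eq]; abel
  refine (measure_mono this).trans ((measure_biUnion_finset_le _ _).trans (le_of_eq ?_))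
  exact Finset.sum_congr rfl fun a _ => law_V hd hX n _

lemma sum_hit_le (hd : 0 < d) (hX : IsSRW μ X) (A : Finset (Z d)) (z : Z d) :
    ∑' n, μ (hit X A z n) ≤ ∑ a ∈ A, GN N (a - z) := by
  refine (ENNReal.tsum_le_tsum fun n => mu_hit_le hd hX A z n).trans (le_of_eq ?_)
  rw [Summable.tsum_finsetSum (fun _ _ => ENNReal.summable)]
  exact Finset.sum_congr rfl fun a _ => tsum_p N _

lemma lastH_disj (A : Finset (Z d)) (z : Z d) :
    Pairwise (Function.onFun Disjoint (lastH X A z)) := by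
  intro n m hnm
  rw [Function.onFun, Set.disjoint_left]
  rintro ω ⟨h1, h2⟩ ⟨h3, h4⟩
  rcases lt_trichotomy (toLex n) (toLex m) with h | h | h
  · exact h2 m h h3
  · exact hnm (toLex.injective h)
  · exact h4 n h h1

lemma sum_last_le (hX : IsSRW μ X) (A : Finset (Z d)) (z : Z d) :
    ∑' n, μ (lastH X A z n) ≤ μ (⋃ n, hit X A z n) := by
  rw [← measure_iUnion (lastH_disj A z) (fun n => lastH_meas hX A z n)]
  apply measure_mono
  exact Set.iUnion_mono fun n ω hω => hω.1

lemma le_sum_last (A : Finset (Z d)) (z : Z d) (hfin : ∑' n, μ (hit X A z n) ≠ ⊤) :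
    μ (⋃ n, hit X A z n) ≤ ∑' n, μ (lastH X A z n) := by
  have h1 := ae_finite_setOfPred_mem hfin
  have h2 : (⋃ n, hit X A z n) ≤ᵐ[μ] ⋃ n, lastH X A z n := by
    filter_upwards [h1] with ω hω
    intro hmem
    obtain ⟨n, hn⟩ := Set.mem_iUnion.mp hmem
    have hfin2 : (toLex '' {n | ω ∈ hit X A z n}).Finite := hω.image _
    have hne : (toLex '' {n | ω ∈ hit X A z n}).Nonempty := ⟨toLex n, n, hn, rfl⟩
    obtain ⟨M, ⟨m, hm, rfl⟩, hmax⟩ := Set.exists_max_image _ id hfin2 hne
    refine Set.mem_iUnion.mpr ⟨m, hm, ?_⟩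
    intro m' hlt hm'
    exact absurd (hmax _ ⟨m', hm', rfl⟩) (not_le.mpr hlt)
  exact (measure_mono_ae h2).trans (measure_iUnion_le _)

lemma add_inj (L : ℕ) : Function.Injective (fun k : Fin N → ℕ => k + fun _ => L) :=
  add_left_injective _

open Classical in
lemma upper5 (hd : 0 < d) (hX : IsSRW μ X) (A : Finset (Z d)) (L : ℕ) (z : Z d)
    (hfin : ∑' n, μ (hit X A z n) ≠ ⊤) :
    μ (⋃ n, hit X A z n) ≤ ML μ X A L z + DL μ X A L z := by
  refine (le_sum_last A z hfin).trans ?_
  rw [← sum_EL hd hX]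
  have h1 : ∀ n : Fin N → ℕ, μ (lastH X A z n) ≤ (if ∀ i, L ≤ n i then μ (lastH X A z n) else 0)
      + (if ∃ i, n i < L then μ (hit X A z n) else 0) := by
    intro n
    by_cases h : ∀ i, L ≤ n i
    · rw [if_pos h]; exact le_self_add
    · have h' : ∃ i, n i < L := by push Not at h; exact h
      rw [if_neg h, if_pos h', zero_add]
      exact measure_mono fun ω hω => hω.1
  refine (ENNReal.tsum_le_tsum h1).trans ?_
  rw [ENNReal.tsum_add]
  unfold DL
  refine add_le_add ?_ le_rfl
  have h2 : Function.support (fun n : Fin N → ℕ => if ∀ i, L ≤ n i then μ (lastH X A z n) else 0)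
      ⊆ Set.range (fun k : Fin N → ℕ => k + fun _ => L) := by
    intro n hn
    rw [Function.mem_support] at hn
    have h : ∀ i, L ≤ n i := by
      by_contra hcon
      rw [if_neg hcon] at hn
      exact hn rfl
    refine ⟨fun i => n i - L, ?_⟩
    funext i
    have := h i
    simp only [Pi.add_apply]
    omega
  rw [← (add_inj L).tsum_eq h2]
  refine ENNReal.tsum_le_tsum fun k => ?_
  rw [if_pos (by intro i; simp)]
  exact measure_mono (lastH_sub_EL A L z k)

open Classical in
lemma lower5 (hd : 0 < d) (hX : IsSRW μ X) (A : Finset (Z d)) (L : ℕ) (z : Z d) :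
    ML μ X A L z ≤ μ (⋃ n, hit X A z n) + BL μ X A L z := by
  rw [← sum_EL hd hX]
  refine (ENNReal.tsum_le_tsum fun k => EL_le A L z k).trans ?_
  rw [ENNReal.tsum_add]
  gcongr
  · refine le_trans ?_ (sum_last_le hX A z)
    exact ENNReal.tsum_comp_le_tsum_of_injective (add_inj L) (fun n => μ (lastH X A z n))
  · unfold BL
    exact ENNReal.tsum_comp_le_tsum_of_injective (add_inj L) (fun n => ∑' m : Fin N → ℕ,
      if far L n m then μ (hit X A z n ∩ hit X A z m) else 0)

end Pool.Agent.V11124.MS
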