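import Mathlib
import Pool.Agent.V11124.MS.Hits

/-! Combinatorial bound for pairs of far away hits. -/

namespace Pool.Agent.V11124.MS

open MeasureTheory ProbabilityTheory Filter
open scoped ENNReal BigOperators Topology

variable {d N : ℕ}

open Classical in
/-- local kernel of far pairs -/
noncomputable def KL (L : ℕ) (J : Finset (Fin N)) (x x' : Z d) : ℝ≥0∞ :=
  ∑' δ : Fin N → ℕ, if ∃ i, L < δ i then p (∑ i ∈ J, δ i) x * p (∑ i ∈ Jᶜ, δ i) x' else 0

/-- coding of pairs -/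
def Phi (nm : (Fin N → ℕ) × (Fin N → ℕ)) : Finset (Fin N) × (Fin N → ℕ) × (Fin N → ℕ) :=
  (Finset.univ.filter (fun i => nm.2 i < nm.1 i), fun i => min (nm.1 i) (nm.2 i),
    fun i => (nm.1 i - nm.2 i) + (nm.2 i - nm.1 i))

lemma Phi_inj : Function.Injective (Phi (N := N)) := by
  rintro ⟨n, m⟩ ⟨n', m'⟩ h
  unfold Phi at h
  simp only [Prod.mk.injEq] at h
  obtain ⟨h1, h2, h3⟩ := h
  have key : ∀ i, n i = n' i ∧ m i = m' i := by
    intro i
    have a1 : (m i < n i) ↔ (m' i < n' i) := by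
      have := congrArg (fun s => i ∈ s) h1
      simpa using this
    have a2 := congrFun h2 i
    have a3 := congrFun h3 i
    omega
  rw [Prod.mk.injEq]
  exact ⟨funext fun i => (key i).1, funext fun i => (key i).2⟩

lemma sum_J (n m : Fin N → ℕ) : ∑ i ∈ (Phi (n, m)).1, (Phi (n, m)).2.2 i = ∑ i, (n i - m i) := by
  unfold Phi
  simp only
  rw [Finset.sum_filter]
  refine Finset.sum_congr rfl fun i _ => ?_
  split_ifs <;> omega

lemma sum_Jc (n m : Fin N → ℕ) : ∑ i ∈ ((Phi (n, m)).1)ᶜ, (Phi (n, m)).2.2 i = ∑ i, (m i - n i) := by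
  unfold Phi
  simp only
  rw [Finset.compl_filter, Finset.sum_filter]
  refine Finset.sum_congr rfl fun i _ => ?_
  split_ifs <;> omega

open Classical in
lemma pair_sum (L : ℕ) (x y : Z d) :
    ∑' n : Fin N → ℕ, ∑' m : Fin N → ℕ, (if far L n m then
      ∑' v : Z d, p (∑ i, min (n i) (m i)) v * (p (∑ i, (n i - m i)) (x - v)
        * p (∑ i, (m i - n i)) (y - v)) else 0)
      ≤ ∑ J : Finset (Fin N), ∑' v : Z d, GN N v * KL L J (x - v) (y - v) := by
  set g : Finset (Fin N) × (Fin N → ℕ) × (Fin N → ℕ) → ℝ≥0∞ := fun t =>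
    ∑' v : Z d, p (∑ i, t.2.1 i) v * (if ∃ i, L < t.2.2 i then
      p (∑ i ∈ t.1, t.2.2 i) (x - v) * p (∑ i ∈ t.1ᶜ, t.2.2 i) (y - v) else 0) with hg
  have h1 : ∀ nm : (Fin N → ℕ) × (Fin N → ℕ), (if far L nm.1 nm.2 then
      ∑' v : Z d, p (∑ i, min (nm.1 i) (nm.2 i)) v * (p (∑ i, (nm.1 i - nm.2 i)) (x - v)
        * p (∑ i, (nm.2 i - nm.1 i)) (y - v)) else 0) = g (Phi nm) := by
    rintro ⟨n, m⟩
    rw [hg]
    simp only
    rw [sum_J, sum_Jc]
    have hiff : far L n m ↔ ∃ i, L < (Phi (n, m)).2.2 i := by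
      unfold far Phi
      constructor
      · rintro ⟨i, hi⟩; exact ⟨i, by simp only; omega⟩
      · rintro ⟨i, hi⟩; exact ⟨i, by simp only at hi; omega⟩
    by_cases hf : far L n m
    · rw [if_pos hf]
      simp only [if_pos (hiff.mp hf)]
      rfl
    · rw [if_neg hf]
      have : ¬ ∃ i, L < (Phi (n, m)).2.2 i := fun h => hf (hiff.mpr h)
      simp only [if_neg this, mul_zero, tsum_zero]
  rw [← ENNReal.tsum_prod (f := fun (n m : Fin N → ℕ) => (if far L n m then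
      ∑' v : Z d, p (∑ i, min (n i) (m i)) v * (p (∑ i, (n i - m i)) (x - v)
        * p (∑ i, (m i - n i)) (y - v)) else 0))]
  simp only [h1]
  refine (ENNReal.tsum_comp_le_tsum_of_injective Phi_inj g).trans (le_of_eq ?_)
  rw [ENNReal.tsum_prod', tsum_fintype]
  refine Finset.sum_congr rfl fun J _ => ?_
  rw [ENNReal.tsum_prod']
  rw [hg]
  simp only
  have h2 : ∀ k : Fin N → ℕ, ∑' δ : Fin N → ℕ, ∑' v : Z d, p (∑ i, k i) v *
      (if ∃ i, L < δ i then p (∑ i ∈ J, δ i) (x - v) * p (∑ i ∈ Jᶜ, δ i) (y - v) else 0)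
      = ∑' v : Z d, p (∑ i, k i) v * KL L J (x - v) (y - v) := by
    intro k
    rw [ENNReal.tsum_comm]
    refine tsum_congr fun v => ?_
    rw [ENNReal.tsum_mul_left]
    rfl
  simp only [h2]
  rw [ENNReal.tsum_comm]
  refine tsum_congr fun v => ?_
  rw [ENNReal.tsum_mul_right, tsum_p]

lemma K_full (J : Finset (Fin N)) (x x' : Z d) :
    ∑' δ : Fin N → ℕ, p (∑ i ∈ J, δ i) x * p (∑ i ∈ Jᶜ, δ i) x'
      = GN J.card x * GN (N - J.card) x' := by
  classical
  set G : (({i // i ∈ J}) → ℕ) × (({i // ¬ i ∈ J}) → ℕ) → ℝ≥0∞ := fun ab =>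
    p (∑ i, ab.1 i) x * p (∑ i, ab.2 i) x' with hG
  have h1 : ∀ δ : Fin N → ℕ, p (∑ i ∈ J, δ i) x * p (∑ i ∈ Jᶜ, δ i) x'
      = G (Equiv.piEquivPiSubtypeProd (fun i => i ∈ J) (fun _ => ℕ) δ) := by
    intro δ
    rw [hG]
    simp only [Equiv.piEquivPiSubtypeProd_apply]
    rw [Finset.sum_subtype J (fun i => Iff.rfl) δ,
      Finset.sum_subtype Jᶜ (p := fun i => ¬ i ∈ J) (fun i => by simp) δ]
  simp only [h1]
  rw [Equiv.tsum_eq, ENNReal.tsum_prod', hG]
  simp only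
  simp only [ENNReal.tsum_mul_left, ENNReal.tsum_mul_right]
  rw [tsum_p_fintype, tsum_p_fintype]
  congr 2
  · rw [Fintype.card_coe]
  · rw [Fintype.card_subtype_compl, Fintype.card_coe, Fintype.card_fin]

lemma KL_le (L : ℕ) (J : Finset (Fin N)) (x x' : Z d) :
    KL L J x x' ≤ GN J.card x * GN (N - J.card) x' := by
  rw [← K_full]
  unfold KL
  refine ENNReal.tsum_le_tsum fun δ => ?_
  split_ifs
  · exact le_rfl
  · exact bot_le

lemma KL_small (J : Finset (Fin N)) (x x' : Z d) (hfin : GN J.card x * GN (N - J.card) x' ≠ ⊤)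
    (ε : ℝ≥0∞) (hε : ε ≠ 0) : ∃ L₀ : ℕ, ∀ L, L₀ ≤ L → KL L J x x' ≤ ε := by
  classical
  rw [← K_full] at hfin
  have ht := ENNReal.tendsto_tsum_compl_atTop_zero hfin
  obtain ⟨s, hs⟩ := ((ENNReal.tendsto_nhds_zero.mp ht) ε (pos_iff_ne_zero.mpr hε)).exists
  refine ⟨∑ δ ∈ s, ∑ i, δ i, fun L hL => ?_⟩
  refine le_trans ?_ hs
  unfold KL
  have hsupp : Function.support (fun δ : Fin N → ℕ => if ∃ i, L < δ i then
      p (∑ i ∈ J, δ i) x * p (∑ i ∈ Jᶜ, δ i) x' else 0)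
      ⊆ Set.range (Subtype.val : {δ : Fin N → ℕ // δ ∉ s} → (Fin N → ℕ)) := by
    intro δ hδ
    rw [Function.mem_support] at hδ
    have h : ∃ i, L < δ i := by
      by_contra hcon
      rw [if_neg hcon] at hδ
      exact hδ rfl
    have hns : δ ∉ s := by
      intro hmem
      obtain ⟨i, hi⟩ := h
      have h1 : ∑ i, δ i ≤ ∑ δ ∈ s, ∑ i, δ i :=
        Finset.single_le_sum (f := fun δ : Fin N → ℕ => ∑ i, δ i) (fun _ _ => Nat.zero_le _) hmem
      have h2 : δ i ≤ ∑ i, δ i := Finset.single_le_sum (f := fun i => δ i) (fun _ _ => Nat.zero_le _)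
        (Finset.mem_univ i)
      omega
    exact ⟨⟨δ, hns⟩, rfl⟩
  rw [← Subtype.val_injective.tsum_eq hsupp]
  refine ENNReal.tsum_le_tsum fun δ => ?_
  split_ifs
  · exact le_rfl
  · exact bot_le

section

variable {Ω : Type*} [mΩ : MeasurableSpace Ω] {μ : Measure Ω} [IsProbabilityMeasure μ]
  {X : Fin N × ℕ → Ω → Z d}

lemma mu_hit2_le (hd : 0 < d) (hX : IsSRW μ X) (A : Finset (Z d)) (z : Z d) (n m : Fin N → ℕ) :
    μ (hit X A z n ∩ hit X A z m) ≤ ∑ a ∈ A, ∑ a' ∈ A,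
      ∑' v : Z d, p (∑ i, min (n i) (m i)) v * (p (∑ i, (n i - m i)) (a - z - v)
        * p (∑ i, (m i - n i)) (a' - z - v)) := by
  have : hit X A z n ∩ hit X A z m ⊆ ⋃ a ∈ A, ⋃ a' ∈ A,
      {ω | V n (fun e => X e ω) = a - z ∧ V m (fun e => X e ω) = a' - z} := by
    rintro ω ⟨h1, h2⟩
    simp only [Set.mem_iUnion]
    refine ⟨z + V n (fun e => X e ω), h1, z + V m (fun e => X e ω), h2, ?_⟩
    rw [Set.mem_ofPred_eq]
    constructor <;> abel
  refine (measure_mono this).trans ((measure_biUnion_finset_le _ _).trans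
    (Finset.sum_le_sum fun a _ => (measure_biUnion_finset_le _ _).trans
      (Finset.sum_le_sum fun a' _ => ?_)))
  exact two_point hd hX n m _ _

lemma BL_le (hd : 0 < d) (hX : IsSRW μ X) (A : Finset (Z d)) (L : ℕ) (z : Z d) :
    BL μ X A L z ≤ ∑ a ∈ A, ∑ a' ∈ A, ∑ J : Finset (Fin N),
      ∑' v : Z d, GN N v * KL L J (a - z - v) (a' - z - v) := by
  classical
  unfold BL
  have h1 : ∀ n m : Fin N → ℕ, (if far L n m then μ (hit X A z n ∩ hit X A z m) else 0)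
      ≤ ∑ a ∈ A, ∑ a' ∈ A, (if far L n m then
      ∑' v : Z d, p (∑ i, min (n i) (m i)) v * (p (∑ i, (n i - m i)) (a - z - v)
        * p (∑ i, (m i - n i)) (a' - z - v)) else 0) := by
    intro n m
    by_cases h : far L n m
    · simp only [if_pos h]
      exact mu_hit2_le hd hX A z n m
    · simp only [if_neg h]
      exact bot_le
  refine (ENNReal.tsum_le_tsum fun n => ENNReal.tsum_le_tsum fun m => h1 n m).trans ?_
  have h2 : ∑' n : Fin N → ℕ, ∑' m : Fin N → ℕ, ∑ a ∈ A, ∑ a' ∈ A, (if far L n m then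
      ∑' v : Z d, p (∑ i, min (n i) (m i)) v * (p (∑ i, (n i - m i)) (a - z - v)
        * p (∑ i, (m i - n i)) (a' - z - v)) else 0)
      = ∑ a ∈ A, ∑ a' ∈ A, ∑' n : Fin N → ℕ, ∑' m : Fin N → ℕ, (if far L n m then
      ∑' v : Z d, p (∑ i, min (n i) (m i)) v * (p (∑ i, (n i - m i)) (a - z - v)
        * p (∑ i, (m i - n i)) (a' - z - v)) else 0) := by
    simp only [Summable.tsum_finsetSum (fun _ _ => ENNReal.summable)]
  rw [h2]
  refine Finset.sum_le_sum fun a _ => Finset.sum_le_sum fun a' _ => ?_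
  exact pair_sum L _ _

end

end Pool.Agent.V11124.MS
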