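import Mathlib

/-! Fourth order Taylor bound for `(1+t)^(-m/2)`. -/

namespace Pool.Agent.V11124.MS

/-- cubic Taylor polynomial of `(1+t)^(-m/2)` -/
noncomputable def T (m : ℕ) (t : ℝ) : ℝ :=
  1 - (m / 2) * t + (m * (m + 2) / 8) * t ^ 2 - (m * (m + 2) * (m + 4) / 48) * t ^ 3

lemma taylor_one : ∀ t : ℝ, |t| ≤ 1 / 2 → |(Real.sqrt (1 + t))⁻¹ - T 1 t| ≤ 4 * t ^ 4 := by
  intro t ht
  rw [abs_le] at ht
  have h1 : 0 < 1 + t := by linarith [ht.1]
  have hs := Real.sqrt_pos.mpr h1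
  set y := (Real.sqrt (1 + t))⁻¹ with hy
  have hy0 : 0 < y := inv_pos.mpr hs
  have hy2 : y ^ 2 * (1 + t) = 1 := by
    rw [hy, inv_pow, Real.sq_sqrt h1.le]
    field_simp
  have hT : T 1 t = 1 - t / 2 + 3 / 8 * t ^ 2 - 5 / 16 * t ^ 3 := by unfold T; push_cast; ring
  set q := T 1 t with hq
  -- q^2 (1+t) = 1 + t^4 * r(t)
  have e : q ^ 2 * (1 + t) - 1 = t ^ 4 * (-(35/64) + (7/32) * t - (35/256) * t^2 + (25/256) * t ^ 3) := by
    rw [hT]; ring
  have hqpos : 1 / 2 ≤ q := by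
    rw [hT]
    nlinarith [sq_nonneg t, sq_nonneg (t - 1/2), sq_nonneg (t+1/2), ht.1, ht.2, mul_nonneg (sq_nonneg t) (by linarith [ht.2] : (0:ℝ) ≤ 1/2 - t)]
  -- (y - q)(y+q)(1+t) = -(t^4 r)
  have e2 : (y - q) * ((y + q) * (1 + t)) = -(t ^ 4 * (-(35/64) + (7/32) * t - (35/256) * t^2 + (25/256) * t ^ 3)) := by
    rw [← e]
    linear_combination hy2
  have hr : |(-(35/64) + (7/32) * t - (35/256) * t^2 + (25/256) * t ^ 3)| ≤ 1 := by
    rw [abs_le]
    constructor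
    · nlinarith [sq_nonneg t, ht.1, ht.2, mul_nonneg (sq_nonneg t) (by linarith [ht.1] : (0:ℝ) ≤ 1/2 + t), mul_nonneg (by linarith [ht.1] : (0:ℝ) ≤ 1/2 + t) (by linarith [ht.2] : (0:ℝ) ≤ 1/2 - t)]
    · nlinarith [sq_nonneg t, ht.1, ht.2, mul_nonneg (sq_nonneg t) (by linarith [ht.2] : (0:ℝ) ≤ 1/2 - t)]
  have hb : 1 / 4 ≤ (y + q) * (1 + t) := by
    have : (1:ℝ)/2 ≤ y + q := by linarith
    nlinarith [ht.1]
  have h3 : |y - q| * (1 / 4) ≤ t ^ 4 := by
    calc |y - q| * (1 / 4) ≤ |y - q| * ((y + q) * (1 + t)) := by gcongr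
      _ = |(y - q) * ((y + q) * (1 + t))| := by
          rw [abs_mul, abs_of_pos (by linarith : 0 < (y + q) * (1 + t))]
      _ = t ^ 4 * |(-(35/64) + (7/32) * t - (35/256) * t^2 + (25/256) * t ^ 3)| := by
          rw [e2, abs_neg, abs_mul, abs_of_nonneg (by positivity : (0:ℝ) ≤ t ^ 4)]
      _ ≤ t ^ 4 * 1 := by gcongr
      _ = t ^ 4 := by ring
  linarith

lemma taylor (m : ℕ) : ∃ C : ℝ, 0 ≤ C ∧ ∀ t : ℝ, |t| ≤ 1 / 2 →
    |((Real.sqrt (1 + t))⁻¹) ^ m - T m t| ≤ C * t ^ 4 := by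
  induction m with
  | zero => exact ⟨0, le_rfl, fun t _ => by simp [T]⟩
  | succ m ih =>
    obtain ⟨C, hC, h⟩ := ih
    set a : ℝ := 3/8 * (m*(m+2)/8) + (1/2) * (m*(m+2)*(m+4)/48) + (5/16)*(m/2) with ha
    set b : ℝ := -(5/16 * (m*(m+2)/8) + 3/8 * (m*(m+2)*(m+4)/48)) with hb
    set c : ℝ := 5/16 * (m*(m+2)*(m+4)/48) with hc
    set B : ℝ := 1 + m + m * (m+2) + m * (m+2) * (m+4) with hB
    have hB0 : 0 ≤ B := by positivity
    refine ⟨2 * C + 4 * B + (|a| + |b| + |c|), by positivity, ?_⟩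
    intro t ht
    have h1 := taylor_one t ht
    have hm := h t ht
    have ht' := abs_le.mp ht
    have h10 : 0 < 1 + t := by linarith [ht'.1]
    have hs := Real.sqrt_pos.mpr h10
    set y := (Real.sqrt (1 + t))⁻¹ with hy
    have hy0 : 0 < y := inv_pos.mpr hs
    have hy2 : y ≤ 2 := by
      rw [hy]
      have : (1/2 : ℝ) ≤ Real.sqrt (1 + t) := by
        apply Real.le_sqrt_of_sq_le
        linarith [ht'.1]
      calc (Real.sqrt (1+t))⁻¹ ≤ (1/2 : ℝ)⁻¹ := by gcongr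
        _ = 2 := by norm_num
    have hid : T 1 t * T m t - T (m+1) t = t ^ 4 * (a + b * t + c * t ^ 2) := by
      unfold T
      rw [ha, hb, hc]
      push_cast
      ring
    have hTm : |T m t| ≤ B := by
      unfold T
      have t1 : |t| ≤ 1 := by linarith
      have t2 : |t ^ 2| ≤ 1 := by rw [abs_pow]; exact pow_le_one₀ (abs_nonneg _) t1
      have t3 : |t ^ 3| ≤ 1 := by rw [abs_pow]; exact pow_le_one₀ (abs_nonneg _) t1
      rw [abs_le] at t1 t2 t3 ⊢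
      have p1 : (0:ℝ) ≤ m / 2 := by positivity
      have p2 : (0:ℝ) ≤ m * (m + 2) / 8 := by positivity
      have p3 : (0:ℝ) ≤ m * (m + 2) * (m + 4) / 48 := by positivity
      constructor
      · have := mul_le_mul_of_nonneg_left t1.2 p1
        have := mul_le_mul_of_nonneg_left t2.1 p2
        have := mul_le_mul_of_nonneg_left t3.2 p3
        rw [hB]
        nlinarith
      · have := mul_le_mul_of_nonneg_left t1.1 p1
        have := mul_le_mul_of_nonneg_left t2.2 p2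
        have := mul_le_mul_of_nonneg_left t3.1 p3
        rw [hB]
        nlinarith
    have habc : |a + b * t + c * t ^ 2| ≤ |a| + |b| + |c| := by
      have t1 : |t| ≤ 1 := by linarith
      have t2 : |t ^ 2| ≤ 1 := by rw [abs_pow]; exact pow_le_one₀ (abs_nonneg _) t1
      calc |a + b * t + c * t ^ 2| ≤ |a| + |b * t| + |c * t ^ 2| := abs_add_three _ _ _
        _ = |a| + |b| * |t| + |c| * |t ^ 2| := by rw [abs_mul, abs_mul]
        _ ≤ |a| + |b| * 1 + |c| * 1 := by gcongr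
        _ = _ := by ring
    have e : y ^ (m+1) - T (m+1) t = y * (y ^ m - T m t) + (y - T 1 t) * T m t
        + (T 1 t * T m t - T (m+1) t) := by ring
    have ht4 : (0:ℝ) ≤ t ^ 4 := by positivity
    calc |y ^ (m+1) - T (m+1) t|
        ≤ |y * (y ^ m - T m t)| + |(y - T 1 t) * T m t| + |T 1 t * T m t - T (m+1) t| := by
          rw [e]; exact abs_add_three _ _ _
      _ = y * |y ^ m - T m t| + |y - T 1 t| * |T m t| + t ^ 4 * |a + b * t + c * t ^ 2| := by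
          rw [hid, abs_mul, abs_mul, abs_mul, abs_of_pos hy0, abs_of_nonneg ht4]
      _ ≤ 2 * (C * t ^ 4) + (4 * t ^ 4) * B + t ^ 4 * (|a| + |b| + |c|) := by gcongr
      _ = _ := by ring

end Pool.Agent.V11124.MS
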