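import Mathlib
import Pool.Agent.V11124.MS.Base
import Pool.Agent.V11124.MS.Taylor

/-! Discrete Laplacian of powers of `1/√(|x|²+c)`. -/

namespace Pool.Agent.V11124.MS

open scoped ENNReal BigOperators
open Filter Topology

variable {d : ℕ}

/-- squared Euclidean norm -/
def nsq (x : Z d) : ℝ := ∑ i, (x i : ℝ) ^ 2

lemma nsq_nonneg (x : Z d) : 0 ≤ nsq x := Finset.sum_nonneg fun _ _ => sq_nonneg _

/-- sign of a step -/
def sg (e : Fin d × Bool) : ℝ := if e.2 then 1 else -1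

lemma nsq_add_st (x : Z d) (e : Fin d × Bool) :
    nsq (x + st e) = nsq x + (1 + 2 * sg e * x e.1) := by
  unfold nsq
  have h : ∀ i, (((x + st e) i : ℤ) : ℝ) ^ 2
      = (x i : ℝ) ^ 2 + (if i = e.1 then (1 + 2 * sg e * x e.1) else 0) := by
    intro i
    unfold st sg
    by_cases hi : i = e.1
    · subst hi
      rcases hb : e.2 <;> simp <;> ring
    · simp [hi]
  rw [Finset.sum_congr rfl fun i _ => h i, Finset.sum_add_distrib]
  simp

/-- increments -/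
def inc (x : Z d) (e : Fin d × Bool) : ℝ := 1 + 2 * sg e * x e.1

lemma sum_E (F : ℝ → ℝ → ℝ) (x : Z d) :
    ∑ e : Fin d × Bool, F (sg e) (x e.1) = ∑ i, (F 1 (x i) + F (-1) (x i)) := by
  rw [Fintype.sum_prod_type]
  refine Finset.sum_congr rfl fun i _ => ?_
  simp [sg]

lemma sum_inc (x : Z d) : ∑ e : Fin d × Bool, inc x e = 2 * d := by
  unfold inc
  rw [sum_E (fun a b => 1 + 2 * a * b) x]
  have : ∀ i, (1 + 2 * 1 * (x i : ℝ) + (1 + 2 * -1 * (x i : ℝ))) = 2 := fun i => by ring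
  simp only [this]
  simp; ring

lemma sum_inc2 (x : Z d) : ∑ e : Fin d × Bool, inc x e ^ 2 = 2 * d + 8 * nsq x := by
  unfold inc
  rw [sum_E (fun a b => (1 + 2 * a * b) ^ 2) x]
  have : ∀ i, ((1 + 2 * 1 * (x i : ℝ)) ^ 2 + (1 + 2 * -1 * (x i : ℝ)) ^ 2) = 2 + 8 * (x i : ℝ) ^ 2 :=
    fun i => by ring
  simp only [this, Finset.sum_add_distrib, ← Finset.mul_sum]
  simp [nsq]; ring

lemma sum_inc3 (x : Z d) : ∑ e : Fin d × Bool, inc x e ^ 3 = 2 * d + 24 * nsq x := by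
  unfold inc
  rw [sum_E (fun a b => (1 + 2 * a * b) ^ 3) x]
  have : ∀ i, ((1 + 2 * 1 * (x i : ℝ)) ^ 3 + (1 + 2 * -1 * (x i : ℝ)) ^ 3) = 2 + 24 * (x i : ℝ) ^ 2 :=
    fun i => by ring
  simp only [this, Finset.sum_add_distrib, ← Finset.mul_sum]
  simp [nsq]; ring

lemma sq_le_nsq (x : Z d) (i : Fin d) : (x i : ℝ) ^ 2 ≤ nsq x :=
  Finset.single_le_sum (f := fun i => (x i : ℝ) ^ 2) (fun _ _ => sq_nonneg _) (Finset.mem_univ i)

lemma inc_sq_le (x : Z d) (e : Fin d × Bool) : inc x e ^ 2 ≤ 2 + 8 * nsq x := by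
  have h := sq_le_nsq x e.1
  have hs : sg e ^ 2 = 1 := by unfold sg; split_ifs <;> norm_num
  unfold inc
  nlinarith [sq_nonneg (1 - 2 * sg e * x e.1), mul_pow (sg e) (x e.1 : ℝ) 2]

/-- Core estimate: with `ρ` such that all increments are at most `ρ/2`, the sum over the steps of
`(1 + inc/ρ)^(-m/2)` is given by the cubic Taylor polynomial up to `O((1+|x|²)²/ρ⁴)`. -/
lemma core (m : ℕ) : ∃ C : ℝ, 0 ≤ C ∧ ∀ (x : Z d) (ρ : ℝ), 0 < ρ →
    2 + 8 * nsq x ≤ ρ ^ 2 / 4 →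
    |∑ e : Fin d × Bool, ((Real.sqrt (1 + inc x e / ρ))⁻¹) ^ m
      - (2 * d - (m / 2) * (2 * d / ρ) + (m * (m + 2) / 8) * ((2 * d + 8 * nsq x) / ρ ^ 2)
        - (m * (m + 2) * (m + 4) / 48) * ((2 * d + 24 * nsq x) / ρ ^ 3))|
      ≤ C * ((2 + 8 * nsq x) ^ 2 / ρ ^ 4) := by
  obtain ⟨C, hC, h⟩ := taylor m
  refine ⟨2 * d * C, by positivity, ?_⟩
  intro x ρ hρ hx
  have hT : ∑ e : Fin d × Bool, T m (inc x e / ρ) = (2 * d - (m / 2) * (2 * d / ρ)
      + (m * (m + 2) / 8) * ((2 * d + 8 * nsq x) / ρ ^ 2)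
        - (m * (m + 2) * (m + 4) / 48) * ((2 * d + 24 * nsq x) / ρ ^ 3)) := by
    unfold T
    simp only [Finset.sum_sub_distrib, Finset.sum_add_distrib, ← Finset.mul_sum, div_pow,
      ← Finset.sum_div, sum_inc, sum_inc2, sum_inc3]
    simp; ring
  rw [← hT, ← Finset.sum_sub_distrib]
  have hne := nsq_nonneg x
  calc |∑ e : Fin d × Bool, (((Real.sqrt (1 + inc x e / ρ))⁻¹) ^ m - T m (inc x e / ρ))|
      ≤ ∑ e : Fin d × Bool, |((Real.sqrt (1 + inc x e / ρ))⁻¹) ^ m - T m (inc x e / ρ)| :=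
        Finset.abs_sum_le_sum_abs _ _
    _ ≤ ∑ e : Fin d × Bool, C * ((2 + 8 * nsq x) ^ 2 / ρ ^ 4) := by
        refine Finset.sum_le_sum fun e _ => ?_
        have h1 := inc_sq_le x e
        have h2 : |inc x e / ρ| ≤ 1 / 2 := by
          rw [abs_div, abs_of_pos hρ, div_le_iff₀ hρ]
          apply abs_le_of_sq_le_sq _ (by positivity)
          nlinarith
        refine (h _ h2).trans ?_
        have h3 : (inc x e / ρ) ^ 4 ≤ (2 + 8 * nsq x) ^ 2 / ρ ^ 4 := by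
          rw [div_pow]
          have : inc x e ^ 4 = (inc x e ^ 2) ^ 2 := by ring
          rw [this]
          gcongr
        exact mul_le_mul_of_nonneg_left h3 hC
    _ = _ := by simp; ring

end Pool.Agent.V11124.MS
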