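import Mathlib
import Pool.Agent.V11124.MS.Lap

/-! Lyapunov functions for simple random walk. -/

namespace Pool.Agent.V11124.MS

open scoped ENNReal BigOperators
open Filter Topology

variable {d : ℕ}

lemma core_ratio (m : ℕ) (x : Z d) (ρ : ℝ) (hρ : 0 < ρ) (e : Fin d × Bool) (h : 0 < ρ + inc x e) :
    ((Real.sqrt (ρ + inc x e))⁻¹) ^ m
      = ((Real.sqrt ρ)⁻¹) ^ m * ((Real.sqrt (1 + inc x e / ρ))⁻¹) ^ m := by
  have e1 : ρ + inc x e = ρ * (1 + inc x e / ρ) := by field_simp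
  rw [e1, Real.sqrt_mul hρ.le, mul_inv, mul_pow]

lemma inc_small (x : Z d) (ρ : ℝ) (hρ : 0 < ρ) (hx : 2 + 8 * nsq x ≤ ρ ^ 2 / 4)
    (e : Fin d × Bool) : |inc x e| ≤ ρ / 2 := by
  have h1 := inc_sq_le x e
  apply abs_le_of_sq_le_sq _ (by positivity)
  nlinarith

/-- average over the steps in terms of the normalised sum -/
lemma avg_eq (m : ℕ) (x : Z d) (ρ : ℝ) (hρ : 0 < ρ) (hx : 2 + 8 * nsq x ≤ ρ ^ 2 / 4) :
    ∑ e : Fin d × Bool, ((Real.sqrt (ρ + inc x e))⁻¹) ^ m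
      = ((Real.sqrt ρ)⁻¹) ^ m * ∑ e : Fin d × Bool, ((Real.sqrt (1 + inc x e / ρ))⁻¹) ^ m := by
  rw [Finset.mul_sum]
  refine Finset.sum_congr rfl fun e _ => ?_
  apply core_ratio m x ρ hρ e
  have := (abs_le.mp (inc_small x ρ hρ hx e)).1
  linarith

lemma upper_real (m : ℕ) (hm : 1 ≤ m) : ∃ c₀ : ℝ, 32 ≤ c₀ ∧ ∀ c : ℝ, c₀ ≤ c → ∀ x : Z d,
    (m + 2 = d → ∑ e : Fin d × Bool, ((Real.sqrt (nsq x + c + inc x e))⁻¹) ^ m
      ≤ ((Real.sqrt (nsq x + c))⁻¹) ^ m * (2 * d - 2 * d / (nsq x + c) ^ 2)) ∧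
    (m + 2 < d → ∑ e : Fin d × Bool, ((Real.sqrt (nsq x + c + inc x e))⁻¹) ^ m
      ≤ ((Real.sqrt (nsq x + c))⁻¹) ^ m * (2 * d - 1 / (nsq x + c))) := by
  obtain ⟨C, hC, h⟩ := core (d := d) m
  refine ⟨32 + d + 64 * C + 2 * d, by nlinarith [(Nat.cast_nonneg d : (0:ℝ) ≤ d)], ?_⟩
  intro c hc x
  have hd0 : (0:ℝ) ≤ d := Nat.cast_nonneg d
  have hm1 : (1:ℝ) ≤ m := by exact_mod_cast hm
  have hn := nsq_nonneg x
  set ρ := nsq x + c with hρdef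
  have hc32 : 32 ≤ c := by linarith
  have hρ : 0 < ρ := by linarith
  have hρ1 : 1 ≤ ρ := by linarith
  have hx : 2 + 8 * nsq x ≤ ρ ^ 2 / 4 := by
    rw [hρdef]; nlinarith [sq_nonneg (nsq x)]
  have hcore := (abs_le.mp (h x ρ hρ hx)).2
  rw [avg_eq m x ρ hρ hx]
  have hf : 0 ≤ ((Real.sqrt ρ)⁻¹) ^ m := by positivity
  set S := ∑ e : Fin d × Bool, ((Real.sqrt (1 + inc x e / ρ))⁻¹) ^ m
  have h4 : (2 + 8 * nsq x) ^ 2 / ρ ^ 4 ≤ 64 / ρ ^ 2 := by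
    rw [div_le_div_iff₀ (by positivity) (by positivity)]
    have : (2 + 8 * nsq x) ^ 2 ≤ (8 * ρ) ^ 2 := by
      apply pow_le_pow_left₀ (by positivity)
      rw [hρdef]; linarith
    calc (2 + 8 * nsq x) ^ 2 * ρ ^ 2 ≤ (8 * ρ) ^ 2 * ρ ^ 2 := by gcongr
      _ = 64 * ρ ^ 4 := by ring
  have h3 : 0 ≤ (m * (m + 2) * (m + 4) / 48 : ℝ) * ((2 * d + 24 * nsq x) / ρ ^ 3) := by positivity
  have hS : S ≤ 2 * d - m * (d - m - 2) / ρ + (m * (m + 2) * (d - 4 * c) / 4 + 64 * C) / ρ ^ 2 := by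
    have e1 : (2 * d - (m / 2) * (2 * d / ρ) + (m * (m + 2) / 8) * ((2 * d + 8 * nsq x) / ρ ^ 2) : ℝ)
        = 2 * d - m * (d - m - 2) / ρ + (m * (m + 2) * (d - 4 * c) / 4) / ρ ^ 2 := by
      have : nsq x = ρ - c := by rw [hρdef]; ring
      rw [this]; field_simp; ring
    have e2 : C * ((2 + 8 * nsq x) ^ 2 / ρ ^ 4) ≤ 64 * C / ρ ^ 2 := by
      calc C * ((2 + 8 * nsq x) ^ 2 / ρ ^ 4) ≤ C * (64 / ρ ^ 2) := by gcongr
        _ = _ := by ring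
    rw [add_div (m * (m + 2) * (d - 4 * c) / 4 : ℝ)]
    linarith
  have hneg : (m * (m + 2) * (d - 4 * c) / 4 + 64 * C : ℝ) ≤ - (2 * d) := by
    have : (3:ℝ) ≤ m * (m + 2) := by nlinarith
    have h4c : 0 ≤ 4 * c - d := by linarith
    nlinarith [mul_le_mul_of_nonneg_right this h4c]
  constructor
  · intro hmd
    have hmd' : (m : ℝ) + 2 = d := by exact_mod_cast hmd
    apply mul_le_mul_of_nonneg_left _ hf
    have e1 : (m * (d - m - 2) / ρ : ℝ) = 0 := by rw [← hmd']; ring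
    have e2 : (m * (m + 2) * (d - 4 * c) / 4 + 64 * C : ℝ) / ρ ^ 2 ≤ - (2 * d) / ρ ^ 2 := by gcongr
    have e3 : (-(2 * d) / ρ ^ 2 : ℝ) = - (2 * d / ρ ^ 2) := by ring
    linarith
  · intro hmd
    have hmd' : (m : ℝ) + 3 ≤ d := by exact_mod_cast hmd
    apply mul_le_mul_of_nonneg_left _ hf
    have e1 : (1 / ρ : ℝ) ≤ m * (d - m - 2) / ρ := by
      gcongr
      nlinarith
    have e2 : (m * (m + 2) * (d - 4 * c) / 4 + 64 * C : ℝ) / ρ ^ 2 ≤ 0 := by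
      apply div_nonpos_of_nonpos_of_nonneg _ (by positivity)
      linarith
    linarith

lemma lower_real (m : ℕ) : ∃ K : ℝ, 0 ≤ K ∧ ∀ c : ℝ, 32 ≤ c → ∀ x : Z d,
    ((Real.sqrt (nsq x + c))⁻¹) ^ m * (2 * d - K / (nsq x + c))
      ≤ ∑ e : Fin d × Bool, ((Real.sqrt (nsq x + c + inc x e))⁻¹) ^ m := by
  obtain ⟨C, hC, h⟩ := core (d := d) m
  refine ⟨m * d + (m * (m + 2) * (m + 4) / 48) * (2 * d + 24) + 64 * C, by positivity, ?_⟩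
  intro c hc x
  have hd0 : (0:ℝ) ≤ d := Nat.cast_nonneg d
  have hn := nsq_nonneg x
  set ρ := nsq x + c with hρdef
  have hρ : 0 < ρ := by linarith
  have hρ1 : 1 ≤ ρ := by linarith
  have hx : 2 + 8 * nsq x ≤ ρ ^ 2 / 4 := by
    rw [hρdef]; nlinarith [sq_nonneg (nsq x)]
  have hcore := (abs_le.mp (h x ρ hρ hx)).1
  rw [avg_eq m x ρ hρ hx]
  have hf : 0 ≤ ((Real.sqrt ρ)⁻¹) ^ m := by positivity
  apply mul_le_mul_of_nonneg_left _ hf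
  set S := ∑ e : Fin d × Bool, ((Real.sqrt (1 + inc x e / ρ))⁻¹) ^ m
  have h4 : (2 + 8 * nsq x) ^ 2 / ρ ^ 4 ≤ 64 / ρ := by
    rw [div_le_div_iff₀ (by positivity) (by positivity)]
    have : (2 + 8 * nsq x) ^ 2 ≤ (8 * ρ) ^ 2 := by
      apply pow_le_pow_left₀ (by positivity)
      rw [hρdef]; linarith
    calc (2 + 8 * nsq x) ^ 2 * ρ ≤ (8 * ρ) ^ 2 * ρ := by gcongr
      _ = 64 * ρ ^ 3 * 1 := by ring
      _ ≤ 64 * ρ ^ 3 * ρ := by gcongr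
      _ = 64 * ρ ^ 4 := by ring
  have h3 : (2 * d + 24 * nsq x) / ρ ^ 3 ≤ (2 * d + 24) / ρ := by
    rw [div_le_div_iff₀ (by positivity) (by positivity)]
    have hnρ : nsq x ≤ ρ := by rw [hρdef]; linarith
    have : 2 * d + 24 * nsq x ≤ (2 * d + 24) * ρ := by nlinarith
    calc (2 * d + 24 * nsq x) * ρ ≤ ((2 * d + 24) * ρ) * ρ := by gcongr
      _ = (2 * d + 24) * ρ ^ 2 * 1 := by ring
      _ ≤ (2 * d + 24) * ρ ^ 2 * ρ := by gcongr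
      _ = _ := by ring
  have h2 : 0 ≤ (m * (m + 2) / 8 : ℝ) * ((2 * d + 8 * nsq x) / ρ ^ 2) := by positivity
  have e3 : (m * (m + 2) * (m + 4) / 48 : ℝ) * ((2 * d + 24 * nsq x) / ρ ^ 3)
      ≤ (m * (m + 2) * (m + 4) / 48 : ℝ) * ((2 * d + 24) / ρ) := by gcongr
  have e4 : C * ((2 + 8 * nsq x) ^ 2 / ρ ^ 4) ≤ C * (64 / ρ) := by gcongr
  have e5 : (m * d + (m * (m + 2) * (m + 4) / 48) * (2 * d + 24) + 64 * C) / ρ
      = (m / 2) * (2 * d / ρ) + (m * (m + 2) * (m + 4) / 48 : ℝ) * ((2 * d + 24) / ρ)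
        + C * (64 / ρ) := by field_simp
  rw [e5]
  linarith

lemma sub_real (m : ℕ) (hm : 1 ≤ m) (hmd : m + 2 = d) : ∃ b : ℝ, 0 ≤ b ∧ ∃ R : ℝ, b + 1 ≤ R ∧
    ∀ x : Z d, R ≤ nsq x →
    ((Real.sqrt (nsq x - b))⁻¹) ^ m * (2 * d)
      ≤ ∑ e : Fin d × Bool, ((Real.sqrt (nsq x - b + inc x e))⁻¹) ^ m := by
  obtain ⟨C, hC, h⟩ := core (d := d) m
  set b : ℝ := (m * (m + 2) * (m + 4) / 48) * (2 * d + 48) + 324 * C with hb
  have hb0 : 0 ≤ b := by positivity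
  refine ⟨b, hb0, 2 * b + 100, by linarith, ?_⟩
  intro x hR
  have hd0 : (0:ℝ) ≤ d := Nat.cast_nonneg d
  have hm1 : (1:ℝ) ≤ m := by exact_mod_cast hm
  have hmd' : (m : ℝ) + 2 = d := by exact_mod_cast hmd
  have hn := nsq_nonneg x
  set ρ := nsq x - b with hρdef
  have hρ : 100 ≤ ρ := by rw [hρdef]; linarith
  have hρ0 : 0 < ρ := by linarith
  have hnρ : nsq x ≤ 2 * ρ := by rw [hρdef]; linarith
  have hx : 2 + 8 * nsq x ≤ ρ ^ 2 / 4 := by nlinarith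
  have hcore := (abs_le.mp (h x ρ hρ0 hx)).1
  rw [avg_eq m x ρ hρ0 hx]
  have hf : 0 ≤ ((Real.sqrt ρ)⁻¹) ^ m := by positivity
  apply mul_le_mul_of_nonneg_left _ hf
  set S := ∑ e : Fin d × Bool, ((Real.sqrt (1 + inc x e / ρ))⁻¹) ^ m
  have h4 : (2 + 8 * nsq x) ^ 2 / ρ ^ 4 ≤ 324 / ρ ^ 2 := by
    rw [div_le_div_iff₀ (by positivity) (by positivity)]
    have : (2 + 8 * nsq x) ^ 2 ≤ (18 * ρ) ^ 2 := by
      apply pow_le_pow_left₀ (by positivity)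
      linarith
    calc (2 + 8 * nsq x) ^ 2 * ρ ^ 2 ≤ (18 * ρ) ^ 2 * ρ ^ 2 := by gcongr
      _ = 324 * ρ ^ 4 := by ring
  have h3 : (2 * d + 24 * nsq x) / ρ ^ 3 ≤ (2 * d + 48) / ρ ^ 2 := by
    rw [div_le_div_iff₀ (by positivity) (by positivity)]
    have : 2 * d + 24 * nsq x ≤ (2 * d + 48) * ρ := by nlinarith
    calc (2 * d + 24 * nsq x) * ρ ^ 2 ≤ ((2 * d + 48) * ρ) * ρ ^ 2 := by gcongr
      _ = _ := by ring
  have e3 : (m * (m + 2) * (m + 4) / 48 : ℝ) * ((2 * d + 24 * nsq x) / ρ ^ 3)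
      ≤ (m * (m + 2) * (m + 4) / 48 : ℝ) * ((2 * d + 48) / ρ ^ 2) := by gcongr
  have e4 : C * ((2 + 8 * nsq x) ^ 2 / ρ ^ 4) ≤ C * (324 / ρ ^ 2) := by gcongr
  have e5 : (m * (m + 2) * (m + 4) / 48 : ℝ) * ((2 * d + 48) / ρ ^ 2) + C * (324 / ρ ^ 2)
      = b / ρ ^ 2 := by rw [hb]; ring
  have e6 : (2 * d - (m / 2) * (2 * d / ρ) + (m * (m + 2) / 8) * ((2 * d + 8 * nsq x) / ρ ^ 2) : ℝ)
      = 2 * d + (m * (m + 2) * (2 * d + 8 * b) / 8) / ρ ^ 2 := by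
    have : nsq x = ρ + b := by rw [hρdef]; ring
    rw [this, ← hmd']; field_simp; ring
  have e7 : b / ρ ^ 2 ≤ (m * (m + 2) * (2 * d + 8 * b) / 8) / ρ ^ 2 := by
    gcongr
    have : (3:ℝ) ≤ m * (m + 2) := by nlinarith
    have h4c : 0 ≤ 2 * (d:ℝ) + 8 * b := by positivity
    nlinarith [mul_le_mul_of_nonneg_right this h4c]
  linarith

end Pool.Agent.V11124.MS
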