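import Mathlib
import Pool.Agent.V11124.MS.Lyap

/-! Two-sided bounds for the iterated Green functions. -/

namespace Pool.Agent.V11124.MS

open scoped ENNReal BigOperators
open Filter Topology

variable {d : ℕ}

noncomputable def yv (c : ℝ) (x : Z d) : ℝ := (Real.sqrt (nsq x + c))⁻¹
noncomputable def Y (c : ℝ) (m : ℕ) (x : Z d) : ℝ≥0∞ := ENNReal.ofReal (yv c x ^ m)

lemma P_ofReal (hd : 0 < d) (f : Z d → ℝ) (hf : ∀ x, 0 ≤ f x) (x : Z d) :
    P (fun x => ENNReal.ofReal (f x)) x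
      = ENNReal.ofReal ((2 * d : ℝ)⁻¹ * ∑ e : Fin d × Bool, f (x + st e)) := by
  have hd' : (0:ℝ) < 2 * d := by positivity
  unfold P
  rw [ENNReal.ofReal_mul (by positivity), ENNReal.ofReal_sum_of_nonneg (fun e _ => hf _),
    ENNReal.ofReal_inv_of_pos hd']
  congr 2
  rw [ENNReal.ofReal_mul (by norm_num)]
  simp

lemma yv_pos {c : ℝ} (hc : 32 ≤ c) (x : Z d) : 0 < yv c x := by
  unfold yv
  have := nsq_nonneg x
  have : 0 < nsq x + c := by linarith
  positivity

lemma yv_le_one {c : ℝ} (hc : 32 ≤ c) (x : Z d) : yv c x ≤ 1 := by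
  unfold yv
  have := nsq_nonneg x
  apply inv_le_one_of_one_le₀
  rw [Real.one_le_sqrt]
  linarith

lemma yv_sq {c : ℝ} (hc : 32 ≤ c) (x : Z d) : yv c x ^ 2 = 1 / (nsq x + c) := by
  unfold yv
  have := nsq_nonneg x
  rw [inv_pow, Real.sq_sqrt (by linarith), one_div]

lemma Y_ne_top (c : ℝ) (m : ℕ) (x : Z d) : Y c m x ≠ ⊤ := ENNReal.ofReal_ne_top

lemma Y_ne_zero {c : ℝ} (hc : 32 ≤ c) (m : ℕ) (x : Z d) : Y c m x ≠ 0 := by
  unfold Y
  rw [Ne, ENNReal.ofReal_eq_zero, not_le]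
  exact pow_pos (yv_pos hc x) _

lemma Y_add {c : ℝ} (hc : 32 ≤ c) (m k : ℕ) (x : Z d) : Y c (m + k) x = Y c m x * Y c k x := by
  unfold Y
  rw [pow_add, ENNReal.ofReal_mul (pow_nonneg (yv_pos hc x).le _)]

lemma Y_le_one {c : ℝ} (hc : 32 ≤ c) (m : ℕ) (x : Z d) : Y c m x ≤ 1 := by
  unfold Y
  rw [← ENNReal.ofReal_one]
  exact ENNReal.ofReal_le_ofReal (pow_le_one₀ (yv_pos hc x).le (yv_le_one hc x))

lemma sum_yv (c : ℝ) (m : ℕ) (x : Z d) : ∑ e : Fin d × Bool, yv c (x + st e) ^ m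
    = ∑ e : Fin d × Bool, ((Real.sqrt (nsq x + c + inc x e))⁻¹) ^ m := by
  refine Finset.sum_congr rfl fun e _ => ?_
  unfold yv
  rw [nsq_add_st]
  congr 3
  unfold inc; ring

/-- the constant `c` -/
lemma exists_c (d : ℕ) : ∃ c : ℝ, 32 ≤ c ∧ ∀ m, 1 ≤ m → m ≤ d → ∀ x : Z d,
    (m + 2 = d → ∑ e : Fin d × Bool, ((Real.sqrt (nsq x + c + inc x e))⁻¹) ^ m
      ≤ ((Real.sqrt (nsq x + c))⁻¹) ^ m * (2 * d - 2 * d / (nsq x + c) ^ 2)) ∧
    (m + 2 < d → ∑ e : Fin d × Bool, ((Real.sqrt (nsq x + c + inc x e))⁻¹) ^ m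
      ≤ ((Real.sqrt (nsq x + c))⁻¹) ^ m * (2 * d - 1 / (nsq x + c))) := by
  have h : ∀ m : ℕ, ∃ c₀ : ℝ, 32 ≤ c₀ ∧ (1 ≤ m → ∀ c : ℝ, c₀ ≤ c → ∀ x : Z d,
    (m + 2 = d → ∑ e : Fin d × Bool, ((Real.sqrt (nsq x + c + inc x e))⁻¹) ^ m
      ≤ ((Real.sqrt (nsq x + c))⁻¹) ^ m * (2 * d - 2 * d / (nsq x + c) ^ 2)) ∧
    (m + 2 < d → ∑ e : Fin d × Bool, ((Real.sqrt (nsq x + c + inc x e))⁻¹) ^ m
      ≤ ((Real.sqrt (nsq x + c))⁻¹) ^ m * (2 * d - 1 / (nsq x + c)))) := by
    intro m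
    by_cases hm : 1 ≤ m
    · obtain ⟨c₀, h1, h2⟩ := upper_real (d := d) m hm
      exact ⟨c₀, h1, fun _ => h2⟩
    · exact ⟨32, le_rfl, fun h => absurd h hm⟩
  choose c₀ hc₀ h using h
  refine ⟨∑ m ∈ Finset.range (d + 1), c₀ m, ?_, ?_⟩
  · exact (hc₀ 0).trans (Finset.single_le_sum (f := c₀) (fun i _ => by linarith [hc₀ i])
      (Finset.mem_range.mpr (Nat.succ_pos d)))
  · intro m hm hmd
    apply h m hm
    exact Finset.single_le_sum (f := c₀) (fun i _ => by linarith [hc₀ i])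
      (Finset.mem_range.mpr (Nat.lt_succ_of_le hmd))

/-- chosen constant -/
noncomputable def cc (d : ℕ) : ℝ := (exists_c d).choose
lemma cc_ge (d : ℕ) : 32 ≤ cc d := (exists_c d).choose_spec.1
lemma cc_spec (d : ℕ) : ∀ m, 1 ≤ m → m ≤ d → ∀ x : Z d,
    (m + 2 = d → ∑ e : Fin d × Bool, ((Real.sqrt (nsq x + cc d + inc x e))⁻¹) ^ m
      ≤ ((Real.sqrt (nsq x + cc d))⁻¹) ^ m * (2 * d - 2 * d / (nsq x + cc d) ^ 2)) ∧
    (m + 2 < d → ∑ e : Fin d × Bool, ((Real.sqrt (nsq x + cc d + inc x e))⁻¹) ^ m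
      ≤ ((Real.sqrt (nsq x + cc d))⁻¹) ^ m * (2 * d - 1 / (nsq x + cc d))) :=
  (exists_c d).choose_spec.2

lemma U1 (hd : 3 ≤ d) : P (Y (d := d) (cc d) (d - 2)) + Y (cc d) (d + 2) ≤ Y (cc d) (d - 2) := by
  intro x
  have hc := cc_ge d
  have h := ((cc_spec d (d - 2) (by omega) (by omega) x).1 (by omega))
  have hd0 : (0:ℝ) < d := by positivity
  have hn := nsq_nonneg x
  rw [← sum_yv] at h
  rw [Pi.add_apply]
  change P (fun x => ENNReal.ofReal (yv (cc d) x ^ (d-2))) x + _ ≤ _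
  rw [P_ofReal (by omega) _ (fun x => pow_nonneg (yv_pos hc x).le _)]
  unfold Y
  have hpos := yv_pos hc x
  rw [← ENNReal.ofReal_add (mul_nonneg (by positivity) (Finset.sum_nonneg fun e _ =>
    pow_nonneg (yv_pos hc _).le _)) (pow_nonneg hpos.le _)]
  apply ENNReal.ofReal_le_ofReal
  have e4 : yv (cc d) x ^ (d + 2) = yv (cc d) x ^ (d - 2) * (1 / (nsq x + cc d) ^ 2) := by
    have : d + 2 = (d - 2) + 2 * 2 := by omega
    rw [this, pow_add, pow_mul, yv_sq hc]
    simp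
  have e5 : (Real.sqrt (nsq x + cc d))⁻¹ = yv (cc d) x := rfl
  rw [e5] at h
  have hρ : 0 < nsq x + cc d := by linarith
  calc (2 * d : ℝ)⁻¹ * ∑ e : Fin d × Bool, yv (cc d) (x + st e) ^ (d - 2) + yv (cc d) x ^ (d + 2)
      ≤ (2 * d : ℝ)⁻¹ * (yv (cc d) x ^ (d - 2) * (2 * d - 2 * d / (nsq x + cc d) ^ 2))
        + yv (cc d) x ^ (d + 2) := by gcongr
    _ = yv (cc d) x ^ (d - 2) := by rw [e4]; field_simp; ring

lemma U2 (hd : 3 ≤ d) (m : ℕ) (hm : 1 ≤ m) (hmd : m + 2 < d) :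
    P (Y (d := d) (cc d) m) + (fun x => ENNReal.ofReal ((2 * d : ℝ)⁻¹) * Y (cc d) (m + 2) x)
      ≤ Y (cc d) m := by
  intro x
  have hc := cc_ge d
  have h := ((cc_spec d m (by omega) (by omega) x).2 (by omega))
  have hd0 : (0:ℝ) < d := by positivity
  have hn := nsq_nonneg x
  rw [← sum_yv] at h
  rw [Pi.add_apply]
  change P (fun x => ENNReal.ofReal (yv (cc d) x ^ m)) x + _ ≤ _
  rw [P_ofReal (by omega) _ (fun x => pow_nonneg (yv_pos hc x).le _)]
  unfold Y
  have hpos := yv_pos hc x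
  rw [← ENNReal.ofReal_mul (by positivity), ← ENNReal.ofReal_add (mul_nonneg (by positivity)
    (Finset.sum_nonneg fun e _ => pow_nonneg (yv_pos hc _).le _)) (by positivity)]
  apply ENNReal.ofReal_le_ofReal
  have e4 : yv (cc d) x ^ (m + 2) = yv (cc d) x ^ m * (1 / (nsq x + cc d)) := by
    rw [pow_add, yv_sq hc]
  have e5 : (Real.sqrt (nsq x + cc d))⁻¹ = yv (cc d) x := rfl
  rw [e5] at h
  have hρ : 0 < nsq x + cc d := by linarith
  calc (2 * d : ℝ)⁻¹ * ∑ e : Fin d × Bool, yv (cc d) (x + st e) ^ m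
        + (2 * d : ℝ)⁻¹ * yv (cc d) x ^ (m + 2)
      ≤ (2 * d : ℝ)⁻¹ * (yv (cc d) x ^ m * (2 * d - 1 / (nsq x + cc d)))
        + (2 * d : ℝ)⁻¹ * yv (cc d) x ^ (m + 2) := by gcongr
    _ = yv (cc d) x ^ m := by rw [e4]; field_simp; ring

lemma L2 (hd : 3 ≤ d) (m : ℕ) : ∃ K : ℝ≥0∞, K ≠ ⊤ ∧
    Y (d := d) (cc d) m ≤ P (Y (cc d) m) + (fun x => K * Y (cc d) (m + 2) x) := by
  obtain ⟨K, hK, h⟩ := lower_real (d := d) m
  refine ⟨ENNReal.ofReal ((2 * d : ℝ)⁻¹ * K), ENNReal.ofReal_ne_top, ?_⟩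
  intro x
  have hc := cc_ge d
  have h := h (cc d) hc x
  have hd0 : (0:ℝ) < d := by positivity
  have hn := nsq_nonneg x
  rw [← sum_yv] at h
  rw [Pi.add_apply]
  change _ ≤ P (fun x => ENNReal.ofReal (yv (cc d) x ^ m)) x + _
  rw [P_ofReal (by omega) _ (fun x => pow_nonneg (yv_pos hc x).le _)]
  unfold Y
  have hpos := yv_pos hc x
  rw [← ENNReal.ofReal_mul (by positivity), ← ENNReal.ofReal_add (mul_nonneg (by positivity)
    (Finset.sum_nonneg fun e _ => pow_nonneg (yv_pos hc _).le _)) (by positivity)]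
  apply ENNReal.ofReal_le_ofReal
  have e4 : yv (cc d) x ^ (m + 2) = yv (cc d) x ^ m * (1 / (nsq x + cc d)) := by
    rw [pow_add, yv_sq hc]
  have e5 : (Real.sqrt (nsq x + cc d))⁻¹ = yv (cc d) x := rfl
  rw [e5] at h
  have hρ : 0 < nsq x + cc d := by linarith
  calc yv (cc d) x ^ m = (2 * d : ℝ)⁻¹ * (yv (cc d) x ^ m * (2 * d - K / (nsq x + cc d)))
        + (2 * d : ℝ)⁻¹ * K * yv (cc d) x ^ (m + 2) := by rw [e4]; field_simp; ring
    _ ≤ _ := by gcongr

lemma P_const (hd : 0 < d) (c : ℝ≥0∞) : P (d := d) (fun _ => c) = fun _ => c := by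
  funext x
  unfold P
  have h0 : (2 * d : ℝ≥0∞) ≠ 0 := by
    have : (d : ℝ≥0∞) ≠ 0 := by exact_mod_cast hd.ne'
    simp [this]
  have ht : (2 * d : ℝ≥0∞) ≠ ⊤ := ENNReal.mul_ne_top (by simp) (ENNReal.natCast_ne_top d)
  simp only [Finset.sum_const, Finset.card_univ, Fintype.card_prod, Fintype.card_fin,
    Fintype.card_bool, nsmul_eq_mul]
  rw [← mul_assoc]
  have : ((d * 2 : ℕ) : ℝ≥0∞) = 2 * d := by push_cast; ring
  rw [this, ENNReal.inv_mul_cancel h0 ht, one_mul]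

lemma Pn_const (hd : 0 < d) (c : ℝ≥0∞) (n : ℕ) : P^[n] (fun _ : Z d => c) = fun _ => c := by
  induction n with
  | zero => rfl
  | succ n ih => rw [Function.iterate_succ_apply', ih, P_const hd]

lemma Psum_Y (hd : 3 ≤ d) : Psum (Y (d := d) (cc d) (d + 2)) ≤ Y (cc d) (d - 2) :=
  psum_le_of_super (U1 hd)

lemma Pn_Y_tendsto (hd : 3 ≤ d) (m : ℕ) (hm : 1 ≤ m) (x : Z d) :
    Tendsto (fun n => (P^[n] (Y (d := d) (cc d) m)) x) atTop (𝓝 0) := by
  have hc := cc_ge d
  have h1 : Tendsto (fun n => (P^[n] (Y (d := d) (cc d) (d + 2))) x) atTop (𝓝 0) := by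
    apply ENNReal.tendsto_atTop_zero_of_tsum_ne_top
    exact ne_top_of_le_ne_top (Y_ne_top _ _ x) (Psum_Y hd x)
  rw [ENNReal.tendsto_atTop_zero]
  intro ε hε
  by_cases hεt : ε = ⊤
  · exact ⟨0, fun n _ => by rw [hεt]; exact le_top⟩
  have hε0 : 0 < ε.toReal := ENNReal.toReal_pos hε.ne' hεt
  set t := ε.toReal / 2 with ht
  have ht0 : 0 < t := by positivity
  have hle : Y (d := d) (cc d) m ≤ (fun _ => ENNReal.ofReal t) +
      (fun x => ENNReal.ofReal ((t ^ (d+2))⁻¹) * Y (cc d) (d + 2) x) := by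
    intro x
    rw [Pi.add_apply]
    unfold Y
    rw [← ENNReal.ofReal_mul (by positivity), ← ENNReal.ofReal_add ht0.le
      (mul_nonneg (by positivity) (pow_nonneg (yv_pos hc x).le _))]
    apply ENNReal.ofReal_le_ofReal
    have hy := yv_pos hc x
    have hy1 := yv_le_one hc x
    by_cases hcase : yv (cc d) x ^ m ≤ t
    · have : 0 ≤ (t ^ (d + 2))⁻¹ * yv (cc d) x ^ (d + 2) := by positivity
      linarith
    · push Not at hcase
      have h2 : t ≤ yv (cc d) x := hcase.le.trans (pow_le_of_le_one hy.le hy1 (by omega))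
      have h3 : 1 ≤ (t ^ (d + 2))⁻¹ * yv (cc d) x ^ (d + 2) := by
        rw [inv_mul_eq_div, one_le_div (by positivity)]
        exact pow_le_pow_left₀ ht0.le h2 _
      have h4 : yv (cc d) x ^ m ≤ 1 := pow_le_one₀ hy.le hy1
      linarith
  have h2 : Tendsto (fun n => ENNReal.ofReal ((t ^ (d+2))⁻¹) * (P^[n] (Y (d := d) (cc d) (d + 2))) x)
      atTop (𝓝 0) := by
    have := ENNReal.Tendsto.const_mul (a := ENNReal.ofReal ((t ^ (d+2))⁻¹)) h1 (Or.inr ENNReal.ofReal_ne_top)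
    rwa [mul_zero] at this
  rw [ENNReal.tendsto_atTop_zero] at h2
  obtain ⟨n0, hn0⟩ := h2 (ENNReal.ofReal t) (by simpa using ht0)
  refine ⟨n0, fun n hn => ?_⟩
  have h3 := Pn_mono hle n x
  rw [Pn_add, Pn_mul, Pi.add_apply, Pn_const (by omega)] at h3
  refine h3.trans ?_
  calc _ ≤ ENNReal.ofReal t + ENNReal.ofReal t := by gcongr; exact hn0 n hn
    _ = ε := by
      rw [← ENNReal.ofReal_add ht0.le ht0.le, ht, add_halves, ENNReal.ofReal_toReal hεt]

/-! ### irreducibility and the lower bound for the Green function -/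

lemma p_pos (hd : 0 < d) : ∀ v : Z d, ∃ n, p n v ≠ 0 := by
  apply Z_ind
  · exact ⟨0, by simp [p, dl]⟩
  · rintro v e ⟨n, hn⟩
    refine ⟨n + 1, ?_⟩
    rw [p, Function.iterate_succ_apply']
    change P (p n) (v + st e) ≠ 0
    unfold P
    have h0 : (2 * d : ℝ≥0∞)⁻¹ ≠ 0 := by
      rw [Ne, ENNReal.inv_eq_zero]
      exact ENNReal.mul_ne_top (by simp) (ENNReal.natCast_ne_top d)
    apply mul_ne_zero h0
    intro hs
    rw [Finset.sum_eq_zero_iff] at hs
    have := hs (e.1, !e.2) (Finset.mem_univ _)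
    rw [← st_neg] at this
    apply hn
    simpa using this

lemma Psum_dl : Psum (dl (d := d)) = gr := rfl

lemma Psum_p_le (n : ℕ) : Psum (p (d := d) n) ≤ gr := by
  intro x
  unfold Psum gr
  have : ∀ k, (P^[k] (p n)) x = p (k + n) x := by
    intro k
    rw [p, p, ← Function.iterate_add_apply]
  simp only [this]
  exact ENNReal.tsum_comp_le_tsum_of_injective (add_left_injective n) (fun k => p k x)

/-- indicator of a finite set -/
lemma Psum_ind_le (hd : 0 < d) (F : Finset (Z d)) :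
    ∃ C : ℝ≥0∞, C ≠ ⊤ ∧ ∀ x, Psum (fun y => if y ∈ F then 1 else 0) x ≤ C * gr x := by
  classical
  choose n hn using p_pos (d := d) hd
  refine ⟨∑ v ∈ F, (p (n v) v)⁻¹, ?_, ?_⟩
  · rw [ENNReal.sum_ne_top]
    intro v _
    exact ENNReal.inv_ne_top.mpr (hn v)
  · intro x
    have h1 : (fun y : Z d => if y ∈ F then (1 : ℝ≥0∞) else 0)
        ≤ fun y => ∑' v : F, (p (n v.1) v.1)⁻¹ * p (n v.1) y := by
      intro y
      by_cases hy : y ∈ F
      · simp only [hy, if_true]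
        refine le_trans ?_ (ENNReal.le_tsum (⟨y, hy⟩ : F))
        by_cases ht : p (n y) y = ⊤
        · exfalso
          -- p is bounded by one
          have hb : ∀ k, p (d := d) k ≤ fun _ => 1 := by
            intro k
            have := Pn_mono (f := dl (d := d)) (g := fun _ => 1)
              (fun x => by unfold dl; split_ifs <;> simp) k
            rwa [Pn_const hd] at this
          exact absurd (hb (n y) y) (by rw [ht]; simp)
        · rw [ENNReal.inv_mul_cancel (hn y) ht]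
      · simp [hy]
    refine (Psum_mono h1 x).trans ?_
    unfold Psum
    simp only [Pn_tsum, Pn_mul]
    rw [ENNReal.tsum_comm]
    simp only [ENNReal.tsum_mul_left]
    rw [Finset.sum_mul]
    rw [tsum_fintype, Finset.sum_coe_sort F (fun v => (p (n v) v)⁻¹ * ∑' k, (P^[k] (p (n v))) x)]
    refine Finset.sum_le_sum fun v _ => ?_
    gcongr
    exact Psum_p_le (n v) x

lemma finite_nsq (R : ℝ) : {x : Z d | nsq x ≤ R}.Finite := by
  have h : {x : Z d | nsq x ≤ R} ⊆ Set.Icc (fun _ => -⌈R⌉) (fun _ => ⌈R⌉) := by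
    intro x hx
    have h1 : ∀ i, |x i| ≤ ⌈R⌉ := by
      intro i
      have h2 := (sq_le_nsq x i).trans hx
      have h3 : ((|x i| : ℤ) : ℝ) ≤ R := by
        refine le_trans ?_ h2
        push_cast
        rw [← sq_abs]
        by_cases h0 : x i = 0
        · simp [h0]
        · have : (1 : ℝ) ≤ |(x i : ℝ)| := by
            have : (1 : ℤ) ≤ |x i| := Int.one_le_abs h0
            exact_mod_cast this
          nlinarith
      have h4 : ((|x i| : ℤ) : ℝ) ≤ ⌈R⌉ := h3.trans (Int.le_ceil R)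
      exact_mod_cast h4
    exact ⟨fun i => (abs_le.mp (h1 i)).1, fun i => (abs_le.mp (h1 i)).2⟩
  exact (Set.finite_Icc _ _).subset h

lemma gr_lower (hd : 3 ≤ d) : ∃ C : ℝ≥0∞, C ≠ ⊤ ∧ ∀ x : Z d, Y (cc d) (d - 2) x ≤ C * gr x := by
  classical
  have hc := cc_ge d
  obtain ⟨b, hb, R, hbR, h⟩ := sub_real (d := d) (d - 2) (by omega) (by omega)
  have hd0 : (0:ℝ) < d := by positivity
  set m := d - 2 with hm
  -- auxiliary function
  set g : Z d → ℝ := fun x => if R ≤ nsq x then ((Real.sqrt (nsq x - b))⁻¹) ^ m else 0 with hg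
  have hg0 : ∀ x, 0 ≤ g x := by
    intro x; rw [hg]; dsimp only; split_ifs <;> positivity
  have hg1 : ∀ x, g x ≤ 1 := by
    intro x; rw [hg]; dsimp only
    split_ifs with hx
    · apply pow_le_one₀ (by positivity)
      apply inv_le_one_of_one_le₀
      rw [Real.one_le_sqrt]; linarith
    · norm_num
  have hgt0 : ∀ x, Y (cc d) m x ≤ ENNReal.ofReal (g x) + (if x ∈ (finite_nsq (d := d) R).toFinset then 1 else 0) := by
    intro x
    by_cases hx : nsq x ≤ R
    · have : x ∈ (finite_nsq (d := d) R).toFinset := by simpa using hx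
      rw [if_pos this]
      exact (Y_le_one hc m x).trans le_add_self
    · have : x ∉ (finite_nsq (d := d) R).toFinset := by simpa using hx
      rw [if_neg this, add_zero]
      push Not at hx
      unfold Y
      apply ENNReal.ofReal_le_ofReal
      rw [hg]; dsimp only
      rw [if_pos hx.le]
      unfold yv
      have : 0 < nsq x - b := by linarith
      apply pow_le_pow_left₀ (by positivity)
      apply inv_anti₀ (Real.sqrt_pos.mpr this)
      apply Real.sqrt_le_sqrt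
      linarith
  -- R1 : outside, all neighbours satisfy nsq ≥ R
  set R1 : ℝ := 2 * R + 20 with hR1
  have hout : ∀ x : Z d, R1 < nsq x → ∀ e : Fin d × Bool, R ≤ nsq (x + st e) := by
    intro x hx e
    have h1 := inc_sq_le x e
    have h2 : nsq (x + st e) = nsq x + inc x e := by rw [nsq_add_st]; rfl
    have hn := nsq_nonneg x
    rw [h2]
    have : -(nsq x / 2 + 8) ≤ inc x e := by
      have h3 : |inc x e| ≤ nsq x / 2 + 8 := by
        apply abs_le_of_sq_le_sq _ (by positivity)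
        nlinarith
      exact (abs_le.mp h3).1
    rw [hR1] at hx
    linarith
  have hsub : (fun x => ENNReal.ofReal (g x)) ≤ P (fun x => ENNReal.ofReal (g x)) +
      (fun x => if x ∈ (finite_nsq (d := d) R1).toFinset then 1 else 0) := by
    intro x
    rw [Pi.add_apply]
    by_cases hx : nsq x ≤ R1
    · have : x ∈ (finite_nsq (d := d) R1).toFinset := by simpa using hx
      rw [if_pos this]
      have : ENNReal.ofReal (g x) ≤ 1 := by
        rw [← ENNReal.ofReal_one]; exact ENNReal.ofReal_le_ofReal (hg1 x)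
      exact this.trans le_add_self
    · have : x ∉ (finite_nsq (d := d) R1).toFinset := by simpa using hx
      rw [if_neg this, add_zero]
      push Not at hx
      rw [P_ofReal (by omega) g hg0]
      apply ENNReal.ofReal_le_ofReal
      have hRx : R ≤ nsq x := by rw [hR1] at hx; linarith
      have h1 := h x hRx
      have h2 : ∀ e : Fin d × Bool, g (x + st e) = ((Real.sqrt (nsq x - b + inc x e))⁻¹) ^ m := by
        intro e
        rw [hg]; dsimp only
        rw [if_pos (hout x hx e), nsq_add_st]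
        congr 3
        unfold inc; ring
      simp only [h2]
      have h3 : g x = ((Real.sqrt (nsq x - b))⁻¹) ^ m := by
        rw [hg]; dsimp only; rw [if_pos hRx]
      rw [h3]
      calc ((Real.sqrt (nsq x - b))⁻¹) ^ m = (2 * d : ℝ)⁻¹ * (((Real.sqrt (nsq x - b))⁻¹) ^ m * (2 * d)) := by
            field_simp
        _ ≤ _ := by gcongr
  -- g ≤ C * Y
  have hgY : ∃ C : ℝ, 0 ≤ C ∧ ∀ x, g x ≤ C * yv (cc d) x ^ m := by
    refine ⟨(Real.sqrt (1 + b + cc d)) ^ m, by positivity, fun x => ?_⟩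
    rw [hg]; dsimp only
    have hy := yv_pos hc x
    split_ifs with hx
    · unfold yv
      have hρ : 1 ≤ nsq x - b := by linarith
      have hρ' : 0 < nsq x - b := by linarith
      rw [← mul_pow]
      apply pow_le_pow_left₀ (by positivity)
      rw [← div_eq_mul_inv, le_div_iff₀ (Real.sqrt_pos.mpr (by linarith : 0 < nsq x + cc d)),
        inv_mul_le_iff₀ (Real.sqrt_pos.mpr hρ'), ← Real.sqrt_mul hρ'.le]
      apply Real.sqrt_le_sqrt
      nlinarith
    · positivity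
  obtain ⟨C0, hC0, hgY⟩ := hgY
  have hlim : ∀ x, Tendsto (fun n => (P^[n] (fun x : Z d => ENNReal.ofReal (g x))) x) atTop (𝓝 0) := by
    intro x
    have h1 := ENNReal.Tendsto.const_mul (a := ENNReal.ofReal C0)
      (Pn_Y_tendsto hd m (by omega) x) (Or.inr ENNReal.ofReal_ne_top)
    rw [mul_zero] at h1
    refine tendsto_of_tendsto_of_tendsto_of_le_of_le tendsto_const_nhds h1 (fun n => bot_le) ?_
    intro n
    have h2 : (fun x => ENNReal.ofReal (g x)) ≤ fun x => ENNReal.ofReal C0 * Y (cc d) m x := by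
      intro x
      unfold Y
      dsimp only
      rw [← ENNReal.ofReal_mul hC0]
      exact ENNReal.ofReal_le_ofReal (hgY x)
    have h3 := Pn_mono h2 n x
    rw [Pn_mul] at h3
    exact h3
  have hmain := le_psum_of_sub hsub hlim
  obtain ⟨C1, hC1, h1⟩ := Psum_ind_le (d := d) (by omega) (finite_nsq (d := d) R1).toFinset
  obtain ⟨C2, hC2, h2⟩ := Psum_ind_le (d := d) (by omega) (finite_nsq (d := d) R).toFinset
  refine ⟨C1 + C2, ENNReal.add_ne_top.mpr ⟨hC1, hC2⟩, fun x => ?_⟩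
  calc Y (cc d) m x ≤ ENNReal.ofReal (g x)
        + (if x ∈ (finite_nsq (d := d) R).toFinset then 1 else 0) := hgt0 x
    _ ≤ C1 * gr x + C2 * gr x := by
        gcongr
        · exact (hmain x).trans (h1 x)
        · refine le_trans ?_ (h2 x)
          rw [Psum_eq, Pi.add_apply]
          exact le_self_add
    _ = _ := by ring

/-- upper bounds -/
lemma GN_upper {N : ℕ} (hN : 2 * N < d) (hd : 3 ≤ d) :
    ∀ k ≤ N, ∃ C : ℝ≥0∞, C ≠ ⊤ ∧ ∀ x : Z d, GN k x ≤ C * Y (cc d) (d - 2 * k) x := by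
  have hc := cc_ge d
  have hdl : ∀ m, ∃ C : ℝ≥0∞, C ≠ ⊤ ∧ ∀ x : Z d, dl x ≤ C * Y (cc d) m x := by
    intro m
    refine ⟨(Y (d := d) (cc d) m 0)⁻¹, ENNReal.inv_ne_top.mpr (Y_ne_zero hc m 0), fun x => ?_⟩
    unfold dl
    split_ifs with hx
    · rw [hx, ENNReal.inv_mul_cancel (Y_ne_zero hc m 0) (Y_ne_top _ _ _)]
    · exact bot_le
  intro k
  induction k with
  | zero => intro _; exact hdl _
  | succ k ih =>
    intro hk
    rcases Nat.eq_zero_or_pos k with h0 | h0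
    · subst h0
      obtain ⟨C, hC, h⟩ := hdl (d + 2)
      refine ⟨C, hC, fun x => ?_⟩
      rw [GN_succ]
      have h1 : GN (d := d) 0 ≤ fun x => C * Y (cc d) (d + 2) x := h
      refine (Psum_mono h1 x).trans ?_
      rw [Psum_mul]
      exact mul_le_mul_right (Psum_Y hd x) C
    · obtain ⟨C, hC, h⟩ := ih (by omega)
      have hU := U2 hd (d - 2 * (k + 1)) (by omega) (by omega)
      have e : d - 2 * (k + 1) + 2 = d - 2 * k := by omega
      rw [e] at hU
      have h2 := psum_le_of_super hU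
      rw [Psum_mul] at h2
      have hK0 : ENNReal.ofReal ((2 * d : ℝ)⁻¹) ≠ 0 := by
        rw [Ne, ENNReal.ofReal_eq_zero, not_le]
        have : (0:ℝ) < d := by positivity
        positivity
      refine ⟨C * (ENNReal.ofReal ((2 * d : ℝ)⁻¹))⁻¹, ENNReal.mul_ne_top hC (ENNReal.inv_ne_top.mpr hK0), fun x => ?_⟩
      rw [GN_succ]
      have h1 : GN (d := d) k ≤ fun x => C * Y (cc d) (d - 2 * k) x := h
      refine (Psum_mono h1 x).trans ?_
      rw [Psum_mul, mul_assoc]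
      dsimp only
      gcongr
      have h3 := h2 x
      rw [mul_comm (ENNReal.ofReal ((2 * d : ℝ)⁻¹))⁻¹]
      rw [← div_eq_mul_inv, ENNReal.le_div_iff_mul_le (Or.inl hK0) (Or.inl ENNReal.ofReal_ne_top), mul_comm]
      exact h3

lemma GN_one : GN (d := d) 1 = gr := by rw [GN_succ]; rfl

/-- lower bounds -/
lemma GN_lower {N : ℕ} (hN : 2 * N < d) (hd : 3 ≤ d) :
    ∀ k, 1 ≤ k → k ≤ N → ∃ C : ℝ≥0∞, C ≠ ⊤ ∧ ∀ x : Z d, Y (cc d) (d - 2 * k) x ≤ C * GN k x := by
  intro k hk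
  induction k, hk using Nat.le_induction with
  | base =>
    intro _
    rw [GN_one]
    exact gr_lower hd
  | succ k hk ih =>
    intro hkN
    obtain ⟨C, hC, h⟩ := ih (by omega)
    obtain ⟨K, hK, hL⟩ := L2 hd (d - 2 * (k + 1))
    have e : d - 2 * (k + 1) + 2 = d - 2 * k := by omega
    rw [e] at hL
    have h2 := le_psum_of_sub hL (Pn_Y_tendsto hd _ (by omega))
    rw [Psum_mul] at h2
    refine ⟨K * C, ENNReal.mul_ne_top hK hC, fun x => ?_⟩
    refine (h2 x).trans ?_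
    dsimp only
    rw [mul_assoc]
    gcongr
    have h3 : Y (d := d) (cc d) (d - 2 * k) ≤ fun x => C * GN k x := h
    refine (Psum_mono h3 x).trans ?_
    rw [Psum_mul, GN_succ]

end Pool.Agent.V11124.MS
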