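import Mathlib
import Pool.Agent.V11124.MS.Bounds

/-! Ratio limits for the iterated Green functions. -/

namespace Pool.Agent.V11124.MS

open scoped ENNReal BigOperators
open Filter Topology

variable {d : ℕ}

structure Good (H H0 : Z d → ℝ) : Prop where
  pos : ∀ x, 0 < H x
  nn : ∀ x, 0 ≤ H0 x
  eq : ∀ x, H x = (2*d:ℝ)⁻¹ * ∑ e : Fin d × Bool, H (x + st e) + H0 x
  small : ∀ ε > 0, ∀ᶠ x in cofinite, H0 x ≤ ε * H x
  bdd : ∃ C : ℝ, ∀ v, ∀ᶠ x in cofinite, H (x + v) ≤ C * H x

lemma ev_shift {Q : Z d → Prop} (h : ∀ᶠ x in cofinite, Q x) (v : Z d) :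
    ∀ᶠ x in cofinite, Q (x + v) :=
  (add_left_injective v).tendsto_cofinite.eventually h

lemma Good.harnack {H H0 : Z d → ℝ} (hd : 0 < d) (h : Good H H0) (x : Z d) (e : Fin d × Bool) :
    H (x + st e) ≤ 2 * d * H x := by
  have h1 := h.eq x
  have h2 : H (x + st e) ≤ ∑ e : Fin d × Bool, H (x + st e) :=
    Finset.single_le_sum (f := fun e => H (x + st e)) (fun _ _ => (h.pos _).le) (Finset.mem_univ e)
  have hd' : (0:ℝ) < 2 * d := by positivity
  have h3 := h.nn x
  calc H (x + st e) ≤ ∑ e : Fin d × Bool, H (x + st e) := h2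
    _ = 2 * d * ((2*d:ℝ)⁻¹ * ∑ e : Fin d × Bool, H (x + st e)) := by field_simp
    _ ≤ _ := by gcongr; linarith

/-- the constants in the path argument -/
noncomputable def Bc (d : ℕ) : ℕ → ℝ
  | 0 => 2
  | j + 1 => 4 * d ^ 2 * (Bc d j + 1)

lemma Bc_pos (d : ℕ) (hd : 0 < d) (j : ℕ) : 0 < Bc d j := by
  induction j with
  | zero => norm_num [Bc]
  | succ j ih => unfold Bc; positivity

lemma Bc_mono (d : ℕ) (hd : 0 < d) : Monotone (Bc d) := by
  apply monotone_nat_of_le_succ
  intro j
  have := Bc_pos d hd j
  have hd1 : (1:ℝ) ≤ d := by exact_mod_cast hd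
  change Bc d j ≤ 4 * d ^ 2 * (Bc d j + 1)
  nlinarith [sq_nonneg ((d:ℝ) - 1), mul_le_mul_of_nonneg_right (show (1:ℝ) ≤ d ^ 2 by nlinarith) this.le]

lemma Good.limsup_le {H H0 : Z d → ℝ} (hd : 0 < d) (h : Good H H0) (e : Fin d × Bool) (ε : ℝ)
    (hε : 0 < ε) : ∀ᶠ x in cofinite, H (x + st e) ≤ (1 + ε) * H x := by
  set S : Set ℝ := {a | 0 ≤ a ∧ ∀ᶠ x in cofinite, H (x + st e) ≤ a * H x} with hS
  have hd' : (0:ℝ) < 2 * d := by positivity
  have hne : S.Nonempty := ⟨2 * d, hd'.le, Eventually.of_forall fun x => h.harnack hd x e⟩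
  have hbb : BddBelow S := ⟨0, fun a ha => ha.1⟩
  set M := sInf S with hM
  have hM0 : 0 ≤ M := le_csInf hne fun a ha => ha.1
  have hup : ∀ δ > 0, ∀ᶠ x in cofinite, H (x + st e) ≤ (M + δ) * H x := by
    intro δ hδ
    obtain ⟨a, ha, hlt⟩ := exists_lt_of_csInf_lt hne (show sInf S < M + δ by linarith)
    filter_upwards [ha.2] with x hx
    have := h.pos x
    nlinarith
  suffices hM1 : M ≤ 1 by
    filter_upwards [hup ε hε] with x hx
    have := h.pos x
    nlinarith
  by_contra hM1
  push Not at hM1
  obtain ⟨C, hC⟩ := h.bdd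
  obtain ⟨k, hk⟩ := pow_unbounded_of_one_lt C (show 1 < (M + 1) / 2 by linarith)
  -- choose δ
  have hBk := Bc_pos d hd k
  set δ := min ((M - 1) / 2 / Bc d k) (M / 2) with hδdef
  have hδ : 0 < δ := lt_min (by apply div_pos _ hBk; linarith) (by linarith)
  have hδ1 : Bc d k * δ ≤ (M - 1) / 2 := by
    calc Bc d k * δ ≤ Bc d k * ((M - 1) / 2 / Bc d k) := by gcongr; exact min_le_left _ _
      _ = _ := by field_simp
  have hδ2 : δ ≤ M / 2 := min_le_right _ _
  -- frequently
  have hfreq : ∃ᶠ x in cofinite, (M - δ) * H x < H (x + st e) := by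
    rw [Filter.Frequently]
    intro hev
    have : M - δ ∈ S := ⟨by linarith, by
      filter_upwards [hev] with x hx
      exact not_lt.mp hx⟩
    have := csInf_le hbb this
    linarith
  -- path eventually
  have hev1 : ∀ᶠ x in cofinite, ∀ j ∈ Finset.range (k + 1), ∀ e' : Fin d × Bool,
      H (x + j • st e + st e' + st e) ≤ (M + δ) * H (x + j • st e + st e') := by
    rw [eventually_all_finset]
    intro j _
    rw [eventually_all]
    intro e'
    have := ev_shift (hup δ hδ) (j • st e + st e')
    filter_upwards [this] with x hx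
    rw [← add_assoc] at hx
    exact hx
  have hev1' : ∀ᶠ x in cofinite, ∀ j ∈ Finset.range (k + 1),
      H (x + j • st e + st e) ≤ (M + δ) * H (x + j • st e) := by
    rw [eventually_all_finset]
    intro j _
    exact ev_shift (hup δ hδ) (j • st e)
  have hev2 : ∀ᶠ x in cofinite, ∀ j ∈ Finset.range (k + 1),
      H0 (x + j • st e + st e) ≤ δ * H (x + j • st e + st e) := by
    rw [eventually_all_finset]
    intro j _
    have := ev_shift (h.small δ hδ) (j • st e + st e)
    filter_upwards [this] with x hx
    rw [← add_assoc] at hx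
    exact hx
  obtain ⟨x, hx, h1, h1', h2, h3⟩ := (hfreq.and_eventually
    (hev1.and (hev1'.and (hev2.and (hC (k • st e)))))).exists
  -- deficiency
  have hD : ∀ j ≤ k, (M + δ) * H (x + j • st e) - H (x + j • st e + st e)
      ≤ Bc d j * δ * H (x + j • st e) := by
    intro j
    induction j with
    | zero =>
      intro _
      simp only [zero_smul, add_zero, Bc]
      linarith
    | succ j ih =>
      intro hj
      have ihj := ih (by omega)
      set y := x + j • st e with hy
      have hy1 : x + (j + 1) • st e = y + st e := by rw [hy, succ_nsmul, add_assoc]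
      rw [hy1]
      have ea := h.eq y
      have eb := h.eq (y + st e)
      have hnn := h.nn y
      have hsm := h2 j (Finset.mem_range.mpr (by omega))
      have hbr : ∀ e' : Fin d × Bool, 0 ≤ (M + δ) * H (y + st e') - H (y + st e' + st e) := by
        intro e'
        have := h1 j (Finset.mem_range.mpr (by omega)) e'
        linarith
      have hsingle : (M + δ) * H (y + st e) - H (y + st e + st e)
          ≤ ∑ e' : Fin d × Bool, ((M + δ) * H (y + st e') - H (y + st e' + st e)) :=
        Finset.single_le_sum (f := fun e' => (M + δ) * H (y + st e') - H (y + st e' + st e))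
          (fun e' _ => hbr e') (Finset.mem_univ e)
      have hsum : ∑ e' : Fin d × Bool, ((M + δ) * H (y + st e') - H (y + st e' + st e))
          = 2 * d * ((M + δ) * (H y - H0 y) - (H (y + st e) - H0 (y + st e))) := by
        rw [Finset.sum_sub_distrib, ← Finset.mul_sum]
        have e1 : ∑ e' : Fin d × Bool, H (y + st e') = 2 * d * (H y - H0 y) := by
          rw [ea]; field_simp; ring
        have e2 : ∑ e' : Fin d × Bool, H (y + st e' + st e) = 2 * d * (H (y + st e) - H0 (y + st e)) := by
          have : ∀ e' : Fin d × Bool, y + st e' + st e = y + st e + st e' := fun e' => by abel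
          simp only [this]
          rw [eb]; field_simp; ring
        rw [e1, e2]; ring
      rw [hsum] at hsingle
      have hhar : H y ≤ 2 * d * H (y + st e) := by
        have := h.harnack hd (y + st e) (e.1, !e.2)
        rw [← st_neg, add_neg_cancel_right] at this
        exact this
      have hHp := h.pos (y + st e)
      have hBj := Bc_pos d hd j
      have hd1 : (1:ℝ) ≤ d := by exact_mod_cast hd
      calc (M + δ) * H (y + st e) - H (y + st e + st e)
          ≤ 2 * d * ((M + δ) * (H y - H0 y) - (H (y + st e) - H0 (y + st e))) := hsingle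
        _ ≤ 2 * d * (((M + δ) * H y - H (y + st e)) + δ * H (y + st e)) := by
            gcongr
            have : 0 ≤ (M + δ) * H0 y := mul_nonneg (by linarith) hnn
            linarith
        _ ≤ 2 * d * (Bc d j * δ * H y + δ * H (y + st e)) := by gcongr
        _ ≤ 2 * d * (Bc d j * δ * (2 * d * H (y + st e)) + δ * (2 * d * H (y + st e))) := by
            gcongr
            nlinarith
        _ = Bc d (j + 1) * δ * H (y + st e) := by
            change _ = 4 * d ^ 2 * (Bc d j + 1) * δ * H (y + st e)
            ring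
  have hgrow : ∀ j ≤ k, ((M + 1) / 2) ^ j * H x ≤ H (x + j • st e) := by
    intro j
    induction j with
    | zero => intro _; simp
    | succ j ih =>
      intro hj
      have ihj := ih (by omega)
      have hDj := hD j (by omega)
      have hy1 : x + (j + 1) • st e = x + j • st e + st e := by rw [succ_nsmul, add_assoc]
      rw [hy1]
      have hHp := h.pos (x + j • st e)
      have hB1 : Bc d j * δ ≤ (M - 1) / 2 :=
        (mul_le_mul_of_nonneg_right (Bc_mono d hd (by omega : j ≤ k)) hδ.le).trans hδ1
      have : (M + 1) / 2 * H (x + j • st e) ≤ H (x + j • st e + st e) := by nlinarith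
      calc ((M + 1) / 2) ^ (j + 1) * H x = (M + 1) / 2 * (((M + 1) / 2) ^ j * H x) := by ring
        _ ≤ (M + 1) / 2 * H (x + j • st e) := by gcongr
        _ ≤ _ := this
  have hfin := hgrow k le_rfl
  have hHx := h.pos x
  nlinarith

lemma Good.ratio_e {H H0 : Z d → ℝ} (hd : 0 < d) (h : Good H H0) (e : Fin d × Bool) :
    Tendsto (fun x => H (x + st e) / H x) cofinite (𝓝 1) := by
  rw [Metric.tendsto_nhds]
  intro ε hε
  set δ := min (ε / 4) (1 / 2) with hδdef
  have hδ : 0 < δ := lt_min (by positivity) (by norm_num)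
  have hδ1 : δ ≤ ε / 4 := min_le_left _ _
  have hδ2 : δ ≤ 1 / 2 := min_le_right _ _
  have h1 := h.limsup_le hd e δ hδ
  have h2 := ev_shift (h.limsup_le hd (e.1, !e.2) δ hδ) (st e)
  filter_upwards [h1, h2] with x hx1 hx2
  rw [← st_neg, add_neg_cancel_right] at hx2
  have hp := h.pos x
  have hp2 := h.pos (x + st e)
  rw [Real.dist_eq, abs_lt]
  constructor
  · have : 1 - ε / 2 ≤ H (x + st e) / H x := by
      rw [le_div_iff₀ hp]
      by_cases hε2 : 1 - ε / 2 ≤ 0
      · nlinarith
      · push Not at hε2
        calc (1 - ε / 2) * H x ≤ (1 - ε / 2) * ((1 + δ) * H (x + st e)) := by gcongr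
          _ ≤ 1 * H (x + st e) := by
            rw [← mul_assoc]; gcongr; nlinarith
          _ = _ := one_mul _
    linarith
  · have : H (x + st e) / H x ≤ 1 + δ := by
      rw [div_le_iff₀ hp]; exact hx1
    linarith

lemma Good.ratio {H H0 : Z d → ℝ} (hd : 0 < d) (h : Good H H0) :
    ∀ v, Tendsto (fun x => H (x + v) / H x) cofinite (𝓝 1) := by
  apply Z_ind
  · refine tendsto_const_nhds.congr fun x => ?_
    rw [add_zero, div_self (h.pos x).ne']
  · intro v e hv
    have h1 := (h.ratio_e hd e).comp (add_left_injective v).tendsto_cofinite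
    have h2 := h1.mul hv
    rw [one_mul] at h2
    refine h2.congr fun x => ?_
    simp only [Function.comp]
    rw [← add_assoc, div_mul_div_cancel₀ (h.pos _).ne']

end Pool.Agent.V11124.MS
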