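import Mathlib
import Pool.Agent.V11124.MS.Ratio

/-! Tail estimate for the two-point sums. -/

namespace Pool.Agent.V11124.MS

open scoped ENNReal BigOperators
open Filter Topology

variable {d : ℕ}

lemma tsum_prod_pow (g : ℤ → ℝ≥0∞) (n : ℕ) :
    ∑' x : Fin n → ℤ, ∏ i, g (x i) = (∑' k, g k) ^ n := by
  induction n with
  | zero =>
    rw [tsum_eq_single (0 : Fin 0 → ℤ)]
    · simp
    · intro b hb; exact absurd (Subsingleton.elim _ _) hb
  | succ n ih =>
    rw [← (Fin.consEquiv (fun _ : Fin (n+1) => ℤ)).tsum_eq]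
    rw [ENNReal.tsum_prod (f := fun (a : ℤ) (x : Fin n → ℤ) =>
      ∏ i, g ((Fin.consEquiv (fun _ : Fin (n+1) => ℤ)) (a, x) i))]
    simp only [Fin.prod_univ_succ, Fin.consEquiv_apply, Fin.cons_zero, Fin.cons_succ]
    simp only [ENNReal.tsum_mul_left, ih, ENNReal.tsum_mul_right]
    rw [pow_succ, mul_comm]

/-- `η = √y` -/
noncomputable def eta (x : Z d) : ℝ := Real.sqrt (yv (cc d) x)

lemma eta_pos (x : Z d) : 0 < eta x := Real.sqrt_pos.mpr (yv_pos (cc_ge d) x)
lemma eta_le_one (x : Z d) : eta x ≤ 1 := by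
  unfold eta
  rw [show (1:ℝ) = Real.sqrt 1 by simp]
  exact Real.sqrt_le_sqrt (yv_le_one (cc_ge d) x)
lemma eta_sq (x : Z d) : eta x ^ 2 = yv (cc d) x := Real.sq_sqrt (yv_pos (cc_ge d) x).le

noncomputable def sw (x : Z d) : ℝ≥0∞ := ENNReal.ofReal (eta x ^ (2 * d + 1))

lemma sw_sum (hd : 0 < d) : ∑' x : Z d, sw x ≠ ⊤ := by
  set θ : ℝ := (2 * d + 1) / (4 * d) with hθ
  have hd0 : (0:ℝ) < d := by positivity
  have hθ2 : 1 < 2 * θ := by
    rw [hθ]
    rw [← sub_pos]
    have : 2 * ((2 * (d:ℝ) + 1) / (4 * d)) - 1 = 1 / (2 * d) := by field_simp; ring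
    rw [this]; positivity
  have hθ0 : 0 < θ := by linarith
  set g : ℤ → ℝ := fun k => (1 + (k:ℝ)^2) ^ (-θ) with hg
  have hgs : Summable g := by
    have h1 : Summable (fun k : ℤ => |(k:ℝ)| ^ (-(2 * θ)) + (if k = 0 then (1:ℝ) else 0)) := by
      apply Summable.add
      · exact Real.summable_abs_int_rpow hθ2
      · apply summable_of_ne_finset_zero (s := {0})
        intro b hb
        simp at hb
        simp [hb]
    refine Summable.of_nonneg_of_le (fun k => ?_) (fun k => ?_) h1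
    · rw [hg]; positivity
    · rw [hg]; dsimp only
      by_cases hk : k = 0
      · subst hk; simp
        positivity
      · rw [if_neg hk, add_zero]
        have hk' : (0:ℝ) < |(k:ℝ)| := by positivity
        have : |(k:ℝ)| ^ (-(2 * θ)) = ((k:ℝ) ^ 2) ^ (-θ) := by
          rw [← sq_abs, ← Real.rpow_natCast (|(k:ℝ)|) 2, ← Real.rpow_mul hk'.le]
          congr 1; push_cast; ring
        rw [this]
        apply Real.rpow_le_rpow_of_nonpos (by positivity) (by linarith) (by linarith)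
  have key : ∀ x : Z d, sw x ≤ ∏ i, ENNReal.ofReal (g (x i)) := by
    intro x
    unfold sw
    rw [← ENNReal.ofReal_prod_of_nonneg (fun i _ => by rw [hg]; positivity)]
    apply ENNReal.ofReal_le_ofReal
    have hn := nsq_nonneg x
    have hc := cc_ge d
    set ρ := nsq x + cc d with hρ
    have hρ0 : 0 < ρ := by linarith
    have e1 : eta x ^ (2 * d + 1) = ∏ i : Fin d, ρ ^ (-θ) := by
      unfold eta yv
      rw [← hρ, Finset.prod_const, Finset.card_univ, Fintype.card_fin]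
      rw [Real.sqrt_eq_rpow, Real.sqrt_eq_rpow, ← Real.rpow_neg hρ0.le, ← Real.rpow_mul hρ0.le,
        ← Real.rpow_natCast, ← Real.rpow_mul hρ0.le, ← Real.rpow_natCast, ← Real.rpow_mul hρ0.le]
      congr 1
      rw [hθ]; push_cast; field_simp; ring
    rw [e1]
    apply Finset.prod_le_prod
    · intro i _; positivity
    · intro i _
      rw [hg]; dsimp only
      apply Real.rpow_le_rpow_of_nonpos (by positivity) _ (by linarith)
      have := sq_le_nsq x i
      linarith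
  refine ne_top_of_le_ne_top ?_ (ENNReal.tsum_le_tsum key)
  rw [tsum_prod_pow (fun k => ENNReal.ofReal (g k))]
  apply ENNReal.pow_ne_top
  exact hgs.tsum_ofReal_ne_top

lemma nsq_le_two (z u : Z d) : nsq z ≤ 2 * nsq (z + u) + 2 * nsq u := by
  unfold nsq
  rw [Finset.mul_sum, Finset.mul_sum, ← Finset.sum_add_distrib]
  refine Finset.sum_le_sum fun i _ => ?_
  simp only [Pi.add_apply]
  push_cast
  nlinarith [sq_nonneg ((z i : ℝ) + 2 * u i)]

/-- comparison of `yv`: if `ρ' ≤ k² ρ` then `y ≤ k y'` -/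
lemma yv_le_of {x x' : Z d} {k : ℝ} (hk : 0 < k)
    (h : nsq x' + cc d ≤ k ^ 2 * (nsq x + cc d)) : yv (cc d) x ≤ k * yv (cc d) x' := by
  have hc := cc_ge d
  have h1 := nsq_nonneg x
  have h2 := nsq_nonneg x'
  have p1 : 0 < nsq x + cc d := by linarith
  have p2 : 0 < nsq x' + cc d := by linarith
  unfold yv
  rw [← div_eq_mul_inv, le_div_iff₀ (Real.sqrt_pos.mpr p2), inv_mul_le_iff₀ (Real.sqrt_pos.mpr p1)]
  calc Real.sqrt (nsq x' + cc d) ≤ Real.sqrt (k ^ 2 * (nsq x + cc d)) := Real.sqrt_le_sqrt h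
    _ = k * Real.sqrt (nsq x + cc d) := by
        rw [Real.sqrt_mul (by positivity), Real.sqrt_sq hk.le]
    _ = _ := mul_comm _ _

lemma yv_lt_imp {x x' : Z d} {k : ℝ} (hk : 0 < k) (h : k * yv (cc d) x' < yv (cc d) x) :
    k ^ 2 * (nsq x + cc d) < nsq x' + cc d := by
  by_contra hcon
  push Not at hcon
  have := yv_le_of hk hcon
  linarith

lemma pointwise {N : ℕ} (hN : 2 * N < d) (z u : Z d) :
    yv (cc d) (z + u) ^ (d - 2 * N) * yv (cc d) u ^ (2 * d - 2 * N)
      ≤ 4 ^ (d - 2 * N) * yv (cc d) z ^ (d - 2 * N) * yv (cc d) u ^ (2 * d - 2 * N)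
        + 2 ^ (4 * (d - 2 * N) - 1) * yv (cc d) z ^ (d - 2 * N) * eta z * eta (z + u) ^ (2 * d + 1) := by
  have hc := cc_ge d
  set α := d - 2 * N with hα
  have hα1 : 1 ≤ α := by omega
  have y1 := yv_pos hc (z + u)
  have y2 := yv_pos hc u
  have y3 := yv_pos hc z
  have e1 := eta_pos (z + u)
  have e2 := eta_pos u
  have e3 := eta_pos z
  by_cases hcase : yv (cc d) (z + u) ≤ 4 * yv (cc d) z
  · have h1 : yv (cc d) (z + u) ^ α ≤ 4 ^ α * yv (cc d) z ^ α := by
      rw [← mul_pow]; exact pow_le_pow_left₀ y1.le hcase _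
    have h2 : 0 ≤ 2 ^ (4 * α - 1) * yv (cc d) z ^ α * eta z * eta (z + u) ^ (2 * d + 1) := by
      positivity
    have h3 := mul_le_mul_of_nonneg_right h1 (pow_nonneg y2.le (2 * d - 2 * N))
    linarith
  · push Not at hcase
    have h1 := yv_lt_imp (by norm_num) hcase
    have h2 := nsq_le_two z u
    have n1 := nsq_nonneg (z + u)
    have n2 := nsq_nonneg u
    have h3 : yv (cc d) u ≤ 2 * yv (cc d) z := by
      apply yv_le_of (by norm_num)
      nlinarith
    have h4 : eta u ≤ 2 * eta z := by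
      have : eta u ^ 2 ≤ (2 * eta z) ^ 2 := by
        rw [mul_pow, eta_sq, eta_sq]; nlinarith
      exact (pow_le_pow_iff_left₀ e2.le (by positivity) (by norm_num)).mp this
    have h5 : eta u ≤ eta (z + u) := by
      apply Real.sqrt_le_sqrt
      nlinarith
    have e4 : yv (cc d) u ^ (2 * d - 2 * N) = eta u ^ (4 * N + 1) * eta u ^ (4 * α - 1) := by
      rw [← eta_sq, ← pow_mul, ← pow_add]; congr 1; omega
    have e5 : yv (cc d) (z + u) ^ α = eta (z + u) ^ (2 * α) := by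
      rw [← eta_sq, ← pow_mul]
    have e6 : yv (cc d) z ^ α * eta z = eta z ^ (2 * α + 1) := by
      rw [← eta_sq, ← pow_mul, pow_succ]
    have h6 : eta u ^ (4 * α - 1) ≤ 2 ^ (4 * α - 1) * eta z ^ (2 * α + 1) := by
      calc eta u ^ (4 * α - 1) ≤ (2 * eta z) ^ (4 * α - 1) := pow_le_pow_left₀ e2.le h4 _
        _ = 2 ^ (4 * α - 1) * eta z ^ (4 * α - 1) := mul_pow _ _ _
        _ ≤ _ := by
          gcongr ?_ * ?_
          exact pow_le_pow_of_le_one e3.le (eta_le_one z) (by omega)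
    have h7 : eta u ^ (4 * N + 1) ≤ eta (z + u) ^ (4 * N + 1) := pow_le_pow_left₀ e2.le h5 _
    have h0 : 0 ≤ 4 ^ α * yv (cc d) z ^ α * yv (cc d) u ^ (2 * d - 2 * N) := by positivity
    calc yv (cc d) (z + u) ^ α * yv (cc d) u ^ (2 * d - 2 * N)
        = eta (z + u) ^ (2 * α) * (eta u ^ (4 * N + 1) * eta u ^ (4 * α - 1)) := by rw [e4, e5]
      _ ≤ eta (z + u) ^ (2 * α) * (eta (z + u) ^ (4 * N + 1) * (2 ^ (4 * α - 1) * eta z ^ (2 * α + 1))) := by
          gcongr
      _ = 2 ^ (4 * α - 1) * (eta z ^ (2 * α + 1)) * eta (z + u) ^ (2 * α + (4 * N + 1)) := by ring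
      _ = 2 ^ (4 * α - 1) * (yv (cc d) z ^ α * eta z) * eta (z + u) ^ (2 * d + 1) := by
          rw [e6]; congr 2; omega
      _ = 2 ^ (4 * α - 1) * yv (cc d) z ^ α * eta z * eta (z + u) ^ (2 * d + 1) := by ring
      _ ≤ _ := by linarith

lemma eta_tendsto : Tendsto (fun x : Z d => eta x) cofinite (𝓝 0) := by
  have h1 : Tendsto (fun x : Z d => nsq x) cofinite atTop := by
    rw [tendsto_atTop]
    intro b
    rw [eventually_cofinite]
    refine (finite_nsq (d := d) b).subset ?_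
    intro x hx
    simp at hx ⊢
    exact hx.le
  have h2 : Tendsto (fun x : Z d => yv (cc d) x) cofinite (𝓝 0) := by
    unfold yv
    apply Tendsto.inv_tendsto_atTop
    apply Real.tendsto_sqrt_atTop.comp
    exact tendsto_atTop_add_const_right _ _ h1
  have h3 := (Real.continuous_sqrt.tendsto 0).comp h2
  rw [Real.sqrt_zero] at h3
  exact h3

lemma Y_beta_le {N : ℕ} (hN : 2 * N < d) (u : Z d) : Y (cc d) (2 * d - 2 * N) u ≤ sw u := by
  unfold Y sw
  apply ENNReal.ofReal_le_ofReal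
  rw [← eta_sq, ← pow_mul]
  exact pow_le_pow_of_le_one (eta_pos u).le (eta_le_one u) (by omega)

/-- the tail estimate -/
lemma tail {N : ℕ} (hN : 2 * N < d) (ε : ℝ≥0∞) (hε : ε ≠ 0) : ∃ F : Finset (Z d),
    ∀ᶠ z : Z d in cofinite, ∑' u : {u : Z d // u ∉ F}, Y (cc d) (d - 2 * N) (z + u.1)
      * Y (cc d) (2 * d - 2 * N) u.1 ≤ ε * Y (cc d) (d - 2 * N) z := by
  classical
  have hd : 0 < d := by omega
  have hc := cc_ge d
  have hs := sw_sum (d := d) hd
  set A : ℝ≥0∞ := ENNReal.ofReal (4 ^ (d - 2 * N)) with hA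
  set B : ℝ≥0∞ := ENNReal.ofReal (2 ^ (4 * (d - 2 * N) - 1)) with hB
  have hYs : ∑' u : Z d, Y (cc d) (2 * d - 2 * N) u ≠ ⊤ :=
    ne_top_of_le_ne_top hs (ENNReal.tsum_le_tsum fun u => Y_beta_le hN u)
  have ht := ENNReal.tendsto_tsum_compl_atTop_zero hYs
  have ht2 := ENNReal.Tendsto.const_mul (a := A) ht (Or.inr ENNReal.ofReal_ne_top)
  rw [mul_zero] at ht2
  have hε2 : 0 < ε / 2 := ENNReal.div_pos hε (by simp)
  obtain ⟨F, hF⟩ := ((ENNReal.tendsto_nhds_zero.mp ht2) (ε / 2) hε2).exists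
  refine ⟨F, ?_⟩
  have hη : Tendsto (fun z : Z d => B * ENNReal.ofReal (eta z) * ∑' x : Z d, sw x) cofinite (𝓝 0) := by
    have h1 : Tendsto (fun z : Z d => ENNReal.ofReal (eta z)) cofinite (𝓝 0) := by
      have := (ENNReal.continuous_ofReal.tendsto 0).comp (eta_tendsto (d := d))
      rwa [ENNReal.ofReal_zero] at this
    have h2 := ENNReal.Tendsto.const_mul (a := B) h1 (Or.inr ENNReal.ofReal_ne_top)
    rw [mul_zero] at h2
    have h3 := ENNReal.Tendsto.mul_const (b := ∑' x : Z d, sw x) h2 (Or.inr hs)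
    rwa [zero_mul] at h3
  filter_upwards [(ENNReal.tendsto_nhds_zero.mp hη) (ε / 2) hε2] with z hz
  have hpt : ∀ u : Z d, Y (cc d) (d - 2 * N) (z + u) * Y (cc d) (2 * d - 2 * N) u
      ≤ Y (cc d) (d - 2 * N) z * (A * Y (cc d) (2 * d - 2 * N) u)
        + Y (cc d) (d - 2 * N) z * (B * ENNReal.ofReal (eta z) * sw (z + u)) := by
    intro u
    have h := pointwise hN z u
    have y1 := (yv_pos hc (z + u)).le
    have y2 := (yv_pos hc u).le
    have y3 := (yv_pos hc z).le
    have e1 := (eta_pos (z + u)).le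
    have e3 := (eta_pos z).le
    unfold Y sw
    rw [hA, hB]
    rw [← ENNReal.ofReal_mul (by positivity), ← ENNReal.ofReal_mul (by positivity),
      ← ENNReal.ofReal_mul (by positivity), ← ENNReal.ofReal_mul (by positivity),
      ← ENNReal.ofReal_mul (by positivity), ← ENNReal.ofReal_mul (by positivity),
      ← ENNReal.ofReal_add (by positivity) (by positivity)]
    apply ENNReal.ofReal_le_ofReal
    refine h.trans (le_of_eq ?_)
    ring
  calc ∑' u : {u : Z d // u ∉ F}, Y (cc d) (d - 2 * N) (z + u.1) * Y (cc d) (2 * d - 2 * N) u.1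
      ≤ ∑' u : {u : Z d // u ∉ F}, (Y (cc d) (d - 2 * N) z * (A * Y (cc d) (2 * d - 2 * N) u.1)
        + Y (cc d) (d - 2 * N) z * (B * ENNReal.ofReal (eta z) * sw (z + u.1))) :=
        ENNReal.tsum_le_tsum fun u => hpt u.1
    _ = Y (cc d) (d - 2 * N) z * (A * ∑' u : {u : Z d // u ∉ F}, Y (cc d) (2 * d - 2 * N) u.1)
        + Y (cc d) (d - 2 * N) z * (B * ENNReal.ofReal (eta z) * ∑' u : {u : Z d // u ∉ F}, sw (z + u.1)) := by
        rw [ENNReal.tsum_add, ENNReal.tsum_mul_left, ENNReal.tsum_mul_left, ENNReal.tsum_mul_left,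
          ENNReal.tsum_mul_left]
    _ ≤ Y (cc d) (d - 2 * N) z * (ε / 2)
        + Y (cc d) (d - 2 * N) z * (B * ENNReal.ofReal (eta z) * ∑' x : Z d, sw x) := by
        gcongr
        exact ENNReal.tsum_comp_le_tsum_of_injective (f := fun u : {u : Z d // u ∉ F} => z + u.1)
                ((add_right_injective z).comp Subtype.val_injective) sw
    _ ≤ Y (cc d) (d - 2 * N) z * (ε / 2) + Y (cc d) (d - 2 * N) z * (ε / 2) := by gcongr
    _ = ε * Y (cc d) (d - 2 * N) z := by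
        rw [← mul_add, ENNReal.add_halves, mul_comm]

end Pool.Agent.V11124.MS
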