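import Mathlib
import Pool.Agent.V11124.MS.Tail
import Pool.Agent.V11124.MS.Err

/-! Analytic preparations for the main theorem. -/

namespace Pool.Agent.V11124.MS

open MeasureTheory ProbabilityTheory Filter
open scoped ENNReal BigOperators Topology

variable {d : ℕ}

lemma nsq_neg (x : Z d) : nsq (-x) = nsq x := by
  unfold nsq; simp

lemma Y_neg (c : ℝ) (m : ℕ) (x : Z d) : Y c m (-x) = Y c m x := by
  unfold Y yv; rw [nsq_neg]

lemma p_neg (n : ℕ) (x : Z d) : p n (-x) = p n x := by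
  induction n generalizing x with
  | zero => simp [p, dl]
  | succ n ih =>
    rw [p, Function.iterate_succ_apply']
    change P (p n) (-x) = P (p n) x
    rw [P_eq_sub]
    unfold P
    congr 1
    refine Finset.sum_congr rfl fun s _ => ?_
    rw [← ih]
    congr 1
    abel

lemma GN_neg (N : ℕ) (x : Z d) : GN N (-x) = GN N x := by
  rw [← tsum_p, ← tsum_p]
  simp only [p_neg]

lemma Y_shift (b : Z d) (m : ℕ) : ∃ C : ℝ≥0∞, C ≠ ⊤ ∧ ∀ u : Z d,
    Y (cc d) m (u + b) ≤ C * Y (cc d) m u := by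
  have hc := cc_ge d
  set k : ℝ := 2 + 2 * nsq b with hk
  have hb := nsq_nonneg b
  have hk0 : 0 < k := by positivity
  refine ⟨ENNReal.ofReal (k ^ m), ENNReal.ofReal_ne_top, fun u => ?_⟩
  unfold Y
  rw [← ENNReal.ofReal_mul (by positivity)]
  apply ENNReal.ofReal_le_ofReal
  rw [← mul_pow]
  apply pow_le_pow_left₀ (yv_pos hc _).le
  apply yv_le_of hk0
  have h1 := nsq_le_two u b
  have h2 := nsq_nonneg (u + b)
  have h3 : 1 ≤ k := by linarith
  have h4 : k ≤ k ^ 2 := by nlinarith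
  calc nsq u + cc d ≤ k * (nsq (u + b) + cc d) := by rw [hk]; nlinarith
    _ ≤ k ^ 2 * (nsq (u + b) + cc d) := by
      apply mul_le_mul_of_nonneg_right h4; linarith

lemma nsq_tendsto : Tendsto (fun x : Z d => nsq x) cofinite atTop := by
  rw [tendsto_atTop]
  intro b
  rw [eventually_cofinite]
  refine (finite_nsq (d := d) b).subset ?_
  intro x hx
  simp at hx ⊢
  exact hx.le

lemma Y_two_tendsto : Tendsto (fun x : Z d => Y (cc d) 2 x) cofinite (𝓝 0) := by
  have h1 := (eta_tendsto (d := d)).pow 4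
  rw [zero_pow (by norm_num)] at h1
  have h2 := (ENNReal.continuous_ofReal.tendsto 0).comp h1
  rw [ENNReal.ofReal_zero] at h2
  refine h2.congr fun x => ?_
  unfold Y
  simp only [Function.comp]
  rw [← eta_sq, ← pow_mul]

lemma exists_eps (K ε : ℝ≥0∞) (hK : K ≠ ⊤) (hε : ε ≠ 0) : ∃ ε₁ : ℝ≥0∞, ε₁ ≠ 0 ∧ K * ε₁ ≤ ε := by
  refine ⟨ε / (K + 1), ?_, ?_⟩
  · exact (ENNReal.div_pos hε (ENNReal.add_ne_top.mpr ⟨hK, by simp⟩)).ne'
  · calc K * (ε / (K + 1)) ≤ (K + 1) * (ε / (K + 1)) := by gcongr; exact le_self_add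
      _ ≤ ε := ENNReal.mul_div_le

section

variable {M : ℕ}

lemma GN_ne_top (hN : 2 * (M + 1) < d) (k : ℕ) (hk : k ≤ M + 1) (x : Z d) : GN k x ≠ ⊤ := by
  obtain ⟨C, hC, h⟩ := GN_upper hN (by omega) k hk
  exact ne_top_of_le_ne_top (ENNReal.mul_ne_top hC (Y_ne_top _ _ _)) (h x)

lemma GN_ne_zero (hN : 2 * (M + 1) < d) (x : Z d) : GN (M + 1) x ≠ 0 := by
  obtain ⟨C, hC, h⟩ := GN_lower hN (by omega) (M + 1) (by omega) le_rfl
  intro h0
  have h1 := h x
  rw [h0, mul_zero] at h1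
  exact Y_ne_zero (cc_ge d) _ x (le_antisymm h1 bot_le)

lemma small_enn (hN : 2 * (M + 1) < d) : ∃ K : ℝ≥0∞, K ≠ ⊤ ∧ ∀ x : Z d,
    Y (cc d) (d - 2 * M) x ≤ K * Y (cc d) 2 x * GN (M + 1) x := by
  obtain ⟨C, hC, h⟩ := GN_lower hN (by omega) (M + 1) (by omega) le_rfl
  refine ⟨C, hC, fun x => ?_⟩
  have e : d - 2 * M = (d - 2 * (M + 1)) + 2 := by omega
  rw [e, Y_add (cc_ge d)]
  calc Y (cc d) (d - 2 * (M + 1)) x * Y (cc d) 2 x ≤ (C * GN (M + 1) x) * Y (cc d) 2 x := by
        gcongr; exact h x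
    _ = _ := by ring

lemma good (hN : 2 * (M + 1) < d) :
    Good (fun x : Z d => (GN (M + 1) x).toReal) (fun x => (GN M x).toReal) := by
  have hd : 3 ≤ d := by omega
  have hc := cc_ge d
  have hfin : ∀ x : Z d, GN (M + 1) x ≠ ⊤ := GN_ne_top hN (M + 1) le_rfl
  have hfin0 : ∀ x : Z d, GN M x ≠ ⊤ := GN_ne_top hN M (by omega)
  have hne := GN_ne_zero hN
  obtain ⟨C1, hC1, hU⟩ := GN_upper hN hd (M + 1) le_rfl
  obtain ⟨C0, hC0, hU0⟩ := GN_upper hN hd M (by omega)
  obtain ⟨C2, hC2, hL⟩ := GN_lower hN hd (M + 1) (by omega) le_rfl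
  constructor
  · intro x; exact ENNReal.toReal_pos (hne x) (hfin x)
  · intro x; exact ENNReal.toReal_nonneg
  · intro x
    have h1 : GN (d := d) (M + 1) x = GN M x + P (GN (M + 1)) x := by
      conv_lhs => rw [GN_succ, Psum_eq]
      rw [GN_succ]; rfl
    have h2 : P (GN (M + 1)) x ≠ ⊤ := by
      intro ht; rw [ht, add_top] at h1; exact hfin x h1
    have h3 : (P (GN (M + 1)) x).toReal = (2*d:ℝ)⁻¹ * ∑ e : Fin d × Bool, (GN (M + 1) (x + st e)).toReal := by
      unfold P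
      rw [ENNReal.toReal_mul, ENNReal.toReal_sum (fun e _ => hfin _), ENNReal.toReal_inv]
      congr 2
    change (GN (M + 1) x).toReal = _
    rw [h1, ENNReal.toReal_add (hfin0 x) h2, h3, add_comm]
  · intro ε hε
    obtain ⟨K, hK, hKx⟩ := small_enn hN
    have h1 := ENNReal.Tendsto.const_mul (a := C0 * K) (Y_two_tendsto (d := d))
      (Or.inr (ENNReal.mul_ne_top hC0 hK))
    rw [mul_zero] at h1
    filter_upwards [(ENNReal.tendsto_nhds_zero.mp h1) (ENNReal.ofReal ε) (by simpa using hε)] with x hx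
    have h2 : GN M x ≤ ENNReal.ofReal ε * GN (M + 1) x := by
      calc GN M x ≤ C0 * Y (cc d) (d - 2 * M) x := hU0 x
        _ ≤ C0 * (K * Y (cc d) 2 x * GN (M + 1) x) := by gcongr; exact hKx x
        _ = (C0 * K * Y (cc d) 2 x) * GN (M + 1) x := by ring
        _ ≤ _ := by gcongr
    have h3 := ENNReal.toReal_mono (ENNReal.mul_ne_top ENNReal.ofReal_ne_top (hfin x)) h2
    rwa [ENNReal.toReal_mul, ENNReal.toReal_ofReal hε.le] at h3
  · set α := d - 2 * (M + 1) with hα
    refine ⟨(C1 * 2 ^ α * C2).toReal, fun v => ?_⟩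
    have h1 := (nsq_tendsto (d := d)).eventually (eventually_ge_atTop (nsq v))
    filter_upwards [ev_shift h1 v] with x hx
    have hy : yv (cc d) (x + v) ≤ 2 * yv (cc d) x := by
      apply yv_le_of (by norm_num)
      have := nsq_le_two x v
      nlinarith
    have hY : Y (cc d) α (x + v) ≤ 2 ^ α * Y (cc d) α x := by
      unfold Y
      have e2 : (2 : ℝ≥0∞) ^ α = ENNReal.ofReal (2 ^ α) := by
        rw [ENNReal.ofReal_pow (by norm_num)]; simp
      rw [e2, ← ENNReal.ofReal_mul (by positivity), ← mul_pow]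
      exact ENNReal.ofReal_le_ofReal (pow_le_pow_left₀ (yv_pos hc _).le hy _)
    have h2 : GN (M + 1) (x + v) ≤ (C1 * 2 ^ α * C2) * GN (M + 1) x := by
      calc GN (M + 1) (x + v) ≤ C1 * Y (cc d) α (x + v) := hU _
        _ ≤ C1 * (2 ^ α * Y (cc d) α x) := by gcongr
        _ ≤ C1 * (2 ^ α * (C2 * GN (M + 1) x)) := by gcongr; exact hL x
        _ = _ := by ring
    have hK : C1 * 2 ^ α * C2 ≠ ⊤ :=
      ENNReal.mul_ne_top (ENNReal.mul_ne_top hC1 (ENNReal.pow_ne_top (by simp))) hC2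
    have h3 := ENNReal.toReal_mono (ENNReal.mul_ne_top hK (hfin x)) h2
    rwa [ENNReal.toReal_mul] at h3

lemma GN_ratio (hN : 2 * (M + 1) < d) (u : Z d) :
    Tendsto (fun z : Z d => (GN (M + 1) (z + u)).toReal / (GN (M + 1) z).toReal) cofinite (𝓝 1) :=
  (good hN).ratio (by omega) u

end

lemma tsum_split (F : Finset (Z d)) (f : Z d → ℝ≥0∞) :
    ∑' u, f u = ∑ u ∈ F, f u + ∑' u : {u : Z d // u ∉ F}, f u.1 := by
  classical
  have h1 : ∀ u, f u = (if u ∈ F then f u else 0) + (if u ∉ F then f u else 0) := by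
    intro u; by_cases h : u ∈ F <;> simp [h]
  have h2 : ∑' u, f u = ∑' u, ((if u ∈ F then f u else 0) + (if u ∉ F then f u else 0)) :=
    tsum_congr h1
  rw [h2, ENNReal.tsum_add]
  congr 1
  · rw [tsum_eq_sum (s := F)]
    · exact Finset.sum_congr rfl fun u hu => by rw [if_pos hu]
    · intro u hu; rw [if_neg hu]
  · have hsupp : Function.support (fun u : Z d => if u ∉ F then f u else 0)
        ⊆ Set.range (Subtype.val : {u : Z d // u ∉ F} → Z d) := by
      intro u hu
      rw [Function.mem_support] at hu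
      have : u ∉ F := by
        intro h
        apply hu
        simp [h]
      exact ⟨⟨u, this⟩, rfl⟩
    rw [← Subtype.val_injective.tsum_eq hsupp]
    refine tsum_congr fun u => ?_
    rw [if_pos u.2]

section Q

variable {M : ℕ}

/-- negligible with respect to the Green function, uniformly for large windows -/
def Q (M : ℕ) (T : ℕ → Z d → ℝ≥0∞) : Prop :=
  ∀ ε : ℝ≥0∞, ε ≠ 0 → ∃ L₀ : ℕ, ∀ L, L₀ ≤ L → ∀ᶠ z in cofinite, T L z ≤ ε * GN (M + 1) z

lemma Q_sum {ι : Type*} (s : Finset ι) (T : ι → ℕ → Z d → ℝ≥0∞) (h : ∀ i ∈ s, Q M (T i)) :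
    Q M (fun L z => ∑ i ∈ s, T i L z) := by
  classical
  induction s using Finset.induction_on with
  | empty => intro ε _; exact ⟨0, fun L _ => Eventually.of_forall fun z => by simp⟩
  | insert a s ha ih =>
    intro ε hε
    have hε2 : ε / 2 ≠ 0 := (ENNReal.div_pos hε (by simp)).ne'
    obtain ⟨L1, h1⟩ := h a (Finset.mem_insert_self a s) (ε / 2) hε2
    obtain ⟨L2, h2⟩ := ih (fun i hi => h i (Finset.mem_insert_of_mem hi)) (ε / 2) hε2
    refine ⟨max L1 L2, fun L hL => ?_⟩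
    filter_upwards [h1 L ((le_max_left _ _).trans hL), h2 L ((le_max_right _ _).trans hL)] with z hz1 hz2
    rw [Finset.sum_insert ha]
    calc _ ≤ ε / 2 * GN (M + 1) z + ε / 2 * GN (M + 1) z := add_le_add hz1 hz2
      _ = ε * GN (M + 1) z := by rw [← add_mul, ENNReal.add_halves]

lemma Q_term (hN : 2 * (M + 1) < d) (J : Finset (Fin (M + 1))) (a a' : Z d) :
    Q M (fun L z => ∑' v : Z d, GN (M + 1) v * KL L J (a - z - v) (a' - z - v)) := by
  have hd : 3 ≤ d := by omega
  have hc := cc_ge d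
  have hJ : J.card ≤ M + 1 := by
    have := Finset.card_le_univ J
    simpa using this
  obtain ⟨C1, hC1, hU⟩ := GN_upper hN hd (M + 1) le_rfl
  obtain ⟨C2, hC2, hL⟩ := GN_lower hN hd (M + 1) (by omega) le_rfl
  obtain ⟨D1, hD1, hJ1⟩ := GN_upper hN hd J.card hJ
  obtain ⟨D2, hD2, hJ2⟩ := GN_upper hN hd (M + 1 - J.card) (by omega)
  set b := a' - a with hb
  obtain ⟨D3, hD3, hJ3⟩ := Y_shift b (d - 2 * (M + 1 - J.card))
  obtain ⟨D4, hD4, hJ4⟩ := Y_shift (-a) (d - 2 * (M + 1))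
  set C3 := D1 * D2 * D3 with hC3
  have hC3t : C3 ≠ ⊤ := ENNReal.mul_ne_top (ENNReal.mul_ne_top hD1 hD2) hD3
  have hKb : ∀ L (u : Z d), KL L J u (u + b) ≤ C3 * Y (cc d) (2 * d - 2 * (M + 1)) u := by
    intro L u
    refine (KL_le L J _ _).trans ?_
    have e : 2 * d - 2 * (M + 1) = (d - 2 * J.card) + (d - 2 * (M + 1 - J.card)) := by omega
    rw [e, Y_add hc]
    calc GN J.card u * GN (M + 1 - J.card) (u + b)
        ≤ (D1 * Y (cc d) (d - 2 * J.card) u) * (D2 * (D3 * Y (cc d) (d - 2 * (M + 1 - J.card)) u)) := by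
          gcongr
          · exact hJ1 u
          · refine (hJ2 _).trans ?_
            gcongr
            exact hJ3 u
      _ = _ := by rw [hC3]; ring
  have hKfin : ∀ u : Z d, GN J.card u * GN (M + 1 - J.card) (u + b) ≠ ⊤ := fun u =>
    ENNReal.mul_ne_top (GN_ne_top hN _ hJ u) (GN_ne_top hN _ (by omega) _)
  have hKt : ∀ u : Z d, Tendsto (fun L => KL L J u (u + b)) atTop (𝓝 0) := by
    intro u
    rw [ENNReal.tendsto_atTop_zero]
    intro ε hε
    exact KL_small J _ _ (hKfin u) ε hε.ne'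
  -- change of variables
  have hsub : ∀ L z, ∑' v : Z d, GN (M + 1) v * KL L J (a - z - v) (a' - z - v)
      = ∑' u : Z d, GN (M + 1) (z - a + u) * KL L J u (u + b) := by
    intro L z
    rw [← (Equiv.subLeft (a - z)).tsum_eq]
    refine tsum_congr fun u => ?_
    simp only [Equiv.subLeft_apply]
    have e1 : a - z - u = -(z - a + u) := by abel
    have e2 : a - z - (a - z - u) = u := by abel
    have e3 : a' - z - (a - z - u) = u + b := by rw [hb]; abel
    rw [e2, e3, e1, GN_neg]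
  intro ε hε
  have hε2 : ε / 2 ≠ 0 := (ENNReal.div_pos hε (by simp)).ne'
  have hKK : C1 * C3 * D4 * C2 ≠ ⊤ :=
    ENNReal.mul_ne_top (ENNReal.mul_ne_top (ENNReal.mul_ne_top hC1 hC3t) hD4) hC2
  obtain ⟨ε₁, hε₁, hKε⟩ := exists_eps _ _ hKK hε2
  obtain ⟨F, hF⟩ := tail hN ε₁ hε₁
  choose D hD hDs using fun u : Z d => Y_shift (-a + u) (d - 2 * (M + 1))
  -- the finite part
  have hfin : Tendsto (fun L => ∑ u ∈ F, (C1 * D u * C2) * KL L J u (u + b)) atTop (𝓝 0) := by
    have := tendsto_finsetSum F (f := fun u L => (C1 * D u * C2) * KL L J u (u + b)) (x := atTop)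
      (a := fun _ => (0:ℝ≥0∞)) (fun u _ => by
        have := ENNReal.Tendsto.const_mul (a := C1 * D u * C2) (hKt u)
          (Or.inr (ENNReal.mul_ne_top (ENNReal.mul_ne_top hC1 (hD u)) hC2))
        rwa [mul_zero] at this)
    simpa using this
  obtain ⟨L0, hL0⟩ := (ENNReal.tendsto_atTop_zero.mp hfin) (ε / 2) (pos_iff_ne_zero.mpr hε2)
  refine ⟨L0, fun L hLL => ?_⟩
  filter_upwards [ev_shift hF (-a)] with z hz
  rw [hsub, tsum_split F]
  have p1 : ∑ u ∈ F, GN (M + 1) (z - a + u) * KL L J u (u + b) ≤ ε / 2 * GN (M + 1) z := by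
    calc ∑ u ∈ F, GN (M + 1) (z - a + u) * KL L J u (u + b)
        ≤ ∑ u ∈ F, ((C1 * D u * C2) * KL L J u (u + b)) * GN (M + 1) z := by
          refine Finset.sum_le_sum fun u _ => ?_
          calc GN (M + 1) (z - a + u) * KL L J u (u + b)
              ≤ (C1 * (D u * (C2 * GN (M + 1) z))) * KL L J u (u + b) := by
                gcongr
                refine (hU _).trans ?_
                gcongr
                have h1 := hDs u z
                have e : z + (-a + u) = z - a + u := by abel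
                rw [e] at h1
                refine h1.trans ?_
                gcongr
                exact hL z
            _ = _ := by ring
      _ = (∑ u ∈ F, (C1 * D u * C2) * KL L J u (u + b)) * GN (M + 1) z := by rw [Finset.sum_mul]
      _ ≤ _ := by gcongr; exact hL0 L hLL
  have p2 : ∑' u : {u : Z d // u ∉ F}, GN (M + 1) (z - a + u.1) * KL L J u.1 (u.1 + b)
      ≤ ε / 2 * GN (M + 1) z := by
    calc ∑' u : {u : Z d // u ∉ F}, GN (M + 1) (z - a + u.1) * KL L J u.1 (u.1 + b)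
        ≤ ∑' u : {u : Z d // u ∉ F}, (C1 * C3) * (Y (cc d) (d - 2 * (M + 1)) (z + -a + u.1)
          * Y (cc d) (2 * d - 2 * (M + 1)) u.1) := by
          refine ENNReal.tsum_le_tsum fun u => ?_
          calc GN (M + 1) (z - a + u.1) * KL L J u.1 (u.1 + b)
              ≤ (C1 * Y (cc d) (d - 2 * (M + 1)) (z - a + u.1))
                * (C3 * Y (cc d) (2 * d - 2 * (M + 1)) u.1) := by
                gcongr
                · exact hU _
                · exact hKb L u.1
            _ = _ := by rw [sub_eq_add_neg]; ring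
      _ = (C1 * C3) * ∑' u : {u : Z d // u ∉ F}, (Y (cc d) (d - 2 * (M + 1)) (z + -a + u.1)
          * Y (cc d) (2 * d - 2 * (M + 1)) u.1) := ENNReal.tsum_mul_left
      _ ≤ (C1 * C3) * (ε₁ * Y (cc d) (d - 2 * (M + 1)) (z + -a)) := by gcongr
      _ ≤ (C1 * C3) * (ε₁ * (D4 * (C2 * GN (M + 1) z))) := by
          gcongr
          refine (hJ4 z).trans ?_
          gcongr
          exact hL z
      _ = (C1 * C3 * D4 * C2 * ε₁) * GN (M + 1) z := by ring
      _ ≤ _ := by gcongr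
  calc _ ≤ ε / 2 * GN (M + 1) z + ε / 2 * GN (M + 1) z := add_le_add p1 p2
    _ = ε * GN (M + 1) z := by rw [← add_mul, ENNReal.add_halves]

end Q

end Pool.Agent.V11124.MS
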