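import Mathlib
import Pool.Agent.V11124.MS.Prep

/-! Main theorem: ratio limit for hitting probabilities of Minkowski sums of ranges. -/

namespace Pool.Agent.V11124.MS

open MeasureTheory ProbabilityTheory Filter
open scoped ENNReal BigOperators Topology

variable {d M : ℕ} {Ω : Type*} [mΩ : MeasurableSpace Ω] {μ : Measure Ω} [IsProbabilityMeasure μ]
  {X : Fin (M + 1) × ℕ → Ω → Z d}

lemma BL_Q (hN : 2 * (M + 1) < d) (hX : IsSRW μ X) (A : Finset (Z d)) :
    Q M (fun L z => BL μ X A L z) := by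
  have h1 : Q M (fun L z => ∑ a ∈ A, ∑ a' ∈ A, ∑ J : Finset (Fin (M + 1)),
      ∑' v : Z d, GN (M + 1) v * KL L J (a - z - v) (a' - z - v)) := by
    apply Q_sum
    intro a _
    apply Q_sum
    intro a' _
    apply Q_sum
    intro J _
    exact Q_term hN J a a'
  intro ε hε
  obtain ⟨L0, h⟩ := h1 ε hε
  refine ⟨L0, fun L hL => ?_⟩
  filter_upwards [h L hL] with z hz
  exact (BL_le (by omega) hX A L z).trans hz

/-! ### boundary term -/

lemma P_Y_le (hd : 0 < d) (m : ℕ) : ∃ C : ℝ≥0∞, C ≠ ⊤ ∧ ∀ x : Z d,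
    P (Y (cc d) m) x ≤ C * Y (cc d) m x := by
  choose D hD hDs using fun e : Fin d × Bool => Y_shift (st e) m
  refine ⟨(2 * d : ℝ≥0∞)⁻¹ * ∑ e : Fin d × Bool, D e, ?_, fun x => ?_⟩
  · apply ENNReal.mul_ne_top
    · rw [ENNReal.inv_ne_top]
      have : (d : ℝ≥0∞) ≠ 0 := by exact_mod_cast hd.ne'
      simp [this]
    · rw [ENNReal.sum_ne_top]; intro e _; exact hD e
  · unfold P
    rw [mul_assoc, Finset.sum_mul]
    gcongr with e
    exact hDs e x

lemma Pn_Y_le (hd : 0 < d) (m l : ℕ) : ∃ C : ℝ≥0∞, C ≠ ⊤ ∧ ∀ x : Z d,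
    (P^[l] (Y (cc d) m)) x ≤ C * Y (cc d) m x := by
  obtain ⟨C, hC, h⟩ := P_Y_le (d := d) hd m
  refine ⟨C ^ l, ENNReal.pow_ne_top hC, ?_⟩
  induction l with
  | zero => intro x; simp
  | succ l ih =>
    intro x
    rw [Function.iterate_succ_apply']
    have h1 : P^[l] (Y (cc d) m) ≤ fun x => C ^ l * Y (d := d) (cc d) m x := ih
    refine (P_mono h1 x).trans ?_
    rw [P_mul]
    calc C ^ l * P (Y (cc d) m) x ≤ C ^ l * (C * Y (cc d) m x) := by gcongr; exact h x
      _ = _ := by ring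

lemma boundary_sum (i : Fin (M + 1)) (L : ℕ) (x : Z d) :
    ∑' n : Fin (M + 1) → ℕ, (if n i < L then p (∑ i, n i) x else 0)
      = ∑ l ∈ Finset.range L, (P^[l] (GN M)) x := by
  rw [← (Fin.insertNthEquiv (fun _ : Fin (M+1) => ℕ) i).tsum_eq, ENNReal.tsum_prod']
  have h1 : ∀ (l : ℕ) (n : Fin M → ℕ),
      (if (Fin.insertNthEquiv (fun _ : Fin (M+1) => ℕ) i) (l, n) i < L then
        p (∑ j, (Fin.insertNthEquiv (fun _ : Fin (M+1) => ℕ) i) (l, n) j) x else 0)
      = if l < L then p (l + ∑ j, n j) x else 0 := by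
    intro l n
    rw [Fin.sum_univ_succAbove _ i]
    simp [Fin.insertNthEquiv]
  simp only [h1]
  have h2 : ∀ l : ℕ, ∑' n : Fin M → ℕ, (if l < L then p (l + ∑ j, n j) x else 0)
      = if l < L then (P^[l] (GN M)) x else 0 := by
    intro l
    by_cases hl : l < L
    · simp only [if_pos hl]
      have : GN (d := d) M = fun x => ∑' n : Fin M → ℕ, p (∑ i, n i) x := by
        funext x; exact (tsum_p M x).symm
      rw [this, Pn_tsum]
      refine tsum_congr fun n => ?_
      rw [p, p, ← Function.iterate_add_apply]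
    · simp only [if_neg hl, tsum_zero]
  simp only [h2]
  rw [tsum_eq_sum (s := Finset.range L)]
  · exact Finset.sum_congr rfl fun l hl => by rw [if_pos (Finset.mem_range.mp hl)]
  · intro l hl
    rw [if_neg (fun h => hl (Finset.mem_range.mpr h))]

lemma DL_small (hN : 2 * (M + 1) < d) (hX : IsSRW μ X) (A : Finset (Z d)) (L : ℕ)
    (ε : ℝ≥0∞) (hε : ε ≠ 0) : ∀ᶠ z in cofinite, DL μ X A L z ≤ ε * GN (M + 1) z := by
  classical
  have hd : 0 < d := by omega
  obtain ⟨C0, hC0, hU0⟩ := GN_upper hN (by omega) M (by omega)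
  choose E hE hEs using fun l : ℕ => Pn_Y_le (d := d) hd (d - 2 * M) l
  choose D hD hDs using fun b : Z d => Y_shift (-b) (d - 2 * M)
  obtain ⟨K, hK, hKx⟩ := small_enn hN
  set C : ℝ≥0∞ := ∑ a ∈ A, ∑ _i : Fin (M + 1), ∑ l ∈ Finset.range L, C0 * E l * D a * K with hC
  have hCt : C ≠ ⊤ := by
    rw [hC, ENNReal.sum_ne_top]; intro a _
    rw [ENNReal.sum_ne_top]; intro i _
    rw [ENNReal.sum_ne_top]; intro l _
    exact ENNReal.mul_ne_top (ENNReal.mul_ne_top (ENNReal.mul_ne_top hC0 (hE l)) (hD a)) hK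
  have hbound : ∀ z, DL μ X A L z ≤ (C * Y (cc d) 2 z) * GN (M + 1) z := by
    intro z
    unfold DL
    have h1 : ∀ n : Fin (M + 1) → ℕ, (if ∃ i, n i < L then μ (hit X A z n) else 0)
        ≤ ∑ a ∈ A, ∑ i : Fin (M + 1), (if n i < L then p (∑ i, n i) (a - z) else 0) := by
      intro n
      by_cases h : ∃ i, n i < L
      · rw [if_pos h]
        refine (mu_hit_le hd hX A z n).trans (Finset.sum_le_sum fun a _ => ?_)
        obtain ⟨i, hi⟩ := h
        refine le_trans ?_ (Finset.single_le_sum (f := fun i => if n i < L then p (∑ i, n i) (a - z) else 0)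
          (fun _ _ => bot_le) (Finset.mem_univ i))
        rw [if_pos hi]
      · rw [if_neg h]; exact bot_le
    refine (ENNReal.tsum_le_tsum h1).trans ?_
    simp only [Summable.tsum_finsetSum (fun _ _ => ENNReal.summable), boundary_sum]
    rw [hC, Finset.sum_mul, Finset.sum_mul]
    refine Finset.sum_le_sum fun a _ => ?_
    rw [Finset.sum_mul, Finset.sum_mul]
    refine Finset.sum_le_sum fun i _ => ?_
    rw [Finset.sum_mul, Finset.sum_mul]
    refine Finset.sum_le_sum fun l _ => ?_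
    have h2 : GN (d := d) M ≤ fun x => C0 * Y (cc d) (d - 2 * M) x := hU0
    have h3 := Pn_mono h2 l (a - z)
    rw [Pn_mul] at h3
    have e1 : a - z = -(z + -a) := by abel
    calc (P^[l] (GN M)) (a - z) ≤ C0 * (P^[l] (Y (cc d) (d - 2 * M))) (a - z) := h3
      _ ≤ C0 * (E l * Y (cc d) (d - 2 * M) (a - z)) := by gcongr; exact hEs l _
      _ = C0 * (E l * Y (cc d) (d - 2 * M) (z + -a)) := by rw [e1, Y_neg]
      _ ≤ C0 * (E l * (D a * Y (cc d) (d - 2 * M) z)) := by gcongr; exact hDs a z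
      _ ≤ C0 * (E l * (D a * (K * Y (cc d) 2 z * GN (M + 1) z))) := by gcongr; exact hKx z
      _ = _ := by ring
  have h1 := ENNReal.Tendsto.const_mul (a := C) (Y_two_tendsto (d := d)) (Or.inr hCt)
  rw [mul_zero] at h1
  filter_upwards [(ENNReal.tendsto_nhds_zero.mp h1) ε (pos_iff_ne_zero.mpr hε)] with z hz
  refine (hbound z).trans ?_
  gcongr

/-! ### main term -/

lemma p_supp (n : ℕ) : {x : Z d | p n x ≠ 0}.Finite := by
  induction n with
  | zero =>
    refine (Set.finite_singleton (0 : Z d)).subset ?_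
    intro x hx
    by_contra h
    apply hx
    simp only [p, Function.iterate_zero, id, dl]
    rw [if_neg (by simpa using h)]
  | succ n ih =>
    have h : {x : Z d | p (n + 1) x ≠ 0} ⊆ ⋃ s : Fin d × Bool, (fun x => x - st s) '' {x : Z d | p n x ≠ 0} := by
      intro x hx
      have hx' : P (p n) x ≠ 0 := by
        have : p (n + 1) x ≠ 0 := hx
        rwa [p, Function.iterate_succ_apply'] at this
      by_contra hcon
      apply hx'
      unfold P
      have : ∑ e : Fin d × Bool, p n (x + st e) = 0 := by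
        rw [Finset.sum_eq_zero_iff]
        intro s _
        by_contra h0
        apply hcon
        rw [Set.mem_iUnion]
        exact ⟨s, x + st s, h0, by simp⟩
      rw [this, mul_zero]
    exact (Set.finite_iUnion fun s => ih.image _).subset h

lemma cL_supp (hd : 0 < d) (hX : IsSRW μ X) (A : Finset (Z d)) (L : ℕ) :
    {u : Z d | cL μ X A L u ≠ 0}.Finite := by
  have h : {u : Z d | cL μ X A L u ≠ 0} ⊆ ⋃ a ∈ A, (fun x => a - x) ''
      {x : Z d | p (∑ _i : Fin (M + 1), L) x ≠ 0} := by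
    intro u hu
    by_contra hcon
    apply hu
    have h1 : {ω | (fun e => X e ω) ∈ Wset A L u}
        ⊆ ⋃ a ∈ A, {ω | V (fun _ => L) (fun e => X e ω) = a - u} := by
      rintro ω ⟨h1, _⟩
      simp only [Set.mem_iUnion]
      refine ⟨_, h1, ?_⟩
      rw [Set.mem_ofPred_eq]; abel
    unfold cL
    refine le_antisymm ((measure_mono h1).trans ((measure_biUnion_finset_le _ _).trans
      (le_of_eq ?_))) bot_le
    rw [Finset.sum_eq_zero_iff]
    intro a ha
    rw [law_V hd hX]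
    by_contra h0
    apply hcon
    simp only [Set.mem_iUnion]
    exact ⟨a, ha, a - u, h0, by simp⟩
  refine Set.Finite.subset ?_ h
  exact A.finite_toSet.biUnion fun a _ => (p_supp _).image _

lemma ML_tendsto (hN : 2 * (M + 1) < d) (hX : IsSRW μ X) (A : Finset (Z d)) (L : ℕ) :
    ∃ c : ℝ, Tendsto (fun z => (ML μ X A L z).toReal / (GN (M + 1) z).toReal) cofinite (𝓝 c) := by
  classical
  set U := (cL_supp (by omega) hX A L).toFinset with hU
  have h1 : ∀ z, ML μ X A L z = ∑ u ∈ U, GN (M + 1) (z + -u) * cL μ X A L u := by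
    intro z
    unfold ML
    rw [← (Equiv.subRight z).tsum_eq]
    rw [tsum_eq_sum (s := U)]
    · refine Finset.sum_congr rfl fun u _ => ?_
      simp only [Equiv.subRight_apply]
      have e1 : z + (u - z) = u := by abel
      have e2 : u - z = -(z + -u) := by abel
      rw [e1, e2, GN_neg]
    · intro u hu
      simp only [Equiv.subRight_apply]
      have e1 : z + (u - z) = u := by abel
      rw [e1]
      have : cL μ X A L u = 0 := by
        by_contra h0
        apply hu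
        rw [hU, Set.Finite.mem_toFinset]
        exact h0
      rw [this, mul_zero]
  have hfin : ∀ x : Z d, GN (M + 1) x ≠ ⊤ := GN_ne_top hN (M + 1) le_rfl
  have hct : ∀ u, cL μ X A L u ≠ ⊤ := fun u => measure_ne_top _ _
  refine ⟨∑ u ∈ U, 1 * (cL μ X A L u).toReal, ?_⟩
  have h2 : ∀ z, (ML μ X A L z).toReal / (GN (M + 1) z).toReal
      = ∑ u ∈ U, ((GN (M + 1) (z + -u)).toReal / (GN (M + 1) z).toReal) * (cL μ X A L u).toReal := by
    intro z
    rw [h1, ENNReal.toReal_sum (fun u _ => ENNReal.mul_ne_top (hfin _) (hct u)), Finset.sum_div]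
    refine Finset.sum_congr rfl fun u _ => ?_
    rw [ENNReal.toReal_mul]; ring
  simp only [h2]
  apply tendsto_finsetSum
  intro u _
  exact (GN_ratio hN (-u)).mul_const _

lemma exists_lim {α : Type*} {l : Filter α} [l.NeBot] (q : α → ℝ)
    (h : ∀ ε > 0, ∃ c, ∀ᶠ z in l, |q z - c| ≤ ε) : ∃ ℓ, Tendsto q l (𝓝 ℓ) := by
  have hc : Cauchy (map q l) := by
    rw [Metric.cauchy_iff]
    refine ⟨inferInstance, fun ε hε => ?_⟩
    obtain ⟨c, hc⟩ := h (ε / 3) (by positivity)
    refine ⟨{x | |x - c| ≤ ε / 3}, hc, ?_⟩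
    intro x hx y hy
    have h1 : |x - c| ≤ ε / 3 := hx
    have h2 : |y - c| ≤ ε / 3 := hy
    rw [Real.dist_eq]
    rw [abs_le] at h1 h2
    rw [abs_lt]
    constructor <;> linarith
  exact cauchy_iff_exists_le_nhds.mp hc

theorem main (hN : 2 * (M + 1) < d) (hX : IsSRW μ X) (A : Finset (Z d)) :
    ∃ ℓ : ℝ, Tendsto (fun z => (μ (⋃ n, hit X A z n)).toReal / (GN (M + 1) z).toReal)
      cofinite (𝓝 ℓ) := by
  have hd : 0 < d := by omega
  haveI : Nonempty (Fin d) := ⟨⟨0, hd⟩⟩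
  haveI : Infinite (Z d) := inferInstance
  have hfin : ∀ x : Z d, GN (M + 1) x ≠ ⊤ := GN_ne_top hN (M + 1) le_rfl
  have hne := GN_ne_zero (d := d) hN
  apply exists_lim
  intro ε hε
  have hε4 : (0:ℝ) < ε / 2 := by positivity
  have hε4' : ENNReal.ofReal (ε / 2) ≠ 0 := by simpa using hε4
  obtain ⟨L, hB⟩ := BL_Q hN hX A (ENNReal.ofReal (ε / 2)) hε4'
  have hB := hB L le_rfl
  have hD := DL_small hN hX A L (ENNReal.ofReal (ε / 2)) hε4'
  obtain ⟨c, hc⟩ := ML_tendsto hN hX A L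
  rw [Metric.tendsto_nhds] at hc
  refine ⟨c, ?_⟩
  filter_upwards [hB, hD, hc (ε / 2) hε4] with z hBz hDz hcz
  have hsum : ∑' n, μ (hit X A z n) ≠ ⊤ := by
    refine ne_top_of_le_ne_top ?_ (sum_hit_le hd hX A z)
    rw [ENNReal.sum_ne_top]; intro a _; exact hfin _
  have hu := upper5 hd hX A L z hsum
  have hl := lower5 hd hX A L z
  have hpt : μ (⋃ n, hit X A z n) ≠ ⊤ := measure_ne_top _ _
  have hG : 0 < (GN (M + 1) z).toReal := ENNReal.toReal_pos (hne z) (hfin z)
  have hεG : ENNReal.ofReal (ε / 2) * GN (M + 1) z ≠ ⊤ :=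
    ENNReal.mul_ne_top ENNReal.ofReal_ne_top (hfin z)
  have hMt : ML μ X A L z ≠ ⊤ :=
    ne_top_of_le_ne_top (ENNReal.add_ne_top.mpr ⟨hpt, hεG⟩) (hl.trans (by gcongr))
  have r1 : (μ (⋃ n, hit X A z n)).toReal ≤ (ML μ X A L z).toReal + ε / 2 * (GN (M + 1) z).toReal := by
    have h1 : μ (⋃ n, hit X A z n) ≤ ML μ X A L z + ENNReal.ofReal (ε / 2) * GN (M + 1) z :=
      hu.trans (by gcongr)
    have h2 := ENNReal.toReal_mono (ENNReal.add_ne_top.mpr ⟨hMt, hεG⟩) h1
    rwa [ENNReal.toReal_add hMt hεG, ENNReal.toReal_mul, ENNReal.toReal_ofReal hε4.le] at h2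
  have r2 : (ML μ X A L z).toReal ≤ (μ (⋃ n, hit X A z n)).toReal + ε / 2 * (GN (M + 1) z).toReal := by
    have h1 : ML μ X A L z ≤ μ (⋃ n, hit X A z n) + ENNReal.ofReal (ε / 2) * GN (M + 1) z :=
      hl.trans (by gcongr)
    have h2 := ENNReal.toReal_mono (ENNReal.add_ne_top.mpr ⟨hpt, hεG⟩) h1
    rwa [ENNReal.toReal_add hpt hεG, ENNReal.toReal_mul, ENNReal.toReal_ofReal hε4.le] at h2
  rw [Real.dist_eq, abs_lt] at hcz
  have e1 : (μ (⋃ n, hit X A z n)).toReal / (GN (M + 1) z).toReal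
      ≤ (ML μ X A L z).toReal / (GN (M + 1) z).toReal + ε / 2 := by
    rw [div_add' _ _ _ hG.ne']
    gcongr
  have e2 : (ML μ X A L z).toReal / (GN (M + 1) z).toReal
      ≤ (μ (⋃ n, hit X A z n)).toReal / (GN (M + 1) z).toReal + ε / 2 := by
    rw [div_add' _ _ _ hG.ne']
    gcongr
  rw [abs_le]
  constructor <;> linarith

end Pool.Agent.V11124.MS
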